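import Mathlib
/-! Task T25: the abstract monotonicity argument (pure real analysis). -/
set_option autoImplicit false
open Finset
namespace H716SP

/-- for each `β > 0` and every real `c` there is `a` with `L a β = c` (`L · β` is continuous, increasing with slope `≥ 1`). -/
theorem level_exists (L m1 m2 : ℝ → ℝ → ℝ)
    (P1 : ∀ a a' β β', 0 < β → 0 < β' → L a β + (a'-a) * m1 a β - (β'-β) * m2 a β ≤ L a' β')
    (P2 : ∀ a β, 0 < β → 1 ≤ m1 a β)
    (P4 : ∀ β, 0 < β → Continuous (fun a => m1 a β)) (β c : ℝ) (hβ : 0 < β) :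
    ∃ a, L a β = c := by
  obtain ⟨F, hF⟩ : ∃ F : ℝ → ℝ, ∀ a, F a = L a β := ⟨_, fun _ => rfl⟩
  have hlow : ∀ a a', F a + (a' - a) * m1 a β ≤ F a' := by
    intro a a'
    have := P1 a a' β β hβ hβ
    rw [hF, hF]; linarith
  have hup : ∀ a a', F a' ≤ F a + (a' - a) * m1 a' β := by
    intro a a'
    have := hlow a' a
    linarith
  have hcont : Continuous F := by
    rw [continuous_iff_continuousAt]
    intro a
    unfold ContinuousAt
    have hl : Filter.Tendsto (fun a' => F a + (a' - a) * m1 a β) (nhds a) (nhds (F a)) := by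
      have h : Continuous (fun a' : ℝ => F a + (a' - a) * m1 a β) := by fun_prop
      have h2 := h.tendsto a
      simpa using h2
    have hu : Filter.Tendsto (fun a' => F a + (a' - a) * m1 a' β) (nhds a) (nhds (F a)) := by
      have h : Continuous (fun a' : ℝ => F a + (a' - a) * m1 a' β) :=
        continuous_const.add ((continuous_id.sub continuous_const).mul (P4 β hβ))
      have h2 := h.tendsto a
      simpa using h2
    exact tendsto_of_tendsto_of_tendsto_of_le_of_le hl hu (fun a' => hlow a a')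
      (fun a' => hup a a')
  have hx : 0 ≤ |c - F 0| := abs_nonneg _
  have h1 : F (-|c - F 0|) ≤ c := by
    have h := hup 0 (-|c - F 0|)
    have h2 := P2 (-|c - F 0|) β hβ
    have h3 : |c - F 0| * 1 ≤ |c - F 0| * m1 (-|c - F 0|) β := mul_le_mul_of_nonneg_left h2 hx
    have h4 := neg_abs_le (c - F 0)
    linarith
  have h2 : c ≤ F (|c - F 0|) := by
    have h := hlow 0 (|c - F 0|)
    have h2 := P2 0 β hβ
    have h3 : |c - F 0| * 1 ≤ |c - F 0| * m1 0 β := mul_le_mul_of_nonneg_left h2 hx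
    have h4 := le_abs_self (c - F 0)
    linarith
  obtain ⟨a, -, ha⟩ := intermediate_value_Icc (show -|c - F 0| ≤ |c - F 0| by linarith)
    hcont.continuousOn ⟨h1, h2⟩
  exact ⟨a, by rw [← hF]; exact ha⟩

/-- The gap between the level curves `L = 0` and `L = c` (`c > 0`) is nondecreasing in `β`.
Proof.  Let `A0, Ac : ℝ → ℝ` be level functions: `L (A0 β) β = 0`, `L (Ac β) β = c` for `β > 0`; `A0 β ≤ Ac β` by P1, P2.
With `r a β = m2 a β/m1 a β`, for `0 < β < β'` P1 from `(Ac β, β)` to `(Ac β', β')` gives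
`Ac β' - Ac β ≤ (β'-β) r(Ac β) β`, and P1 in the other direction `Ac β' - Ac β ≥ (β'-β) r(Ac β') β'`; same for `A0`.  So
`[Ac β' - A0 β'] - [Ac β - A0 β] ≥ (β'-β)(r(Ac β') β' - r(A0 β) β) ≥ (β'-β)(r(A0 β') β' - r(A0 β) β)` by P3.  Apply this to the
points of a partition of `[β1,β2]` with `n` equal steps of length `h = (β2-β1)/n` and sum (telescoping):
`[gap at β2] - [gap at β1] ≥ h (r(A0 β2) β2 - r(A0 β1) β1)`; let `n → ∞`. -/
theorem gap_mono (L m1 m2 : ℝ → ℝ → ℝ)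
    (P1 : ∀ a a' β β', 0 < β → 0 < β' → L a β + (a'-a) * m1 a β - (β'-β) * m2 a β ≤ L a' β')
    (P2 : ∀ a β, 0 < β → 1 ≤ m1 a β)
    (P3 : ∀ a a' β, 0 < β → a ≤ a' → m2 a β / m1 a β ≤ m2 a' β / m1 a' β)
    (c : ℝ) (hc : 0 < c) (A0 Ac : ℝ → ℝ) (h0 : ∀ β, 0 < β → L (A0 β) β = 0)
    (h1 : ∀ β, 0 < β → L (Ac β) β = c) (β1 β2 : ℝ) (hβ1 : 0 < β1) (h12 : β1 ≤ β2) :
    Ac β1 - A0 β1 ≤ Ac β2 - A0 β2 := by
  have hpos : ∀ a β, 0 < β → 0 < m1 a β := fun a β hβ => lt_of_lt_of_le one_pos (P2 a β hβ)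
  have hlev : ∀ (d : ℝ) (A : ℝ → ℝ), (∀ β, 0 < β → L (A β) β = d) → ∀ β β', 0 < β → 0 < β' →
      A β' - A β ≤ (β' - β) * (m2 (A β) β / m1 (A β) β) := by
    intro d A hA β β' hβ hβ'
    have h := P1 (A β) (A β') β β' hβ hβ'
    rw [hA β hβ, hA β' hβ'] at h
    rw [← mul_div_assoc, le_div_iff₀ (hpos _ _ hβ)]
    linarith
  have hle : ∀ β, 0 < β → A0 β ≤ Ac β := by
    intro β hβ
    have h := P1 (Ac β) (A0 β) β β hβ hβ
    rw [h0 β hβ, h1 β hβ] at h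
    by_contra hlt
    push Not at hlt
    have := mul_pos (sub_pos.2 hlt) (hpos (Ac β) β hβ)
    linarith
  obtain ⟨R, hR⟩ : ∃ R : ℝ → ℝ, ∀ β, R β = m2 (A0 β) β / m1 (A0 β) β := ⟨_, fun _ => rfl⟩
  obtain ⟨G, hG⟩ : ∃ G : ℝ → ℝ, ∀ β, G β = Ac β - A0 β := ⟨_, fun _ => rfl⟩
  have hinc : ∀ β β', 0 < β → β ≤ β' → (β' - β) * (R β' - R β) ≤ G β' - G β := by
    intro β β' hβ hbb
    have hβ' : 0 < β' := lt_of_lt_of_le hβ hbb
    have e1 := hlev c Ac h1 β' β hβ' hβ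
    have e2 := hlev 0 A0 h0 β β' hβ hβ'
    have e3 := P3 (A0 β') (Ac β') β' hβ' (hle β' hβ')
    have e4 := mul_le_mul_of_nonneg_left e3 (sub_nonneg.2 hbb)
    rw [hR, hR, hG, hG]
    linarith
  have hn : ∀ n : ℕ, 0 < n → ((β2 - β1) * (R β2 - R β1)) / (n:ℝ) ≤ G β2 - G β1 := by
    intro n hn
    have hn0 : (0:ℝ) < n := by exact_mod_cast hn
    obtain ⟨x, hx⟩ : ∃ x : ℕ → ℝ, ∀ i, x i = β1 + i * ((β2 - β1) / n) := ⟨_, fun _ => rfl⟩
    have hstep : 0 ≤ (β2 - β1) / n := div_nonneg (sub_nonneg.2 h12) hn0.le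
    have hx0 : x 0 = β1 := by rw [hx]; simp
    have hxn : x n = β2 := by rw [hx]; field_simp; ring
    have hxpos : ∀ i, 0 < x i := by intro i; rw [hx]; positivity
    have hxs : ∀ i, x (i+1) - x i = (β2 - β1) / n := by
      intro i; rw [hx, hx]; push_cast; ring
    have hs : ∑ i ∈ range n, ((β2 - β1) / n) * (R (x (i+1)) - R (x i)) ≤
        ∑ i ∈ range n, (G (x (i+1)) - G (x i)) := by
      apply Finset.sum_le_sum
      intro i _
      have h := hinc (x i) (x (i+1)) (hxpos i) (by linarith [hxs i])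
      rwa [hxs] at h
    rw [← Finset.mul_sum, Finset.sum_range_sub (fun i => R (x i)),
      Finset.sum_range_sub (fun i => G (x i)), hx0, hxn] at hs
    calc ((β2 - β1) * (R β2 - R β1)) / (n:ℝ) = (β2 - β1) / n * (R β2 - R β1) := by ring
      _ ≤ _ := hs
  have hlim : Filter.Tendsto (fun n : ℕ => ((β2 - β1) * (R β2 - R β1)) / (n:ℝ)) Filter.atTop
      (nhds 0) := tendsto_const_div_atTop_nhds_zero_nat _
  have hfin : 0 ≤ G β2 - G β1 := by
    refine le_of_tendsto hlim ?_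
    filter_upwards [Filter.eventually_gt_atTop 0] with n hn'
    exact hn n hn'
  rw [hG, hG] at hfin
  linarith

/-- Proof.  `β1 < β2`; `A_c(β)` the level points (`level_exists`), `0 < c < β1`.  `hθ` at `β2` with `a = A_c`, `a0 = A_0`:
`θ(β2) ≥ (A_c - A_0)(β2)/c ≥ (A_c - A_0)(β1)/c` (`gap_mono`), and P1 at `β1` from `A_c` to `A_0`:
`0 ≥ c + (A_0 - A_c) m1(A_c)`, so `(A_c - A_0)(β1)/c ≥ 1/m1(A_c(β1), β1)`.  `hθ` at `β1` with `a = A_{-c}`:
`A_{-c} - A_0 ≤ -c θ(β1)`, so `θ(β1) ≤ (A_0 - A_{-c})(β1)/c ≤ 1/m1(A_{-c}(β1),β1)` (P1 from `A_{-c}` to `A_0`).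
As `c → 0`, `A_{±c}(β1) → A_0(β1)` (`|A_{±c} - A_0| ≤ c` by P1, P2), so by P4 `θ(β1) ≤ 1/m1(A_0(β1),β1) ≤ θ(β2)`.
(`∀ a' > A_0, 0 < L a'` follows from P1, P2.) -/
theorem abstract_mono (L m1 m2 : ℝ → ℝ → ℝ)
    (P1 : ∀ a a' β β', 0 < β → 0 < β' → L a β + (a'-a) * m1 a β - (β'-β) * m2 a β ≤ L a' β')
    (P2 : ∀ a β, 0 < β → 1 ≤ m1 a β)
    (P3 : ∀ a a' β, 0 < β → a ≤ a' → m2 a β / m1 a β ≤ m2 a' β / m1 a' β)
    (P4 : ∀ β, 0 < β → Continuous (fun a => m1 a β))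
    (θ : ℝ → ℝ)
    (hθ : ∀ β, 0 < β → ∀ a a0, L a β < β → (∀ a', a0 < a' → 0 < L a' β) → a - a0 ≤ θ β * L a β) :
    MonotoneOn θ (Set.Ioi 0) := by
  have hpos : ∀ a β, 0 < β → 0 < m1 a β := fun a β hβ => lt_of_lt_of_le one_pos (P2 a β hβ)
  have hex : ∀ c β, ∃ a, 0 < β → L a β = c := by
    intro c β
    by_cases hβ : 0 < β
    · obtain ⟨a, ha⟩ := level_exists L m1 m2 P1 P2 P4 β c hβ
      exact ⟨a, fun _ => ha⟩
    · exact ⟨0, fun h => absurd h hβ⟩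
  choose A hA using hex
  have hP : ∀ a a' β, 0 < β → L a β + (a' - a) * m1 a β ≤ L a' β := by
    intro a a' β hβ
    have := P1 a a' β β hβ hβ
    linarith
  have hA0 : ∀ β, 0 < β → ∀ a', A 0 β < a' → 0 < L a' β := by
    intro β hβ a' ha'
    have h := hP (A 0 β) a' β hβ
    rw [hA 0 β hβ] at h
    have := mul_pos (sub_pos.2 ha') (hpos (A 0 β) β hβ)
    linarith
  intro β1 hβ1 β2 hβ2 h12
  rw [Set.mem_Ioi] at hβ1 hβ2
  have hAlim : Filter.Tendsto (fun c => A c β1) (nhds 0) (nhds (A 0 β1)) := by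
    have hb : ∀ c, |A c β1 - A 0 β1| ≤ |c| := by
      intro c
      have e1 := hP (A c β1) (A 0 β1) β1 hβ1
      have e2 := hP (A 0 β1) (A c β1) β1 hβ1
      rw [hA 0 β1 hβ1, hA c β1 hβ1] at e1 e2
      have g1 := P2 (A c β1) β1 hβ1
      have g2 := P2 (A 0 β1) β1 hβ1
      rcases le_total (A 0 β1) (A c β1) with h | h
      · have h3 : (A c β1 - A 0 β1) * 1 ≤ (A c β1 - A 0 β1) * m1 (A 0 β1) β1 :=
          mul_le_mul_of_nonneg_left g2 (sub_nonneg.2 h)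
        rw [abs_of_nonneg (sub_nonneg.2 h)]
        have := le_abs_self c
        linarith
      · have h3 : (A 0 β1 - A c β1) * 1 ≤ (A 0 β1 - A c β1) * m1 (A c β1) β1 :=
          mul_le_mul_of_nonneg_left g1 (sub_nonneg.2 h)
        rw [abs_of_nonpos (sub_nonpos.2 h)]
        have := neg_abs_le c
        linarith
    rw [tendsto_iff_norm_sub_tendsto_zero]
    refine squeeze_zero (fun _ => norm_nonneg _) (fun c => ?_) (tendsto_norm_zero (E := ℝ))
    rw [Real.norm_eq_abs, Real.norm_eq_abs]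
    exact hb c
  have hm : Filter.Tendsto (fun c => 1 / m1 (A c β1) β1) (nhds 0)
      (nhds (1 / m1 (A 0 β1) β1)) := by
    have h := ((P4 β1 hβ1).tendsto (A 0 β1)).comp hAlim
    exact tendsto_const_nhds.div h (hpos _ _ hβ1).ne'
  have hi : 1 / m1 (A 0 β1) β1 ≤ θ β2 := by
    refine le_of_tendsto (hm.mono_left (nhdsWithin_le_nhds (s := Set.Ioi 0))) ?_
    have hmem : Set.Ioo (0:ℝ) β2 ∈ nhdsWithin (0:ℝ) (Set.Ioi 0) := Ioo_mem_nhdsGT hβ2
    filter_upwards [hmem] with c hc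
    have e1 := hθ β2 hβ2 (A c β2) (A 0 β2) (by rw [hA c β2 hβ2]; exact hc.2) (hA0 β2 hβ2)
    rw [hA c β2 hβ2] at e1
    have e2 := gap_mono L m1 m2 P1 P2 P3 c hc.1 (A 0) (A c) (hA 0) (hA c) β1 β2 hβ1 h12
    have e3 := hP (A c β1) (A 0 β1) β1 hβ1
    rw [hA 0 β1 hβ1, hA c β1 hβ1] at e3
    have hmp := hpos (A c β1) β1 hβ1
    have e4 : c * (1 / m1 (A c β1) β1) ≤ A c β1 - A 0 β1 := by
      rw [mul_one_div, div_le_iff₀ hmp]
      linarith
    have e5 : c * (1 / m1 (A c β1) β1) ≤ c * θ β2 := by linarith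
    exact le_of_mul_le_mul_left e5 hc.1
  have hii : θ β1 ≤ 1 / m1 (A 0 β1) β1 := by
    refine ge_of_tendsto (hm.mono_left (nhdsWithin_le_nhds (s := Set.Iio 0))) ?_
    filter_upwards [self_mem_nhdsWithin] with c hc
    rw [Set.mem_Iio] at hc
    have e1 := hθ β1 hβ1 (A c β1) (A 0 β1) (by rw [hA c β1 hβ1]; linarith) (hA0 β1 hβ1)
    rw [hA c β1 hβ1] at e1
    have e3 := hP (A c β1) (A 0 β1) β1 hβ1
    rw [hA 0 β1 hβ1, hA c β1 hβ1] at e3
    have hmp := hpos (A c β1) β1 hβ1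
    have e4 : A 0 β1 - A c β1 ≤ (-c) * (1 / m1 (A c β1) β1) := by
      rw [mul_one_div, le_div_iff₀ hmp]
      linarith
    have e5 : (-c) * θ β1 ≤ (-c) * (1 / m1 (A c β1) β1) := by linarith
    exact le_of_mul_le_mul_left e5 (by linarith)
  exact hii.trans hi

end H716SP
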