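import Pool.Agent.H716R3.SP.Defs
/-! Task T09: the inequality (♣). -/
set_option autoImplicit false
open Finset
namespace H716SP

private theorem club_pascal (s : ℕ) (f : ℕ → ℝ) :
    ∑ l ∈ range (s+2), ((s+1).choose l : ℝ) * f l =
      ∑ l ∈ range (s+1), (s.choose l : ℝ) * (f l + f (l+1)) := by
  have h := Finset.sum_choose_succ_mul (fun l _ => f l) s
  rw [h, ← Finset.sum_add_distrib]
  exact Finset.sum_congr rfl fun l _ => by ring

private theorem club_DD_zero (s l : ℕ) : DD (s+1) l = DD s l - 1 := by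
  unfold DD
  push_cast
  ring

private theorem club_DD_succ (s l : ℕ) : DD (s+1) (l+1) = DD s l + 1 := by
  unfold DD
  push_cast
  ring

private theorem club_m0 (s : ℕ) : ∑ l ∈ range (s+1), (s.choose l : ℝ) = 2^s := by
  have := Nat.sum_range_choose s
  exact_mod_cast this

private theorem club_m1 (s : ℕ) : ∑ l ∈ range (s+1), (s.choose l : ℝ) * DD s l = 0 := by
  induction s with
  | zero => simp [DD]
  | succ s ih =>
    rw [club_pascal]
    have h : ∀ l ∈ range (s+1), (s.choose l : ℝ) * (DD (s+1) l + DD (s+1) (l+1)) =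
        2 * ((s.choose l : ℝ) * DD s l) := fun l _ => by
      rw [club_DD_zero, club_DD_succ]
      ring
    rw [Finset.sum_congr rfl h, ← Finset.mul_sum, ih, mul_zero]

private theorem club_m2 (s : ℕ) : ∑ l ∈ range (s+1), (s.choose l : ℝ) * DD s l ^ 2 = s * 2^s := by
  induction s with
  | zero => simp [DD]
  | succ s ih =>
    rw [club_pascal]
    have h : ∀ l ∈ range (s+1), (s.choose l : ℝ) * (DD (s+1) l ^ 2 + DD (s+1) (l+1) ^ 2) =
        2 * ((s.choose l : ℝ) * DD s l ^ 2) + 2 * (s.choose l : ℝ) := fun l _ => by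
      rw [club_DD_zero, club_DD_succ]
      ring
    rw [Finset.sum_congr rfl h, Finset.sum_add_distrib, ← Finset.mul_sum, ← Finset.mul_sum, ih,
      club_m0]
    push_cast
    ring

private theorem club_Hm_succ (n : ℕ) : Hm (n+1) = Hm n + 1/((n:ℝ)+1) := by
  unfold Hm
  rw [Finset.sum_range_succ]

private theorem club_a1 (s : ℕ) :
    ∑ l ∈ range (s+1), (s.choose l : ℝ) * ((DD s l + 1) / ((l:ℝ)+1)) = 1 := by
  have h1 := club_m1 (s+1)
  rw [Finset.sum_range_succ'] at h1
  have h2 : ∀ l ∈ range (s+1), (s.choose l : ℝ) * ((DD s l + 1) / ((l:ℝ)+1)) =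
      ((s:ℝ)+1)⁻¹ * (((s+1).choose (l+1) : ℝ) * DD (s+1) (l+1)) := fun l _ => by
    have h3 : ((s:ℝ)+1) * (s.choose l : ℝ) = ((s+1).choose (l+1) : ℝ) * ((l:ℝ)+1) := by
      have := Nat.add_one_mul_choose_eq s l
      exact_mod_cast this
    have h4 : ((s:ℝ)+1) ≠ 0 := by positivity
    have h5 : ((l:ℝ)+1) ≠ 0 := by positivity
    rw [club_DD_succ]
    field_simp
    linear_combination (DD s l + 1) * h3
  rw [Finset.sum_congr rfl h2, ← Finset.mul_sum]
  have h6 : ∑ l ∈ range (s+1), ((s+1).choose (l+1) : ℝ) * DD (s+1) (l+1) = (s:ℝ)+1 := by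
    have h7 : ((s+1).choose 0 : ℝ) * DD (s+1) 0 = -((s:ℝ)+1) := by
      simp [DD]
    rw [h7] at h1
    linarith
  rw [h6, inv_mul_cancel₀ (by positivity)]

private theorem club_a3 (s : ℕ) :
    ∑ l ∈ range (s+1), (s.choose l : ℝ) * ((DD s l - 1) / (((s-l:ℕ):ℝ)+1)) = -1 := by
  have h1 := club_m1 (s+1)
  rw [Finset.sum_range_succ] at h1
  have h2 : ∀ l ∈ range (s+1), (s.choose l : ℝ) * ((DD s l - 1) / (((s-l:ℕ):ℝ)+1)) =
      ((s:ℝ)+1)⁻¹ * (((s+1).choose l : ℝ) * DD (s+1) l) := fun l hl => by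
    rw [Finset.mem_range] at hl
    have h3 : ((s:ℝ)+1) * (s.choose l : ℝ) = ((s+1).choose l : ℝ) * (((s-l:ℕ):ℝ)+1) := by
      have h := Nat.add_one_mul_choose_eq s (s-l)
      rw [Nat.choose_symm (by omega : l ≤ s)] at h
      have h' : (s+1).choose (s-l+1) = (s+1).choose l := by
        rw [show s - l + 1 = s + 1 - l by omega, Nat.choose_symm (by omega)]
      rw [h'] at h
      exact_mod_cast h
    have h4 : ((s:ℝ)+1) ≠ 0 := by positivity
    have h5 : (((s-l:ℕ):ℝ)+1) ≠ 0 := by positivity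
    rw [club_DD_zero]
    field_simp
    linear_combination (DD s l - 1) * h3
  rw [Finset.sum_congr rfl h2, ← Finset.mul_sum]
  have h6 : ∑ l ∈ range (s+1), ((s+1).choose l : ℝ) * DD (s+1) l = -((s:ℝ)+1) := by
    have h7 : ((s+1).choose (s+1) : ℝ) * DD (s+1) (s+1) = (s:ℝ)+1 := by
      simp [DD]
      ring
    rw [h7] at h1
    linarith
  rw [h6, mul_neg, inv_mul_cancel₀ (by positivity)]

private theorem club_m3 (s : ℕ) :
    ∑ l ∈ range (s+1), (s.choose l : ℝ) * (DD s l * del s l) = 2^(s+1) - 2 := by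
  induction s with
  | zero => simp [DD]
  | succ s ih =>
    rw [club_pascal]
    have h : ∀ l ∈ range (s+1), (s.choose l : ℝ) * (DD (s+1) l * del (s+1) l +
        DD (s+1) (l+1) * del (s+1) (l+1)) =
        2 * ((s.choose l : ℝ) * (DD s l * del s l)) +
          (s.choose l : ℝ) * ((DD s l + 1) / ((l:ℝ)+1)) -
          (s.choose l : ℝ) * ((DD s l - 1) / (((s-l:ℕ):ℝ)+1)) := fun l hl => by
      rw [Finset.mem_range] at hl
      have e1 : del (s+1) l = del s l - 1/(((s-l:ℕ):ℝ)+1) := by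
        unfold del
        rw [show s + 1 - l = (s - l) + 1 by omega, club_Hm_succ]
        ring
      have e2 : del (s+1) (l+1) = del s l + 1/((l:ℝ)+1) := by
        unfold del
        rw [show s + 1 - (l + 1) = s - l by omega, club_Hm_succ]
        ring
      rw [club_DD_zero, club_DD_succ, e1, e2]
      ring
    rw [Finset.sum_congr rfl h, Finset.sum_sub_distrib, Finset.sum_add_distrib, ← Finset.mul_sum, ih,
      club_a1, club_a3]
    ring

/-- Proof: `∑ C(s,l) D² = s 2^s`, and `D C(s,l) = s [C(s-1,l-1) - C(s-1,l)]` gives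
`∑ C(s,l) D δ(l) = s ∑_{l<s} C(s-1,l) [δ(l+1) - δ(l)]`, `δ(l+1) - δ(l) = 1/(l+1) + 1/(s-l) = (s+1)/((l+1)(s-l))`,
`C(s-1,l)/((l+1)(s-l)) = C(s+1,l+1)/(s(s+1))`; so it equals `∑_{l<s} C(s+1,l+1) = 2^{s+1} - 2`. -/
theorem club_total (s : ℕ) (hs : 1 ≤ s) :
    ∑ l ∈ range (s+1), (s.choose l : ℝ) * (DD s l * (del s l - 2 * DD s l / s)) = -2 := by
  have hs' : (s:ℝ) ≠ 0 := by positivity
  have h : ∀ l ∈ range (s+1), (s.choose l : ℝ) * (DD s l * (del s l - 2 * DD s l / s)) =
      (s.choose l : ℝ) * (DD s l * del s l) - (2 / s) * ((s.choose l : ℝ) * DD s l ^ 2) :=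
    fun l _ => by ring
  rw [Finset.sum_congr rfl h, Finset.sum_sub_distrib, ← Finset.mul_sum, club_m3, club_m2]
  field_simp
  ring

/-- the increments -/
private theorem club_inc (s l : ℕ) (hl : l < s) :
    (del s (l+1) - 2 * DD s (l+1) / s) - (del s l - 2 * DD s l / s) =
      1/((l:ℝ)+1) + 1/((s:ℝ)-l) - 4/s := by
  have e1 : Hm (s-l) = Hm (s-(l+1)) + 1/((s:ℝ)-l) := by
    rw [show s - l = (s - (l+1)) + 1 by omega, club_Hm_succ]
    have : ((s - (l+1) : ℕ) : ℝ) + 1 = (s:ℝ) - l := by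
      rw [Nat.cast_sub (by omega)]
      push_cast
      ring
    rw [this]
  unfold del DD
  rw [e1, club_Hm_succ]
  push_cast
  ring

private theorem club_inc_mono (s l : ℕ) (h1 : s ≤ 2 * l + 2) (h2 : l + 1 < s) :
    1/((l:ℝ)+1) + 1/((s:ℝ)-l) - 4/s ≤ 1/(((l+1:ℕ):ℝ)+1) + 1/((s:ℝ)-(l+1:ℕ)) - 4/s := by
  have h3 : (0:ℝ) < (s:ℝ) - l - 1 := by
    have : ((l + 1 : ℕ) : ℝ) < s := by exact_mod_cast h2
    push_cast at this
    linarith
  have h4 : (s:ℝ) ≤ 2 * l + 2 := by exact_mod_cast h1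
  have h5 : (0:ℝ) ≤ l := Nat.cast_nonneg l
  push_cast
  have e1 : 1/((l:ℝ)+1) + 1/((s:ℝ)-l) = (s+1) / (((l:ℝ)+1) * ((s:ℝ)-l)) := by
    have : (s:ℝ) - l ≠ 0 := by linarith
    field_simp
    ring
  have e2 : 1/((l:ℝ)+1+1) + 1/((s:ℝ)-(l+1)) = (s+1) / (((l:ℝ)+1+1) * ((s:ℝ)-(l+1))) := by
    have : (s:ℝ) - (l + 1) ≠ 0 := by linarith
    field_simp
    ring
  rw [e1, e2]
  have h6 : (s+1:ℝ) / (((l:ℝ)+1) * ((s:ℝ)-l)) ≤ (s+1) / (((l:ℝ)+1+1) * ((s:ℝ)-(l+1))) := by
    apply div_le_div_of_nonneg_left (by positivity)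
    · have : (0:ℝ) < (s:ℝ) - (l+1) := by linarith
      positivity
    · nlinarith
  linarith

/-- if the increment at `l` is negative, so is the value -/
private theorem club_neg (s l : ℕ) (hl : s < 2 * l) (hls : l < s)
    (h : 1/((l:ℝ)+1) + 1/((s:ℝ)-l) - 4/s < 0) : del s l - 2 * DD s l / s < 0 := by
  induction l with
  | zero => omega
  | succ l ih =>
    have hs : (0:ℝ) < s := by
      have : 0 < s := by omega
      exact_mod_cast this
    have hinc := club_inc_mono s l (by omega) hls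
    have hneg := lt_of_le_of_lt hinc h
    have h1 := club_inc s l (by omega)
    rcases lt_or_ge s (2 * l) with h2 | h2
    · have := ih h2 (by omega) hneg
      linarith
    · rcases Nat.lt_or_ge s (2 * l + 1) with h3 | h3
      · have h4 : s = 2 * l := by omega
        have h5 : del s l - 2 * DD s l / s = 0 := by
          unfold del DD
          rw [show s - l = l by omega, h4]
          push_cast
          ring
        linarith
      · have h4 : s = 2 * l + 1 := by omega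
        have h5 : del s (l+1) = 1/((l:ℝ)+1) := by
          unfold del
          rw [show s - (l+1) = l by omega, club_Hm_succ]
          ring
        have h6 : DD s (l+1) = 1 := by
          unfold DD
          rw [h4]
          push_cast
          ring
        have h7 : (s:ℝ) = 2 * l + 1 := by exact_mod_cast h4
        rw [h5, h6, h7]
        have h8 : 1/((l:ℝ)+1) = 2/(2*(l:ℝ)+2) := by
          rw [div_eq_div_iff (by positivity) (by positivity)]
          ring
        rw [h8, mul_one]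
        have h9 : 2/(2*(l:ℝ)+2) < 2/(2*(l:ℝ)+1) :=
          div_lt_div_of_pos_left (by norm_num) (by positivity) (by linarith)
        linarith

/-- Sign pattern of `y(l) = D (δ - 2D/s)` on `l ≥ s/2`: once `≥ 0` (at some `D > 0`) it stays `≥ 0`.
Proof: for `2l ≥ s`, `x(l) = δ(l) - 2D/s` satisfies `x(l+1) - x(l) = (s+1)/((l+1)(s-l)) - 4/s`, which is nondecreasing in
`l` (for `2l ≥ s`, even `2l ≥ s-1`), i.e. `x` is convex there; `x(l) = 0` at `D = 0` if `s` is even and
`x = 2/(s+1) - 2/s < 0` at `D = 1` if `s` is odd; in both cases (for even `s`, the first increment is `< 0`) convexity implies: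
`x(l) ≥ 0`, `D > 0` ⟹ `x(l+1) ≥ 0`. -/
theorem club_sign (s l l' : ℕ) (hl : s < 2 * l) (hll : l ≤ l') (hl' : l' ≤ s)
    (h : 0 ≤ del s l - 2 * DD s l / s) : 0 ≤ del s l' - 2 * DD s l' / s := by
  induction l', hll using Nat.le_induction with
  | base => exact h
  | succ m hm ih =>
    have h1 := ih (by omega)
    have h2 := club_inc s m (by omega)
    rcases lt_or_ge (1/((m:ℝ)+1) + 1/((s:ℝ)-m) - 4/s) 0 with h3 | h3
    · exact absurd (club_neg s m (by omega) (by omega) h3) (not_lt.2 h1)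
    · linarith

/-- `φ(D) = e^{-(β/2)D²} sinh(βD)/D` is nonincreasing along `D → D+2` (`D ≥ 1`):
`D sinh(β(D+2)) e^{-(β/2)(D+2)²} ≤ (D+2) sinh(βD) e^{-(β/2)D²}`, i.e. `D sinh(β(D+2)) e^{-2β(D+1)} ≤ (D+2) sinh(βD)`.
Proof: `sinh(β(D+2)) e^{-2β(D+1)} = (e^{-βD} - e^{-β(3D+4)})/2`, `sinh(βD) = (e^{βD} - e^{-βD})/2`; so (multiply by
`2e^{βD}`) it suffices `D (1 - e^{-2β(D+2)}) ≤ (D+2)(e^{2βD} - 1)`: the left side is `≤ D·2β(D+2)` and the right side is `≥ (D+2)·2βD`. -/
theorem phi_step (β D : ℝ) (hβ : 0 < β) (hD : 0 < D) :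
    D * (Real.exp (-(β/2) * (D+2)^2) * Real.sinh (β*(D+2))) ≤
      (D+2) * (Real.exp (-(β/2) * D^2) * Real.sinh (β*D)) := by
  have e1 : Real.exp (-(β/2) * (D+2)^2) = Real.exp (-(β/2) * D^2) * Real.exp (-2*β*(D+1)) := by
    rw [← Real.exp_add]
    congr 1
    ring
  have e2 : Real.exp (-2*β*(D+1)) * Real.sinh (β*(D+2)) =
      Real.exp (-(β*D)) * (1 - Real.exp (-(2*β*(D+2)))) / 2 := by
    rw [Real.sinh_eq, mul_sub, mul_one, ← Real.exp_add, mul_div_assoc', mul_sub, ← Real.exp_add,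
      ← Real.exp_add]
    congr 2
    · congr 1
      ring
    · congr 1
      ring
  have e3 : Real.sinh (β*D) = Real.exp (-(β*D)) * (Real.exp (2*β*D) - 1) / 2 := by
    rw [Real.sinh_eq, mul_sub, mul_one, ← Real.exp_add]
    congr 3
    ring
  have h1 : 1 - Real.exp (-(2*β*(D+2))) ≤ 2*β*(D+2) := by
    have := Real.add_one_le_exp (-(2*β*(D+2)))
    linarith
  have h2 : 2*β*D ≤ Real.exp (2*β*D) - 1 := by
    have := Real.add_one_le_exp (2*β*D)
    linarith
  have h3 : D * (1 - Real.exp (-(2*β*(D+2)))) ≤ (D+2) * (Real.exp (2*β*D) - 1) := by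
    have h4 := mul_le_mul_of_nonneg_left h1 hD.le
    have h5 := mul_le_mul_of_nonneg_left h2 (by linarith : 0 ≤ D+2)
    nlinarith
  rw [e1, mul_assoc (Real.exp (-(β/2) * D^2)), e2, e3]
  have h6 : 0 < Real.exp (-(β/2) * D^2) * Real.exp (-(β*D)) / 2 := by positivity
  have h7 := mul_le_mul_of_nonneg_left h3 h6.le
  calc _ = Real.exp (-(β/2) * D^2) * Real.exp (-(β*D)) / 2 *
        (D * (1 - Real.exp (-(2*β*(D+2))))) := by ring
    _ ≤ _ := h7
    _ = _ := by ring

/-- `φ(D)` on `2l > s` -/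
private noncomputable def club_phi (β : ℝ) (s l : ℕ) : ℝ :=
  Real.exp (-(β/2) * (DD s l)^2) * Real.sinh (β * DD s l) / DD s l

private theorem club_DD_pos (s l : ℕ) (h : s < 2 * l) : 0 < DD s l := by
  unfold DD
  have : (s:ℝ) < 2 * l := by exact_mod_cast h
  linarith

private theorem club_phi_anti (β : ℝ) (hβ : 0 < β) (s l l' : ℕ) (hl : s < 2 * l) (hll : l ≤ l') :
    club_phi β s l' ≤ club_phi β s l := by
  induction l', hll using Nat.le_induction with
  | base => exact le_rfl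
  | succ m hm ih =>
    refine le_trans ?_ ih
    have h1 := club_DD_pos s m (by omega)
    have h2 : DD s (m+1) = DD s m + 2 := by
      unfold DD
      push_cast
      ring
    unfold club_phi
    rw [h2, div_le_div_iff₀ (by linarith) h1]
    have := phi_step β (DD s m) hβ h1
    linarith

private theorem club_phi_nonneg (β : ℝ) (hβ : 0 < β) (s l : ℕ) (hl : s < 2 * l) :
    0 ≤ club_phi β s l := by
  have h1 := club_DD_pos s l hl
  unfold club_phi
  have h2 : 0 ≤ Real.sinh (β * DD s l) := Real.sinh_nonneg_iff.2 (by positivity)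
  positivity

private theorem club_DD_symm (s l : ℕ) (h : l ≤ s) : DD s (s-l) = -DD s l := by
  unfold DD
  rw [Nat.cast_sub h]
  ring

private theorem club_del_symm (s l : ℕ) (h : l ≤ s) : del s (s-l) = -del s l := by
  unfold del
  rw [Nat.sub_sub_self h]
  ring

/-- the pointwise inequality -/
private theorem club_pt (β : ℝ) (hβ : 0 < β) (s : ℕ) : ∃ φ₀ : ℝ, 0 ≤ φ₀ ∧ ∀ l ≤ s, s < 2 * l →
    Real.exp (-(β/2) * (DD s l)^2) * Real.sinh (β * DD s l) * (del s l - 2 * DD s l / s) ≤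
      φ₀ * (DD s l * (del s l - 2 * DD s l / s)) := by
  have hF : ∀ l, s < 2 * l → Real.exp (-(β/2) * (DD s l)^2) * Real.sinh (β * DD s l) =
      club_phi β s l * DD s l := fun l hl => by
    unfold club_phi
    rw [div_mul_cancel₀ _ (club_DD_pos s l hl).ne']
  by_cases h : ∃ l, s < 2 * l ∧ l ≤ s ∧ 0 ≤ del s l - 2 * DD s l / s
  · classical
    obtain ⟨h1, h2, h3⟩ := Nat.find_spec h
    refine ⟨club_phi β s (Nat.find h), club_phi_nonneg β hβ s _ h1, fun l hl hsl => ?_⟩
    rw [hF l hsl, mul_assoc]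
    have hD := club_DD_pos s l hsl
    rcases le_or_gt (Nat.find h) l with h4 | h4
    · have h5 := club_sign s (Nat.find h) l h1 h4 hl h3
      exact mul_le_mul_of_nonneg_right (club_phi_anti β hβ s _ l h1 h4) (by positivity)
    · have h5 : ¬ (0 ≤ del s l - 2 * DD s l / s) := fun h6 => Nat.find_min h h4 ⟨hsl, hl, h6⟩
      push Not at h5
      exact mul_le_mul_of_nonpos_right (club_phi_anti β hβ s l _ hsl h4.le)
        (mul_nonpos_of_nonneg_of_nonpos hD.le h5.le)
  · push Not at h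
    refine ⟨0, le_rfl, fun l hl hsl => ?_⟩
    rw [hF l hsl, mul_assoc, zero_mul]
    exact mul_nonpos_of_nonneg_of_nonpos (club_phi_nonneg β hβ s l hsl)
      (mul_nonpos_of_nonneg_of_nonpos (club_DD_pos s l hsl).le (h l hsl hl).le)

/-- (♣).  Proof: the difference RHS - LHS is `-∑ C(s,l) φ(|D|) D (δ - 2D/s)` with `φ(D) = e^{-(β/2)D²} sinh(βD)/D` (terms with
`D = 0` vanish), even under `l ↦ s-l`.  By `club_sign` the terms `y = D(δ-2D/s)` are `≤ 0` for `|D| ≤ D0` and `≥ 0` for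
`|D| > D0`; `φ` is nonincreasing in `|D|` (`phi_step`); so `∑ C φ y ≤ φ(D0) ∑ C y = -2 φ(D0) ≤ 0`. -/
theorem club (β : ℝ) (hβ : 0 < β) (s : ℕ) (hs : 1 ≤ s) :
    ∑ l ∈ range (s+1), cc β s l * (Real.sinh (β * DD s l) * del s l)
      ≤ (2/(s:ℝ)) * ∑ l ∈ range (s+1), cc β s l * (Real.sinh (β * DD s l) * DD s l) := by
  obtain ⟨φ₀, h0, hφ⟩ := club_pt β hβ s
  have key : ∀ l ≤ s,
      Real.exp (-(β/2) * (DD s l)^2) * Real.sinh (β * DD s l) * (del s l - 2 * DD s l / s) ≤
        φ₀ * (DD s l * (del s l - 2 * DD s l / s)) := by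
    intro l hl
    rcases lt_trichotomy s (2 * l) with h1 | h1 | h1
    · exact hφ l hl h1
    · have h2 : DD s l = 0 := by
        unfold DD
        have : (s:ℝ) = 2 * l := by exact_mod_cast h1
        linarith
      rw [h2]
      simp
    · have h2 := hφ (s-l) (Nat.sub_le s l) (by omega)
      rw [club_DD_symm s l hl, club_del_symm s l hl] at h2
      have e1 : (-DD s l)^2 = (DD s l)^2 := by ring
      rw [e1, mul_neg, Real.sinh_neg] at h2
      calc _ = Real.exp (-(β/2) * (DD s l)^2) * -Real.sinh (β * DD s l) *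
            (-del s l - 2 * -DD s l / s) := by ring
        _ ≤ _ := h2
        _ = _ := by ring
  have h1 : ∑ l ∈ range (s+1), (s.choose l : ℝ) * (Real.exp (-(β/2) * (DD s l)^2) *
      Real.sinh (β * DD s l) * (del s l - 2 * DD s l / s)) ≤
      ∑ l ∈ range (s+1), φ₀ * ((s.choose l : ℝ) * (DD s l * (del s l - 2 * DD s l / s))) := by
    refine Finset.sum_le_sum fun l hl => ?_
    rw [Finset.mem_range] at hl
    have h2 := mul_le_mul_of_nonneg_left (key l (by omega)) (Nat.cast_nonneg (α := ℝ) (s.choose l))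
    calc _ ≤ _ := h2
      _ = _ := by ring
  rw [← Finset.mul_sum, club_total s hs] at h1
  have h2 : ∑ l ∈ range (s+1), cc β s l * (Real.sinh (β * DD s l) * del s l) -
      (2/(s:ℝ)) * ∑ l ∈ range (s+1), cc β s l * (Real.sinh (β * DD s l) * DD s l) =
      ∑ l ∈ range (s+1), (s.choose l : ℝ) * (Real.exp (-(β/2) * (DD s l)^2) *
        Real.sinh (β * DD s l) * (del s l - 2 * DD s l / s)) := by
    rw [Finset.mul_sum, ← Finset.sum_sub_distrib]
    refine Finset.sum_congr rfl fun l _ => ?_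
    unfold cc
    ring
  linarith

end H716SP
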