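import Mathlib
/-!
# MP_55179a_pr (speed of the soft polymer): basic definitions
(see `Overview.lean` / row 00 of the task table for the full written proof)
-/
set_option autoImplicit false
open Finset

namespace H716SP

/-- weight of a site with local time `m` -/
noncomputable def w (a β : ℝ) (m : ℕ) : ℝ := Real.exp (a * m - β * (m:ℝ)^2)

/-- transfer kernel `K(k,l) = C(k+l,l) w(k+l+1)` -/
noncomputable def K (a β : ℝ) (k l : ℕ) : ℝ := ((k+l).choose l : ℝ) * w a β (k+l+1)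

/-- the transfer operator (sum cut at `M`) -/
noncomputable def op (a β : ℝ) (M : ℕ) (h : ℕ → ℝ) (k : ℕ) : ℝ :=
  ∑ l ∈ range (M+1), K a β k l * h l

/-- log-concave nonnegative sequences (strong form: no internal zeros) -/
def LC (h : ℕ → ℝ) : Prop := (∀ k, 0 ≤ h k) ∧ ∀ i j, i ≤ j → h i * h (j+1) ≤ h (i+1) * h j

/-- expectation of `v l` when `l ≤ M` has law proportional to `K(k,l) h(l)` -/
noncomputable def Ex (a β : ℝ) (M : ℕ) (h v : ℕ → ℝ) (k : ℕ) : ℝ :=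
  (∑ l ∈ range (M+1), K a β k l * h l * v l) / op a β M h k

/-- `p = e^{2β} - 1` -/
noncomputable def pp (β : ℝ) : ℝ := Real.exp (2*β) - 1

/-- the slope bound `g(l) = 2 + 2/(p (l+1))` -/
noncomputable def gg (β : ℝ) (l : ℕ) : ℝ := 2 + 2 / (pp β * ((l:ℝ)+1))

/-- harmonic numbers -/
noncomputable def Hm (n : ℕ) : ℝ := ∑ i ∈ range n, 1/((i:ℝ)+1)

/-- `D = 2l - s` -/
noncomputable def DD (s l : ℕ) : ℝ := 2*(l:ℝ) - (s:ℝ)

/-- `δ(l) = H_l - H_{s-l}` -/
noncomputable def del (s l : ℕ) : ℝ := Hm l - Hm (s-l)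

/-- `v*(l) - v*(s-l) = 2(2l-s) + (2/p)(H_l - H_{s-l})` -/
noncomputable def dst (β : ℝ) (s l : ℕ) : ℝ := 2 * DD s l + (2 / pp β) * del s l

/-- `c(l) = C(s,l) e^{-(β/2)(2l-s)²}` -/
noncomputable def cc (β : ℝ) (s l : ℕ) : ℝ :=
  (s.choose l : ℝ) * Real.exp (-(β/2) * (DD s l)^2)

/-- `E(l) = e^{-(β/2)(2l-s+1)²}` -/
noncomputable def Ew (β : ℝ) (s l : ℕ) : ℝ := Real.exp (-(β/2) * (DD s l + 1)^2)

/-- `A(l) = C(k+1+l,l) C(k+s-l,s-l) e^{-(β/2)(2l-s+1)²}` -/
noncomputable def AA (β : ℝ) (k s l : ℕ) : ℝ :=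
  ((k+1+l).choose l : ℝ) * ((k+(s-l)).choose (s-l) : ℝ) * Ew β s l

/-- the iterates of the operator on `δ_0` -/
noncomputable def hN (a β : ℝ) (M : ℕ) : ℕ → ℕ → ℝ
  | 0 => fun k => if k = 0 then 1 else 0
  | (N+1) => op a β M (hN a β M N)

/-- the logarithmic derivatives: `∂_a log hN = vN - k` -/
noncomputable def vN (a β : ℝ) (M : ℕ) : ℕ → ℕ → ℝ
  | 0 => fun k => 2 * (k:ℝ)
  | (N+1) => fun k => 2 * (k:ℝ) + 1 + Ex a β M (hN a β M N) (vN a β M N) k

/-- moments `⟨δ_0, K^j δ_0⟩` -/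
noncomputable def mu (a β : ℝ) (M j : ℕ) : ℝ := hN a β M j 0

/-- ratios of even moments -/
noncomputable def rt (a β : ℝ) (M j : ℕ) : ℝ := mu a β M (2*j+2) / mu a β M (2*j)

/-- log of the norm of the cut operator -/
noncomputable def Lm (a β : ℝ) (M : ℕ) : ℝ := (1/2) * Real.log (⨆ j, rt a β M j)

/-- log of the norm of the operator -/
noncomputable def LL (a β : ℝ) : ℝ := ⨆ M, Lm a β M

/-- law of `n = i + j` at one site of a long bridge (unnormalised) -/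
noncomputable def qN (a β : ℝ) (M N n : ℕ) : ℝ :=
  ∑ i ∈ range (n+1), if i ≤ M ∧ n - i ≤ M then
    hN a β M N i * K a β i (n-i) * hN a β M (N+1) (n-i) else 0

/-- mean of the local time `T = n + 1` -/
noncomputable def m1N (a β : ℝ) (M N : ℕ) : ℝ :=
  (∑ n ∈ range (2*M+1), ((n:ℝ)+1) * qN a β M N n) / ∑ n ∈ range (2*M+1), qN a β M N n

/-- mean of the squared local time -/
noncomputable def m2N (a β : ℝ) (M N : ℕ) : ℝ :=
  (∑ n ∈ range (2*M+1), ((n:ℝ)+1)^2 * qN a β M N n) / ∑ n ∈ range (2*M+1), qN a β M N n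

/-- a bound for `h(l+1)/h(l)` -/
noncomputable def rb (a β : ℝ) : ℝ := Real.exp a / (2*β)

theorem w_pos (a β : ℝ) (m : ℕ) : 0 < w a β m := Real.exp_pos _

theorem K_pos (a β : ℝ) (k l : ℕ) : 0 < K a β k l :=
  mul_pos (by exact_mod_cast Nat.choose_pos (Nat.le_add_left l k)) (w_pos _ _ _)

theorem K_symm (a β : ℝ) (k l : ℕ) : K a β k l = K a β l k := by
  unfold K
  rw [Nat.add_comm l k, Nat.choose_symm_add]

theorem pp_pos {β : ℝ} (hβ : 0 < β) : 0 < pp β := by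
  unfold pp
  have : (1:ℝ) < Real.exp (2*β) := by
    rw [← Real.exp_zero]; exact Real.exp_lt_exp.mpr (by linarith)
  linarith

theorem gg_pos {β : ℝ} (hβ : 0 < β) (l : ℕ) : 0 < gg β l := by
  unfold gg
  have := pp_pos hβ
  positivity

theorem two_le_gg {β : ℝ} (hβ : 0 < β) (l : ℕ) : 2 ≤ gg β l := by
  unfold gg
  have := pp_pos hβ
  have h : 0 ≤ 2 / (pp β * ((l:ℝ)+1)) := by positivity
  linarith

/-- paths: sum over nearest-neighbour paths of length `n` from `s` to `p` staying in `[m,t]`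
of `F(local time field)` (the field counts the visits at times `0..n`) -/
noncomputable def W (m t s : ℤ) : ℕ → ℤ → ((ℤ → ℕ) → ENNReal) → ENNReal
  | 0, p, F => if p = s ∧ m ≤ s ∧ s ≤ t then F (Pi.single s 1) else 0
  | (n+1), p, F => if m ≤ p ∧ p ≤ t then
      W m t s n (p-1) (fun ℓ => F (ℓ + Pi.single p 1)) +
      W m t s n (p+1) (fun ℓ => F (ℓ + Pi.single p 1)) else 0

/-- sum over all path lengths -/
noncomputable def Wt (m t s p : ℤ) (F : (ℤ → ℕ) → ENNReal) : ENNReal := ∑' n : ℕ, W m t s n p F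

/-- product functional `f(ℓ_m) Π_{m<y≤t} u(ℓ_y)` -/
noncomputable def Ph (u : ℕ → ENNReal) (m t : ℤ) (f : ℕ → ENNReal) (ℓ : ℤ → ℕ) : ENNReal :=
  f (ℓ m) * ∏ y ∈ Finset.Ioc m t, u (ℓ y)

/-- `(𝒯 g)(ℓ) = Σ_c g(c) multichoose(ℓ,c) u(ℓ+c)` -/
noncomputable def TE (u g : ℕ → ENNReal) (l : ℕ) : ENNReal :=
  ∑' c : ℕ, g c * ((Nat.multichoose l c : ℕ) : ENNReal) * u (l + c)

/-- `(op g)(k) = Σ_c C(k+c,c) u(k+c+1) g(c)` in `[0,∞]` -/
noncomputable def opE (u g : ℕ → ENNReal) (k : ℕ) : ENNReal :=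
  ∑' c : ℕ, (((k+c).choose c : ℕ) : ENNReal) * u (k+c+1) * g c

/-- `δ_0` in `[0,∞]` -/
noncomputable def dE (k : ℕ) : ENNReal := if k = 0 then 1 else 0

/-- excursion functions of depth `≤ r` in `[0,∞]` -/
noncomputable def GE (u : ℕ → ENNReal) : ℕ → ℕ → ENNReal
  | 0 => dE
  | (r+1) => fun v => match v with
    | 0 => 1
    | (k+1) => opE u (GE u r) k

/-- excursion functions of depth `≤ r`, real cut version -/
noncomputable def Gr (a β : ℝ) (M : ℕ) : ℕ → ℕ → ℝ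
  | 0 => fun k => if k = 0 then 1 else 0
  | (r+1) => fun v => match v with
    | 0 => 1
    | (k+1) => op a β M (Gr a β M r) k

/-- weights in `[0,∞]` -/
noncomputable def wE (a β : ℝ) (m : ℕ) : ENNReal := ENNReal.ofReal (w a β m)

/-- weights in `[0,∞]` cut at `m ≤ M+1` -/
noncomputable def wEc (a β : ℝ) (M m : ℕ) : ENNReal := if m ≤ M+1 then ENNReal.ofReal (w a β m) else 0

/-- partial sums of a ±1 path -/
def Sp {n : ℕ} (ω : Fin n → Bool) (j : ℕ) : ℤ :=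
  ∑ i ∈ Finset.univ.filter (fun i : Fin n => (i:ℕ) < j), (if ω i then (1:ℤ) else -1)

/-- number of pairs of times with the same position (= Σ_x ℓ(x)²), as in the frozen statement -/
def pairs {n : ℕ} (ω : Fin n → Bool) : ℕ :=
  (Finset.univ.filter (fun p : Fin (n+1) × Fin (n+1) =>
                (∑ i ∈ Finset.univ.filter (fun i : Fin n => (i:ℕ) < (p.1:ℕ)),
                    (if ω i then (1:ℤ) else -1)) =
                (∑ i ∈ Finset.univ.filter (fun i : Fin n => (i:ℕ) < (p.2:ℕ)),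
                    (if ω i then (1:ℤ) else -1)))).card

/-- local time field of a ±1 path -/
def lt {n : ℕ} (ω : Fin n → Bool) (y : ℤ) : ℕ :=
  (Finset.univ.filter (fun j : Fin (n+1) => Sp ω (j:ℕ) = y)).card

/-- Boltzmann weight -/
noncomputable def bw (β : ℝ) {n : ℕ} (ω : Fin n → Bool) : ℝ := Real.exp (-β * ((pairs ω : ℕ) : ℝ))

/-- the ratio in the frozen statement -/
noncomputable def ratio (β θ0 ε : ℝ) (n : ℕ) : ℝ :=
  (∑ ω ∈ Finset.univ.filter (fun ω : Fin n → Bool =>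
      ε < |(|(∑ i : Fin n, (if ω i then (1:ℝ) else -1))| / (n:ℝ)) - θ0|), bw β ω) /
  (∑ ω : Fin n → Bool, bw β ω)

end H716SP
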