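import Pool.Agent.H716R3.SP.Iter
/-! Task T16: derivative in `a` and comparison of the iterates at `a ≤ a'`. -/
set_option autoImplicit false
open Finset
namespace H716SP

private theorem deriv_hN_pos (a β : ℝ) (M N : ℕ) :
    (∀ k, 0 ≤ hN a β M N k) ∧ 0 < hN a β M N 0 := by
  induction N with
  | zero =>
    refine ⟨fun k => ?_, ?_⟩
    · simp only [hN]
      split_ifs <;> norm_num
    · simp [hN]
  | succ N ih =>
    have h : ∀ k, 0 < hN a β M (N+1) k := fun k => op_pos a β M _ ih.1 ih.2 k
    exact ⟨fun k => (h k).le, h 0⟩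

private theorem deriv_hN_succ_pos (a β : ℝ) (M N k : ℕ) : 0 < hN a β M (N+1) k :=
  op_pos a β M _ (deriv_hN_pos a β M N).1 (deriv_hN_pos a β M N).2 k

private theorem deriv_K (a β : ℝ) (k l : ℕ) :
    HasDerivAt (fun x => K x β k l) (((k:ℝ) + l + 1) * K a β k l) a := by
  unfold K w
  have h1 : HasDerivAt (fun x : ℝ => x * ((k + l + 1 : ℕ) : ℝ) - β * ((k + l + 1 : ℕ) : ℝ)^2)
      ((k + l + 1 : ℕ) : ℝ) a := by
    have := ((hasDerivAt_id a).mul_const ((k + l + 1 : ℕ) : ℝ)).sub_const
      (β * ((k + l + 1 : ℕ) : ℝ)^2)
    simpa using this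
  have h2 := (h1.exp).const_mul (((k+l).choose l : ℕ) : ℝ)
  refine h2.congr_deriv ?_
  push_cast
  ring

/-- Proof: induction on `N`.  `∂_a K(k,l) = (k+l+1) K(k,l)`, so
`∂_a op h k = ∑ K(k,l) h(l) (k+l+1 + v(l) - l) = (k+1) op h k + op h k · Ex k = op h k (vN (N+1) k - k)`
(`op h k ≠ 0` by `op_pos`; no log-concavity needed here). -/
theorem hN_deriv (a β : ℝ) (M N k : ℕ) :
    HasDerivAt (fun x => hN x β M N k) (hN a β M N k * (vN a β M N k - k)) a := by
  induction N generalizing k with
  | zero =>
    simp only [hN, vN]
    have e : (if k = 0 then (1:ℝ) else 0) * (2 * (k:ℝ) - k) = 0 := by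
      split_ifs with h
      · rw [h]; simp
      · simp
    rw [e]
    exact hasDerivAt_const a _
  | succ N ih =>
    have hop : 0 < op a β M (hN a β M N) k := deriv_hN_succ_pos a β M N k
    have h1 : HasDerivAt (fun x => ∑ l ∈ range (M+1), K x β k l * hN x β M N l)
        (∑ l ∈ range (M+1), ((((k:ℝ) + l + 1) * K a β k l) * hN a β M N l +
          K a β k l * (hN a β M N l * (vN a β M N l - l)))) a := by
      have := HasDerivAt.fun_sum (u := range (M+1))
        (A := fun (l : ℕ) (x : ℝ) => K x β k l * hN x β M N l)
        (fun l _ => (deriv_K a β k l).mul (ih l))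
      exact this
    have e : (∑ l ∈ range (M+1), ((((k:ℝ) + l + 1) * K a β k l) * hN a β M N l +
          K a β k l * (hN a β M N l * (vN a β M N l - l)))) =
        hN a β M (N+1) k * (vN a β M (N+1) k - k) := by
      have e1 : hN a β M (N+1) k = op a β M (hN a β M N) k := rfl
      have e2 : vN a β M (N+1) k = 2 * (k:ℝ) + 1 + Ex a β M (hN a β M N) (vN a β M N) k := rfl
      rw [e1, e2]
      have e3 : op a β M (hN a β M N) k * (2 * (k:ℝ) + 1 + Ex a β M (hN a β M N) (vN a β M N) k - k) =
          (k + 1) * op a β M (hN a β M N) k +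
            ∑ l ∈ range (M+1), K a β k l * hN a β M N l * vN a β M N l := by
        unfold Ex
        field_simp
        ring
      rw [e3]
      unfold op
      rw [Finset.mul_sum, ← Finset.sum_add_distrib]
      refine Finset.sum_congr rfl fun l _ => ?_
      ring
    rw [e] at h1
    exact h1

private theorem deriv_log (a β : ℝ) (M N k : ℕ) :
    HasDerivAt (fun x => Real.log (hN x β M (N+1) k)) (vN a β M (N+1) k - k) a := by
  have h := (hN_deriv a β M (N+1) k).log (deriv_hN_succ_pos a β M N k).ne'
  have hp := (deriv_hN_succ_pos a β M N k).ne'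
  rwa [mul_div_cancel_left₀ _ hp] at h

/-- Proof: `N = 0`: both sides are `0` or...: `hN 0 (k+1) = 0`, so the left side is `0` and the right side is `≥ 0`.
`N ≥ 1`: `x ↦ log hN x (k+1) - log hN x k + x` has derivative `vN (k+1) - vN k ≥ 0` (`hN_props`), so it is monotone. -/
theorem hN_ratio_lower (a a' β : ℝ) (hβ : 0 < β) (haa : a ≤ a') (M N k : ℕ) :
    hN a' β M N k * hN a β M N (k+1) ≤ hN a' β M N (k+1) * hN a β M N k * Real.exp (a'-a) := by
  cases N with
  | zero => simp [hN]
  | succ N =>
    have hd : ∀ x, HasDerivAt (fun x => Real.log (hN x β M (N+1) (k+1)) -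
        Real.log (hN x β M (N+1) k) + x) (vN x β M (N+1) (k+1) - vN x β M (N+1) k) x := by
      intro x
      have := ((deriv_log x β M N (k+1)).fun_sub (deriv_log x β M N k)).fun_add (hasDerivAt_id' x)
      refine this.congr_deriv ?_
      push_cast
      ring
    have hm : Monotone (fun x => Real.log (hN x β M (N+1) (k+1)) -
        Real.log (hN x β M (N+1) k) + x) := by
      refine monotone_of_deriv_nonneg (fun x => (hd x).differentiableAt) fun x => ?_
      rw [(hd x).deriv]
      exact ((hN_props x β hβ M (N+1)).2.2.2 k).1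
    have h := hm haa
    simp only at h
    have p1 := deriv_hN_succ_pos a β M N k
    have p2 := deriv_hN_succ_pos a β M N (k+1)
    have p3 := deriv_hN_succ_pos a' β M N k
    have p4 := deriv_hN_succ_pos a' β M N (k+1)
    rw [← Real.log_le_log_iff (by positivity) (by positivity),
      Real.log_mul (by positivity) (by positivity), Real.log_mul (by positivity) (by positivity),
      Real.log_mul (by positivity) (by positivity), Real.log_exp]
    linarith

/-- Proof: same with `x ↦ log hN x (k+1) - log hN x k + x - x g(k)` antitone. -/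
theorem hN_ratio_upper (a a' β : ℝ) (hβ : 0 < β) (haa : a ≤ a') (M N k : ℕ) :
    hN a' β M N (k+1) * hN a β M N k * Real.exp (a'-a) ≤
      hN a' β M N k * hN a β M N (k+1) * Real.exp ((a'-a) * gg β k) := by
  cases N with
  | zero => simp [hN]
  | succ N =>
    have hd : ∀ x, HasDerivAt (fun x => Real.log (hN x β M (N+1) (k+1)) -
        Real.log (hN x β M (N+1) k) + x - x * gg β k)
        (vN x β M (N+1) (k+1) - vN x β M (N+1) k - gg β k) x := by
      intro x
      have := (((deriv_log x β M N (k+1)).fun_sub (deriv_log x β M N k)).fun_add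
        (hasDerivAt_id' x)).fun_sub ((hasDerivAt_id' x).mul_const (gg β k))
      refine this.congr_deriv ?_
      push_cast
      ring
    have hm : Antitone (fun x => Real.log (hN x β M (N+1) (k+1)) -
        Real.log (hN x β M (N+1) k) + x - x * gg β k) := by
      refine antitone_of_deriv_nonpos (fun x => (hd x).differentiableAt) fun x => ?_
      rw [(hd x).deriv]
      have := ((hN_props x β hβ M (N+1)).2.2.2 k).2
      linarith
    have h := hm haa
    simp only at h
    have p1 := deriv_hN_succ_pos a β M N k
    have p2 := deriv_hN_succ_pos a β M N (k+1)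
    have p3 := deriv_hN_succ_pos a' β M N k
    have p4 := deriv_hN_succ_pos a' β M N (k+1)
    rw [← Real.log_le_log_iff (by positivity) (by positivity),
      Real.log_mul (by positivity) (by positivity), Real.log_mul (by positivity) (by positivity),
      Real.log_mul (by positivity) (by positivity), Real.log_mul (by positivity) (by positivity),
      Real.log_exp, Real.log_exp]
    linarith

end H716SP
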