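import Pool.Agent.H716R3.SP.Defs
/-! Task T17: Efron's inequality (univariate). -/
set_option autoImplicit false
open Finset
namespace H716SP

/-- Proof: the difference RHS - LHS is
`∑_{i≤n} ∑_{i'≤n+1} u(i) u(i') u'(n-i) u'(n+1-i') (φ(i') - φ(i))`.  The terms with `i' = n+1` are `≥ 0`.  The others,
antisymmetrised: for `i < i'`: `u(i)u(i')(φ(i')-φ(i)) [u'(n-i)u'(n+1-i') - u'(n-i')u'(n+1-i)] ≥ 0` by log-concavity with
`A = n-i' ≤ B = n-i`: `u'(A)u'(B+1) ≤ u'(A+1)u'(B)`. -/
theorem efron (u u' φ : ℕ → ℝ) (hu : ∀ k, 0 ≤ u k) (hu' : LC u') (hφ : Monotone φ) (n : ℕ) :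
    (∑ i ∈ range (n+1), u i * u' (n-i) * φ i) * (∑ i ∈ range (n+2), u i * u' (n+1-i)) ≤
      (∑ i ∈ range (n+2), u i * u' (n+1-i) * φ i) * (∑ i ∈ range (n+1), u i * u' (n-i)) := by
  obtain ⟨hu0, hlc⟩ := hu'
  rw [Finset.sum_range_succ (fun i => u i * u' (n+1-i)) (n+1),
    Finset.sum_range_succ (fun i => u i * u' (n+1-i) * φ i) (n+1)]
  have hlast : (∑ i ∈ range (n+1), u i * u' (n-i) * φ i) * (u (n+1) * u' (n+1-(n+1))) ≤
      (u (n+1) * u' (n+1-(n+1)) * φ (n+1)) * (∑ i ∈ range (n+1), u i * u' (n-i)) := by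
    rw [Finset.sum_mul, Finset.mul_sum]
    apply Finset.sum_le_sum
    intro i hi
    have hin : i ≤ n + 1 := (Finset.mem_range.mp hi).le
    have h1 := hφ hin
    have h2 : 0 ≤ u i * u' (n-i) * (u (n+1) * u' (n+1-(n+1))) :=
      mul_nonneg (mul_nonneg (hu _) (hu0 _)) (mul_nonneg (hu _) (hu0 _))
    nlinarith [mul_nonneg h2 (sub_nonneg.mpr h1)]
  have hmain : (∑ i ∈ range (n+1), u i * u' (n-i) * φ i) * (∑ i ∈ range (n+1), u i * u' (n+1-i)) ≤
      (∑ i ∈ range (n+1), u i * u' (n+1-i) * φ i) * (∑ i ∈ range (n+1), u i * u' (n-i)) := by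
    have e1 : (∑ i ∈ range (n+1), u i * u' (n+1-i) * φ i) * (∑ i ∈ range (n+1), u i * u' (n-i)) -
        (∑ i ∈ range (n+1), u i * u' (n-i) * φ i) * (∑ i ∈ range (n+1), u i * u' (n+1-i)) =
        ∑ i ∈ range (n+1), ∑ j ∈ range (n+1),
          u i * u j * (u' (n-i) * u' (n+1-j)) * (φ j - φ i) := by
      rw [mul_comm (∑ i ∈ range (n+1), u i * u' (n+1-i) * φ i), Finset.sum_mul_sum,
        Finset.sum_mul_sum, ← Finset.sum_sub_distrib]
      apply Finset.sum_congr rfl
      intro i _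
      rw [← Finset.sum_sub_distrib]
      apply Finset.sum_congr rfl
      intro j _
      ring
    have e2 : ∑ i ∈ range (n+1), ∑ j ∈ range (n+1),
          u i * u j * (u' (n-i) * u' (n+1-j)) * (φ j - φ i) =
        ∑ i ∈ range (n+1), ∑ j ∈ range (n+1),
          u j * u i * (u' (n-j) * u' (n+1-i)) * (φ i - φ j) := by
      rw [Finset.sum_comm]
    have e3 : 0 ≤ (∑ i ∈ range (n+1), ∑ j ∈ range (n+1),
          u i * u j * (u' (n-i) * u' (n+1-j)) * (φ j - φ i)) +
        ∑ i ∈ range (n+1), ∑ j ∈ range (n+1),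
          u j * u i * (u' (n-j) * u' (n+1-i)) * (φ i - φ j) := by
      rw [← Finset.sum_add_distrib]
      apply Finset.sum_nonneg
      intro i hi
      rw [← Finset.sum_add_distrib]
      apply Finset.sum_nonneg
      intro j hj
      have hi' : i ≤ n := Nat.lt_succ_iff.mp (Finset.mem_range.mp hi)
      have hj' : j ≤ n := Nat.lt_succ_iff.mp (Finset.mem_range.mp hj)
      have hij : 0 ≤ u i * u j := mul_nonneg (hu _) (hu _)
      have key : 0 ≤ (u' (n-i) * u' (n+1-j) - u' (n-j) * u' (n+1-i)) * (φ j - φ i) := by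
        rcases le_total i j with h | h
        · have h1 := hlc (n-j) (n-i) (by omega)
          have h2 := hφ h
          rw [show n - i + 1 = n + 1 - i by omega, show n - j + 1 = n + 1 - j by omega] at h1
          apply mul_nonneg
          · linarith [mul_comm (u' (n+1-j)) (u' (n-i))]
          · linarith
        · have h1 := hlc (n-i) (n-j) (by omega)
          have h2 := hφ h
          rw [show n - i + 1 = n + 1 - i by omega, show n - j + 1 = n + 1 - j by omega] at h1
          apply mul_nonneg_of_nonpos_of_nonpos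
          · linarith [mul_comm (u' (n+1-i)) (u' (n-j))]
          · linarith
      nlinarith [mul_nonneg hij key]
    linarith
  nlinarith [hlast, hmain]

/-- mirrored version (`i ↦ n - i`) -/
theorem efron' (u u' φ : ℕ → ℝ) (hu : LC u) (hu' : ∀ k, 0 ≤ u' k) (hφ : Monotone φ) (n : ℕ) :
    (∑ i ∈ range (n+1), u i * u' (n-i) * φ (n-i)) * (∑ i ∈ range (n+2), u i * u' (n+1-i)) ≤
      (∑ i ∈ range (n+2), u i * u' (n+1-i) * φ (n+1-i)) * (∑ i ∈ range (n+1), u i * u' (n-i)) := by
  have h := efron u' u φ hu' hu hφ n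
  have r1 : ∑ i ∈ range (n+1), u' i * u (n-i) * φ i = ∑ i ∈ range (n+1), u i * u' (n-i) * φ (n-i) := by
    rw [← Finset.sum_range_reflect]
    apply Finset.sum_congr rfl
    intro i hi
    have hi' : i ≤ n := Nat.lt_succ_iff.mp (Finset.mem_range.mp hi)
    rw [show n + 1 - 1 - i = n - i by omega, show n - (n - i) = i by omega]
    ring
  have r2 : ∑ i ∈ range (n+2), u' i * u (n+1-i) = ∑ i ∈ range (n+2), u i * u' (n+1-i) := by
    rw [← Finset.sum_range_reflect]
    apply Finset.sum_congr rfl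
    intro i hi
    have hi' : i ≤ n + 1 := Nat.lt_succ_iff.mp (Finset.mem_range.mp hi)
    rw [show n + 2 - 1 - i = n + 1 - i by omega, show n + 1 - (n + 1 - i) = i by omega]
    ring
  have r3 : ∑ i ∈ range (n+2), u' i * u (n+1-i) * φ i =
      ∑ i ∈ range (n+2), u i * u' (n+1-i) * φ (n+1-i) := by
    rw [← Finset.sum_range_reflect]
    apply Finset.sum_congr rfl
    intro i hi
    have hi' : i ≤ n + 1 := Nat.lt_succ_iff.mp (Finset.mem_range.mp hi)
    rw [show n + 2 - 1 - i = n + 1 - i by omega, show n + 1 - (n + 1 - i) = i by omega]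
    ring
  have r4 : ∑ i ∈ range (n+1), u' i * u (n-i) = ∑ i ∈ range (n+1), u i * u' (n-i) := by
    rw [← Finset.sum_range_reflect]
    apply Finset.sum_congr rfl
    intro i hi
    have hi' : i ≤ n := Nat.lt_succ_iff.mp (Finset.mem_range.mp hi)
    rw [show n + 1 - 1 - i = n - i by omega, show n - (n - i) = i by omega]
    ring
  rw [r1, r2, r3, r4] at h
  exact h

end H716SP
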