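import Pool.Agent.H716R3.SP.Defs
/-! Task T19: moments. -/
set_option autoImplicit false
open Finset
namespace H716SP

theorem hN_nonneg (a β : ℝ) (M N k : ℕ) : 0 ≤ hN a β M N k := by
  induction N generalizing k with
  | zero => simp only [hN]; split_ifs <;> norm_num
  | succ N ih =>
    simp only [hN, op]
    exact Finset.sum_nonneg (fun l _ => mul_nonneg (K_pos a β k l).le (ih l))

private theorem mom_op_pos (a β : ℝ) (M N k : ℕ) (h0 : 0 < hN a β M N 0) :
    0 < op a β M (hN a β M N) k := by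
  unfold op
  apply Finset.sum_pos' (fun l _ => mul_nonneg (K_pos a β k l).le (hN_nonneg a β M N l))
  exact ⟨0, by simp, mul_pos (K_pos a β k 0) h0⟩

theorem hN_zero_pos (a β : ℝ) (M N : ℕ) : 0 < hN a β M N 0 := by
  induction N with
  | zero => simp [hN]
  | succ N ih => exact mom_op_pos a β M N 0 ih

theorem hN_succ_pos (a β : ℝ) (M N k : ℕ) : 0 < hN a β M (N+1) k :=
  mom_op_pos a β M N k (hN_zero_pos a β M N)

theorem mu_pos (a β : ℝ) (M j : ℕ) : 0 < mu a β M j := hN_zero_pos a β M j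

/-- symmetry of the operator -/
theorem op_symm (a β : ℝ) (M : ℕ) (f g : ℕ → ℝ) :
    ∑ k ∈ range (M+1), op a β M f k * g k = ∑ k ∈ range (M+1), f k * op a β M g k := by
  simp only [op, Finset.sum_mul, Finset.mul_sum]
  rw [Finset.sum_comm]
  refine Finset.sum_congr rfl (fun k _ => Finset.sum_congr rfl (fun l _ => ?_))
  rw [K_symm a β l k]; ring

/-- Proof: induction on `i` with `op_symm` (`∑_k δ_0(k) hN j k = hN j 0`). -/
theorem hN_inner (a β : ℝ) (M i j : ℕ) :
    ∑ k ∈ range (M+1), hN a β M i k * hN a β M j k = mu a β M (i+j) := by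
  induction i generalizing j with
  | zero =>
    simp only [hN, ite_mul, one_mul, zero_mul, Nat.zero_add, mu]
    rw [Finset.sum_ite_eq' (range (M+1)) 0 (fun k => hN a β M j k)]
    simp
  | succ i ih =>
    have h1 := op_symm a β M (hN a β M i) (hN a β M j)
    have h2 := ih (j+1)
    simp only [hN] at h2 ⊢
    rw [h1, h2]
    congr 1; omega

private theorem mom_regroup (M : ℕ) (F : ℕ → ℕ → ℝ) :
    ∑ n ∈ range (2*M+1), ∑ i ∈ range (n+1), (if i ≤ M ∧ n - i ≤ M then F i (n-i) else 0) =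
      ∑ i ∈ range (M+1), ∑ j ∈ range (M+1), F i j := by
  rw [← Finset.sum_product']
  rw [← Finset.sum_fiberwise_of_maps_to (s := range (M+1) ×ˢ range (M+1)) (t := range (2*M+1))
    (g := fun p : ℕ × ℕ => p.1 + p.2) (by
      intro p hp
      simp only [mem_product, mem_range] at hp ⊢
      omega)]
  refine Finset.sum_congr rfl (fun n _ => ?_)
  rw [← Finset.sum_filter]
  refine Finset.sum_nbij' (fun i => (i, n - i)) (fun p => p.1) ?_ ?_ ?_ ?_ ?_
  · intro i hi
    simp only [mem_filter, mem_product, mem_range] at hi ⊢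
    omega
  · intro p hp
    simp only [mem_filter, mem_product, mem_range] at hp ⊢
    omega
  · intro i _; rfl
  · rintro ⟨i, j⟩ hp
    simp only [mem_filter, mem_product, mem_range] at hp
    simp only [Prod.mk.injEq, true_and]
    omega
  · intro i _; rfl

/-- general form of the regrouping: `∑_n Φ(n) qN n = ∑_{i,j≤M} hN N i K i j hN (N+1) j Φ(i+j)` -/
private theorem mom_qN_sum (a β : ℝ) (M N : ℕ) (Φ : ℕ → ℝ) :
    ∑ n ∈ range (2*M+1), Φ n * qN a β M N n =
      ∑ i ∈ range (M+1), ∑ j ∈ range (M+1), hN a β M N i * K a β i j * hN a β M (N+1) j * Φ (i+j) := by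
  rw [← mom_regroup M (fun i j => hN a β M N i * K a β i j * hN a β M (N+1) j * Φ (i+j))]
  refine Finset.sum_congr rfl (fun n _ => ?_)
  unfold qN
  rw [Finset.mul_sum]
  refine Finset.sum_congr rfl (fun i hi => ?_)
  rw [mem_range] at hi
  split_ifs with h
  · have : i + (n - i) = n := by omega
    rw [this]; ring
  · ring

/-- `∑_n qN n = ∑_{i,j≤M} hN N i K i j hN (N+1) j = ∑_i hN N i hN (N+2) i = mu (2N+2)` -/
theorem qN_total (a β : ℝ) (M N : ℕ) :
    ∑ n ∈ range (2*M+1), qN a β M N n = mu a β M (2*N+2) := by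
  have h1 := mom_qN_sum a β M N (fun _ => 1)
  simp only [one_mul, mul_one] at h1
  rw [h1]
  have h2 := hN_inner a β M N (N+2)
  have h3 : N + (N+2) = 2*N+2 := by ring
  rw [h3] at h2
  rw [← h2]
  refine Finset.sum_congr rfl (fun i _ => ?_)
  show _ = hN a β M N i * op a β M (hN a β M (N+1)) i
  unfold op
  rw [Finset.mul_sum]
  exact Finset.sum_congr rfl (fun j _ => by ring)

/-- general form of the regrouping: `∑_n Φ(n) qN n = ∑_{i,j≤M} hN N i K i j hN (N+1) j Φ(i+j)` -/
theorem qN_sum (a β : ℝ) (M N : ℕ) (Φ : ℕ → ℝ) :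
    ∑ n ∈ range (2*M+1), Φ n * qN a β M N n =
      ∑ i ∈ range (M+1), ∑ j ∈ range (M+1), hN a β M N i * K a β i j * hN a β M (N+1) j * Φ (i+j) :=
  mom_qN_sum a β M N Φ

/-- Cauchy–Schwarz: `mu (2j+2)² = ⟨h_j, h_{j+2}⟩² ≤ mu (2j) mu (2j+4)`. -/
theorem rt_mono (a β : ℝ) (M : ℕ) : Monotone (rt a β M) := by
  apply monotone_nat_of_le_succ
  intro j
  unfold rt
  rw [div_le_div_iff₀ (mu_pos _ _ _ _) (mu_pos _ _ _ _)]
  have h := Finset.sum_mul_sq_le_sq_mul_sq (range (M+1)) (hN a β M j) (hN a β M (j+2))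
  simp only [sq] at h
  rw [hN_inner, hN_inner, hN_inner] at h
  have e1 : j + (j+2) = 2*j+2 := by ring
  have e2 : j + j = 2*j := by ring
  have e3 : (j+2) + (j+2) = 2*(j+1)+2 := by ring
  have e4 : 2*(j+1) = 2*j+2 := by ring
  rw [e1, e2, e3] at h
  rw [e4] at h ⊢
  linarith

end H716SP
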