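import Pool.Agent.H716R3.SP.Iter
import Pool.Agent.H716R3.SP.Mom
/-! Task T20: uniform bounds on the iterates. -/
set_option autoImplicit false
open Finset
namespace H716SP

theorem momb_rb_pos (a β : ℝ) (hβ : 0 < β) : 0 < rb a β := by
  unfold rb
  positivity

theorem momb_K0 (a β : ℝ) (l : ℕ) : K a β 0 l = w a β (l+1) := by
  unfold K
  rw [Nat.zero_add, Nat.choose_self, Nat.cast_one, one_mul]

/-- the kernel at `1` -/
theorem momb_K1 (a β : ℝ) (hβ : 0 < β) (l : ℕ) : K a β 1 l ≤ rb a β * K a β 0 l := by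
  rw [momb_K0]
  unfold K w rb
  have h1 : ((1 + l).choose l : ℝ) = (l:ℝ) + 1 := by
    rw [Nat.add_comm 1 l, Nat.choose_succ_self_right]
    push_cast
    ring
  rw [h1]
  have h2 : Real.exp (a * ((1 + l + 1 : ℕ) : ℝ) - β * ((1 + l + 1 : ℕ) : ℝ) ^ 2) =
      Real.exp a * Real.exp (-(β * (2 * (l:ℝ) + 3))) *
        Real.exp (a * ((l + 1 : ℕ) : ℝ) - β * ((l + 1 : ℕ) : ℝ) ^ 2) := by
    rw [← Real.exp_add, ← Real.exp_add]
    congr 1
    push_cast
    ring
  rw [h2]
  have h3 : ((l:ℝ) + 1) * Real.exp (-(β * (2 * (l:ℝ) + 3))) ≤ 1 / (2 * β) := by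
    have h4 : β * (2 * (l:ℝ) + 3) + 1 ≤ Real.exp (β * (2 * (l:ℝ) + 3)) := Real.add_one_le_exp _
    rw [Real.exp_neg, ← div_eq_mul_inv, div_le_div_iff₀ (Real.exp_pos _) (by positivity)]
    nlinarith
  have h5 := Real.exp_pos a
  have h6 := Real.exp_pos (a * ((l + 1 : ℕ) : ℝ) - β * ((l + 1 : ℕ) : ℝ) ^ 2)
  calc ((l:ℝ) + 1) * (Real.exp a * Real.exp (-(β * (2 * (l:ℝ) + 3))) *
        Real.exp (a * ((l + 1 : ℕ) : ℝ) - β * ((l + 1 : ℕ) : ℝ) ^ 2))
      = (((l:ℝ) + 1) * Real.exp (-(β * (2 * (l:ℝ) + 3)))) * (Real.exp a *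
        Real.exp (a * ((l + 1 : ℕ) : ℝ) - β * ((l + 1 : ℕ) : ℝ) ^ 2)) := by ring
    _ ≤ (1 / (2 * β)) * (Real.exp a *
        Real.exp (a * ((l + 1 : ℕ) : ℝ) - β * ((l + 1 : ℕ) : ℝ) ^ 2)) :=
        mul_le_mul_of_nonneg_right h3 (by positivity)
    _ = _ := by ring

/-- `hN(1) ≤ rb · hN(0)`: for `N ≥ 1`, `K(1,l) = (l+1) e^{a - β(2l+3)} K(0,l) ≤ rb K(0,l)` as
`(l+1) e^{-β(2l+3)} ≤ (l+1)e^{-2β(l+1)} ≤ 1/(2β)` (`e^x ≥ x`).  Then log-concavity (`hN_props`) gives
`hN(l+1)/hN(l) ≤ hN(1)/hN(0) ≤ rb`; induct on `l`. -/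
theorem hN_bd (a β : ℝ) (hβ : 0 < β) (M N l : ℕ) :
    hN a β M N l ≤ hN a β M N 0 * (rb a β)^l := by
  have hrb := momb_rb_pos a β hβ
  cases N with
  | zero =>
    simp only [hN, if_true, one_mul]
    split_ifs with h
    · rw [h, pow_zero]
    · positivity
  | succ N =>
    have h1 : hN a β M (N+1) 1 ≤ rb a β * hN a β M (N+1) 0 := by
      simp only [hN, op]
      rw [Finset.mul_sum]
      apply Finset.sum_le_sum
      intro l _
      rw [← mul_assoc]
      exact mul_le_mul_of_nonneg_right (momb_K1 a β hβ l) (hN_nonneg a β M N l)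
    obtain ⟨⟨hnn, hlc⟩, h0, -⟩ := hN_props a β hβ M (N+1)
    induction l with
    | zero => simp
    | succ l ih =>
      have h2 := hlc 0 l (Nat.zero_le _)
      rw [Nat.zero_add] at h2
      have h3 : hN a β M (N+1) 0 * hN a β M (N+1) (l+1) ≤
          hN a β M (N+1) 0 * (hN a β M (N+1) 0 * (rb a β)^(l+1)) := by
        calc hN a β M (N+1) 0 * hN a β M (N+1) (l+1) ≤ hN a β M (N+1) 1 * hN a β M (N+1) l := h2
          _ ≤ (rb a β * hN a β M (N+1) 0) * (hN a β M (N+1) 0 * (rb a β)^l) :=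
            mul_le_mul h1 ih (hnn l) (by positivity)
          _ = _ := by ring
      exact le_of_mul_le_mul_left h3 h0

/-- a bound for `mu (j+1)/mu j`, uniform in `j` and `M` -/
noncomputable def Bd (a β : ℝ) : ℝ := ∑' l : ℕ, w a β (l+1) * (rb a β)^l

/-- Gaussian terms are dominated by geometric ones -/
theorem momb_gauss (A β : ℝ) (hβ : 0 < β) (n : ℕ) :
    Real.exp (A * n - β * (n:ℝ)^2) ≤ Real.exp ((A+1)^2 / (4*β)) * Real.exp (-(n:ℝ)) := by
  rw [← Real.exp_add]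
  apply Real.exp_le_exp.mpr
  have h : (A + 1) * n - β * (n:ℝ)^2 ≤ (A+1)^2 / (4*β) := by
    rw [le_div_iff₀ (by positivity)]
    nlinarith [sq_nonneg (2 * β * (n:ℝ) - (A + 1))]
  linarith

theorem Bd_summable (a β : ℝ) (hβ : 0 < β) : Summable (fun l : ℕ => w a β (l+1) * (rb a β)^l) := by
  have hrb := momb_rb_pos a β hβ
  obtain ⟨R, hR⟩ : ∃ R : ℝ, R = max 1 (rb a β) := ⟨_, rfl⟩
  have hR1 : 1 ≤ R := by rw [hR]; exact le_max_left _ _
  have hR2 : rb a β ≤ R := by rw [hR]; exact le_max_right _ _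
  have hR0 : 0 < R := by linarith
  refine Summable.of_nonneg_of_le (fun l => mul_nonneg (w_pos _ _ _).le (by positivity))
    (fun l => ?_) ((Real.summable_exp_neg_nat.mul_left
      (Real.exp ((a + Real.log R +1)^2 / (4*β)))))
  have h1 : (rb a β)^l ≤ Real.exp (Real.log R * ((l + 1 : ℕ) : ℝ)) := by
    rw [mul_comm, Real.exp_nat_mul, Real.exp_log hR0]
    calc (rb a β)^l ≤ R^l := pow_le_pow_left₀ hrb.le hR2 l
      _ ≤ R^(l+1) := pow_le_pow_right₀ hR1 (Nat.le_succ l)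
  calc w a β (l+1) * (rb a β)^l
      ≤ w a β (l+1) * Real.exp (Real.log R * ((l + 1 : ℕ) : ℝ)) :=
        mul_le_mul_of_nonneg_left h1 (w_pos _ _ _).le
    _ = Real.exp ((a + Real.log R) * ((l+1 : ℕ) : ℝ) - β * ((l+1 : ℕ) : ℝ)^2) := by
        unfold w
        rw [← Real.exp_add]
        congr 1
        ring
    _ ≤ Real.exp ((a + Real.log R +1)^2 / (4*β)) * Real.exp (-((l+1 : ℕ) : ℝ)) :=
        momb_gauss _ β hβ (l+1)
    _ ≤ Real.exp ((a + Real.log R +1)^2 / (4*β)) * Real.exp (-(l : ℝ)) := by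
        apply mul_le_mul_of_nonneg_left _ (Real.exp_pos _).le
        apply Real.exp_le_exp.mpr
        push_cast
        linarith

theorem Bd_pos (a β : ℝ) (hβ : 0 < β) : 0 < Bd a β := by
  have hrb := momb_rb_pos a β hβ
  unfold Bd
  apply (Bd_summable a β hβ).tsum_pos (fun l => mul_nonneg (w_pos _ _ _).le (by positivity)) 0
  exact mul_pos (w_pos _ _ _) (by positivity)

/-- Proof: `mu (j+1) = ∑_{l≤M} K(0,l) hN j l ≤ hN j 0 ∑_l w(l+1) rb^l`. -/
theorem mu_step (a β : ℝ) (hβ : 0 < β) (M j : ℕ) : mu a β M (j+1) ≤ Bd a β * mu a β M j := by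
  have hrb := momb_rb_pos a β hβ
  have h0 := hN_zero_pos a β M j
  unfold mu
  rw [hN]
  unfold op
  calc ∑ l ∈ range (M+1), K a β 0 l * hN a β M j l
      ≤ ∑ l ∈ range (M+1), (w a β (l+1) * (rb a β)^l) * hN a β M j 0 := by
        apply Finset.sum_le_sum
        intro l _
        rw [momb_K0]
        calc w a β (l+1) * hN a β M j l ≤ w a β (l+1) * (hN a β M j 0 * (rb a β)^l) :=
              mul_le_mul_of_nonneg_left (hN_bd a β hβ M j l) (w_pos _ _ _).le
          _ = _ := by ring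
    _ = (∑ l ∈ range (M+1), w a β (l+1) * (rb a β)^l) * hN a β M j 0 := by
        rw [Finset.sum_mul]
    _ ≤ Bd a β * hN a β M j 0 := by
        apply mul_le_mul_of_nonneg_right _ h0.le
        exact (Bd_summable a β hβ).sum_le_tsum _
          (fun l _ => mul_nonneg (w_pos _ _ _).le (by positivity))

theorem rt_le (a β : ℝ) (hβ : 0 < β) (M j : ℕ) : rt a β M j ≤ (Bd a β)^2 := by
  unfold rt
  rw [div_le_iff₀ (mu_pos _ _ _ _)]
  have h1 := mu_step a β hβ M (2*j+1)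
  have h2 := mu_step a β hβ M (2*j)
  have h3 := Bd_pos a β hβ
  calc mu a β M (2*j+2) ≤ Bd a β * mu a β M (2*j+1) := h1
    _ ≤ Bd a β * (Bd a β * mu a β M (2*j)) := mul_le_mul_of_nonneg_left h2 h3.le
    _ = _ := by ring

theorem rt_bdd (a β : ℝ) (hβ : 0 < β) (M : ℕ) : BddAbove (Set.range (rt a β M)) := by
  refine ⟨(Bd a β)^2, ?_⟩
  rintro _ ⟨j, rfl⟩
  exact rt_le a β hβ M j

/-- uniform bound of Gaussian double sums -/
theorem momb_double (A β : ℝ) (hβ : 0 < β) : ∃ C : ℝ, 0 < C ∧ ∀ M : ℕ,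
    ∑ i ∈ range (M+1), ∑ j ∈ range (M+1),
      Real.exp (A * ((i+j+1 : ℕ) : ℝ) - β * ((i+j+1 : ℕ) : ℝ)^2) ≤ C := by
  obtain ⟨S, hS⟩ : ∃ S : ℝ, S = ∑' n : ℕ, Real.exp (-(n:ℝ)) := ⟨_, rfl⟩
  have hsum : ∀ M : ℕ, ∑ i ∈ range (M+1), Real.exp (-(i:ℝ)) ≤ S := by
    intro M
    rw [hS]
    exact Real.summable_exp_neg_nat.sum_le_tsum _ (fun _ _ => (Real.exp_pos _).le)
  have hS0 : 0 < S := by
    have := hsum 0
    simp only [zero_add, range_one, sum_singleton, Nat.cast_zero, neg_zero, Real.exp_zero] at this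
    linarith
  refine ⟨Real.exp ((A+1)^2 / (4*β)) * (S * S), by positivity, fun M => ?_⟩
  calc ∑ i ∈ range (M+1), ∑ j ∈ range (M+1),
        Real.exp (A * ((i+j+1 : ℕ) : ℝ) - β * ((i+j+1 : ℕ) : ℝ)^2)
      ≤ ∑ i ∈ range (M+1), ∑ j ∈ range (M+1),
        Real.exp ((A+1)^2 / (4*β)) * (Real.exp (-(i:ℝ)) * Real.exp (-(j:ℝ))) := by
        apply Finset.sum_le_sum
        intro i _
        apply Finset.sum_le_sum
        intro j _
        refine (momb_gauss A β hβ (i+j+1)).trans ?_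
        apply mul_le_mul_of_nonneg_left _ (Real.exp_pos _).le
        rw [← Real.exp_add]
        apply Real.exp_le_exp.mpr
        push_cast
        linarith
    _ = Real.exp ((A+1)^2 / (4*β)) *
        ((∑ i ∈ range (M+1), Real.exp (-(i:ℝ))) * ∑ j ∈ range (M+1), Real.exp (-(j:ℝ))) := by
        rw [Finset.sum_mul_sum]
        simp only [Finset.mul_sum]
    _ ≤ Real.exp ((A+1)^2 / (4*β)) * (S * S) := by
        apply mul_le_mul_of_nonneg_left _ (Real.exp_pos _).le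
        apply mul_le_mul (hsum M) (hsum M) _ hS0.le
        exact Finset.sum_nonneg fun _ _ => (Real.exp_pos _).le

/-- bound for the kernel with powers -/
theorem momb_K_le (a A β R : ℝ) (ha : a ≤ A) (hR : 1 ≤ R) (i j n : ℕ) (hn : n ≤ i + j + 1) :
    K a β i j * R ^ n ≤
      Real.exp ((A + Real.log R + Real.log 2) * ((i+j+1 : ℕ) : ℝ) - β * ((i+j+1 : ℕ) : ℝ)^2) := by
  have hR0 : 0 < R := by linarith
  have h1 : ((i+j).choose j : ℝ) ≤ Real.exp (Real.log 2 * ((i+j+1 : ℕ) : ℝ)) := by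
    rw [mul_comm, Real.exp_nat_mul, Real.exp_log (by norm_num)]
    have h2 : (i+j).choose j ≤ 2^(i+j) := Nat.choose_le_two_pow _ _
    calc ((i+j).choose j : ℝ) ≤ ((2^(i+j) : ℕ) : ℝ) := by exact_mod_cast h2
      _ = 2^(i+j) := by push_cast; rfl
      _ ≤ 2^(i+j+1) := pow_le_pow_right₀ (by norm_num) (Nat.le_succ _)
  have h2 : R ^ n ≤ Real.exp (Real.log R * ((i+j+1 : ℕ) : ℝ)) := by
    rw [mul_comm, Real.exp_nat_mul, Real.exp_log hR0]
    exact pow_le_pow_right₀ hR hn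
  have h3 : w a β (i+j+1) ≤ Real.exp (A * ((i+j+1 : ℕ) : ℝ) - β * ((i+j+1 : ℕ) : ℝ)^2) := by
    unfold w
    apply Real.exp_le_exp.mpr
    have : a * ((i+j+1 : ℕ) : ℝ) ≤ A * ((i+j+1 : ℕ) : ℝ) :=
      mul_le_mul_of_nonneg_right ha (Nat.cast_nonneg _)
    linarith
  unfold K
  calc ((i+j).choose j : ℝ) * w a β (i+j+1) * R ^ n
      ≤ (Real.exp (Real.log 2 * ((i+j+1 : ℕ) : ℝ)) *
          Real.exp (A * ((i+j+1 : ℕ) : ℝ) - β * ((i+j+1 : ℕ) : ℝ)^2)) *
          Real.exp (Real.log R * ((i+j+1 : ℕ) : ℝ)) := by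
        apply mul_le_mul _ h2 (by positivity) (by positivity)
        exact mul_le_mul h1 h3 (w_pos _ _ _).le (Real.exp_pos _).le
    _ = _ := by
        rw [← Real.exp_add, ← Real.exp_add]
        congr 1
        ring

/-- ℓ¹ norm of the iterates: `∑_{k≤M} hN (N+1) k ≤ hN N 0 · ∑_{k,l} K(k,l) rb^l`, uniformly in `M, N`
(`K(k,l) ≤ 2^{k+l} w(k+l+1)`, summable). -/
theorem hN_l1 (a β : ℝ) (hβ : 0 < β) :
    ∃ C : ℝ, 0 < C ∧ ∀ M N, ∑ k ∈ range (M+1), hN a β M (N+1) k ≤ C * mu a β M N := by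
  have hrb := momb_rb_pos a β hβ
  obtain ⟨R, hR⟩ : ∃ R : ℝ, R = max 1 (rb a β) := ⟨_, rfl⟩
  have hR1 : 1 ≤ R := by rw [hR]; exact le_max_left _ _
  have hR2 : rb a β ≤ R := by rw [hR]; exact le_max_right _ _
  obtain ⟨C, hC, hCM⟩ := momb_double (a + Real.log R + Real.log 2) β hβ
  refine ⟨C, hC, fun M N => ?_⟩
  have h0 := hN_zero_pos a β M N
  calc ∑ k ∈ range (M+1), hN a β M (N+1) k
      = ∑ k ∈ range (M+1), ∑ l ∈ range (M+1), K a β k l * hN a β M N l := by
        rfl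
    _ ≤ ∑ k ∈ range (M+1), ∑ l ∈ range (M+1),
        Real.exp ((a + Real.log R + Real.log 2) * ((k+l+1 : ℕ) : ℝ) - β * ((k+l+1 : ℕ) : ℝ)^2) *
          hN a β M N 0 := by
        apply Finset.sum_le_sum
        intro k _
        apply Finset.sum_le_sum
        intro l _
        have h1 : hN a β M N l ≤ R^l * hN a β M N 0 := by
          refine (hN_bd a β hβ M N l).trans ?_
          rw [mul_comm]
          exact mul_le_mul_of_nonneg_right (pow_le_pow_left₀ hrb.le hR2 l) h0.le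
        calc K a β k l * hN a β M N l ≤ K a β k l * (R^l * hN a β M N 0) :=
              mul_le_mul_of_nonneg_left h1 (K_pos _ _ _ _).le
          _ = (K a β k l * R^l) * hN a β M N 0 := by ring
          _ ≤ _ := mul_le_mul_of_nonneg_right
              (momb_K_le a a β R le_rfl hR1 k l l (by omega)) h0.le
    _ = (∑ k ∈ range (M+1), ∑ l ∈ range (M+1),
        Real.exp ((a + Real.log R + Real.log 2) * ((k+l+1 : ℕ) : ℝ) -
          β * ((k+l+1 : ℕ) : ℝ)^2)) * hN a β M N 0 := by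
        simp only [Finset.sum_mul]
    _ ≤ C * mu a β M N := mul_le_mul_of_nonneg_right (hCM M) h0.le

/-- `Σ_{n} (n+1)² e^{c(n+1)} qN n ≤ C Σ_n qN n`, locally uniformly in `a`, uniformly in `M, N`.
Proof: `qN_sum`; `hN N i ≤ hN N 0 rb^i`, `hN (N+1) j ≤ hN (N+1) 0 rb^j`, `rb` and `w a β m ≤ exp(|A1|+|A2|)m - β m²`
are monotone in `a`; `K(i,j) ≤ 2^{i+j} w(i+j+1)`; and `Σ_n qN n ≥` the term `i = j = 0`,
`= hN N 0 · w(1) · hN (N+1) 0`. -/
theorem qN_expmoment (β A1 A2 c : ℝ) (hβ : 0 < β) (hc : 0 ≤ c) :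
    ∃ C : ℝ, 0 < C ∧ ∀ a, A1 ≤ a → a ≤ A2 → ∀ M N,
      ∑ n ∈ range (2*M+1), (((n:ℝ)+1)^2 * Real.exp (c * ((n:ℝ)+1))) * qN a β M N n ≤
        C * ∑ n ∈ range (2*M+1), qN a β M N n := by
  obtain ⟨R, hR⟩ : ∃ R : ℝ, R = max 1 (rb A2 β) := ⟨_, rfl⟩
  have hR1 : 1 ≤ R := by rw [hR]; exact le_max_left _ _
  have hR2 : rb A2 β ≤ R := by rw [hR]; exact le_max_right _ _
  obtain ⟨C, hC, hCM⟩ := momb_double ((A2 + Real.log R + Real.log 2) + 1 + c) β hβ
  refine ⟨2 * C / Real.exp (A1 - β), by positivity, fun a ha1 ha2 M N => ?_⟩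
  have hrb := momb_rb_pos a β hβ
  have hR3 : rb a β ≤ R := by
    refine le_trans ?_ hR2
    unfold rb
    exact div_le_div_of_nonneg_right (Real.exp_le_exp.mpr ha2) (by positivity)
  have h0 := hN_zero_pos a β M N
  have h1 := hN_zero_pos a β M (N+1)
  -- the lower bound
  have hlow : hN a β M N 0 * hN a β M (N+1) 0 * Real.exp (A1 - β) ≤
      ∑ n ∈ range (2*M+1), qN a β M N n := by
    have e := qN_sum a β M N (fun _ => 1)
    simp only [one_mul, mul_one] at e
    rw [e]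
    have h2 : hN a β M N 0 * K a β 0 0 * hN a β M (N+1) 0 ≤
        ∑ j ∈ range (M+1), hN a β M N 0 * K a β 0 j * hN a β M (N+1) j := by
      apply Finset.single_le_sum (f := fun j => hN a β M N 0 * K a β 0 j * hN a β M (N+1) j)
      · intro j _
        exact mul_nonneg (mul_nonneg h0.le (K_pos _ _ _ _).le) (hN_nonneg _ _ _ _ _)
      · simp
    have h3 : ∑ j ∈ range (M+1), hN a β M N 0 * K a β 0 j * hN a β M (N+1) j ≤
        ∑ i ∈ range (M+1), ∑ j ∈ range (M+1), hN a β M N i * K a β i j * hN a β M (N+1) j := by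
      apply Finset.single_le_sum (f := fun i => ∑ j ∈ range (M+1),
        hN a β M N i * K a β i j * hN a β M (N+1) j)
      · intro i _
        exact Finset.sum_nonneg fun j _ => mul_nonneg (mul_nonneg (hN_nonneg _ _ _ _ _)
          (K_pos _ _ _ _).le) (hN_nonneg _ _ _ _ _)
      · simp
    refine le_trans ?_ (h2.trans h3)
    have h4 : Real.exp (A1 - β) ≤ K a β 0 0 := by
      rw [momb_K0]
      unfold w
      apply Real.exp_le_exp.mpr
      push_cast
      linarith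
    calc hN a β M N 0 * hN a β M (N+1) 0 * Real.exp (A1 - β)
        ≤ hN a β M N 0 * hN a β M (N+1) 0 * K a β 0 0 :=
          mul_le_mul_of_nonneg_left h4 (by positivity)
      _ = _ := by ring
  -- the upper bound
  have hup : ∑ n ∈ range (2*M+1), (((n:ℝ)+1)^2 * Real.exp (c * ((n:ℝ)+1))) * qN a β M N n ≤
      (2 * C) * (hN a β M N 0 * hN a β M (N+1) 0) := by
    rw [qN_sum a β M N (fun n => ((n:ℝ)+1)^2 * Real.exp (c * ((n:ℝ)+1)))]
    calc ∑ i ∈ range (M+1), ∑ j ∈ range (M+1), hN a β M N i * K a β i j * hN a β M (N+1) j *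
          ((((i+j : ℕ):ℝ)+1)^2 * Real.exp (c * (((i+j : ℕ):ℝ)+1)))
        ≤ ∑ i ∈ range (M+1), ∑ j ∈ range (M+1),
          Real.exp (((A2 + Real.log R + Real.log 2) + 1 + c) * ((i+j+1 : ℕ) : ℝ) -
            β * ((i+j+1 : ℕ) : ℝ)^2) * (2 * (hN a β M N 0 * hN a β M (N+1) 0)) := by
          apply Finset.sum_le_sum
          intro i _
          apply Finset.sum_le_sum
          intro j _
          obtain ⟨m, hm⟩ : ∃ m : ℝ, m = ((i+j+1 : ℕ) : ℝ) := ⟨_, rfl⟩
          have hm' : (((i+j : ℕ):ℝ)+1) = m := by rw [hm]; push_cast; ring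
          have hm0 : 0 ≤ m := by rw [hm]; exact Nat.cast_nonneg _
          rw [hm']
          have e1 : hN a β M N i ≤ hN a β M N 0 * R^i :=
            (hN_bd a β hβ M N i).trans
              (mul_le_mul_of_nonneg_left (pow_le_pow_left₀ hrb.le hR3 i) h0.le)
          have e2 : hN a β M (N+1) j ≤ hN a β M (N+1) 0 * R^j :=
            (hN_bd a β hβ M (N+1) j).trans
              (mul_le_mul_of_nonneg_left (pow_le_pow_left₀ hrb.le hR3 j) h1.le)
          have e3 : m^2 ≤ 2 * Real.exp m := by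
            have := Real.quadratic_le_exp_of_nonneg hm0
            nlinarith
          have e4 := momb_K_le a A2 β R ha2 hR1 i j (i+j) (by omega)
          rw [← hm] at e4 ⊢
          have hK := K_pos a β i j
          have hR0 : 0 < R := by linarith
          calc hN a β M N i * K a β i j * hN a β M (N+1) j * (m^2 * Real.exp (c * m))
              ≤ (hN a β M N 0 * R^i) * K a β i j * (hN a β M (N+1) 0 * R^j) *
                ((2 * Real.exp m) * Real.exp (c * m)) := by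
                have n1 := hN_nonneg a β M N i
                have n2 := hN_nonneg a β M (N+1) j
                gcongr
            _ = (K a β i j * R^(i+j)) * (Real.exp m * Real.exp (c * m)) *
                (2 * (hN a β M N 0 * hN a β M (N+1) 0)) := by
                rw [pow_add]
                ring
            _ ≤ Real.exp ((A2 + Real.log R + Real.log 2) * m - β * m^2) *
                (Real.exp m * Real.exp (c * m)) * (2 * (hN a β M N 0 * hN a β M (N+1) 0)) := by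
                gcongr
            _ = _ := by
                rw [← Real.exp_add, ← Real.exp_add]
                congr 2
                ring
      _ = (∑ i ∈ range (M+1), ∑ j ∈ range (M+1),
          Real.exp (((A2 + Real.log R + Real.log 2) + 1 + c) * ((i+j+1 : ℕ) : ℝ) -
            β * ((i+j+1 : ℕ) : ℝ)^2)) * (2 * (hN a β M N 0 * hN a β M (N+1) 0)) := by
          simp only [Finset.sum_mul]
      _ ≤ C * (2 * (hN a β M N 0 * hN a β M (N+1) 0)) :=
          mul_le_mul_of_nonneg_right (hCM M) (by positivity)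
      _ = _ := by ring
  refine hup.trans ?_
  have hE := Real.exp_pos (A1 - β)
  calc (2 * C) * (hN a β M N 0 * hN a β M (N+1) 0)
      = 2 * C / Real.exp (A1 - β) *
        (hN a β M N 0 * hN a β M (N+1) 0 * Real.exp (A1 - β)) := by
        field_simp
    _ ≤ _ := mul_le_mul_of_nonneg_left hlow (by positivity)

end H716SP
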