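import Pool.Agent.H716R3.SP.Site
import Pool.Agent.H716R3.SP.MomB
/-! Task T23: uniform bounds and Lipschitz bound for the means. -/
set_option autoImplicit false
open Finset
namespace H716SP

/-- from `qN_expmoment` with `c = 0` (`n+1 ≤ (n+1)²`) -/
theorem m_bdd (β A1 A2 : ℝ) (hβ : 0 < β) :
    ∃ C : ℝ, 0 < C ∧ ∀ a, A1 ≤ a → a ≤ A2 → ∀ M N, m1N a β M N ≤ C ∧ m2N a β M N ≤ C := by
  sorry

/-- Proof.  For `a ≤ a' ≤ a+1`, `c = 2 + 2/p ≥ g(k)` for all `k`.  By `hN_ratio_lower/upper` (induct on `i`):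
`1 ≤ [hN a' i e^{(a'-a) i}/hN a' 0]/[hN a i/hN a 0] ≤ e^{(a'-a) c i}` in cross-multiplied form, so with `R(n,...)`: the weights
`wt' (i,j) = hN a' N i K a' i j hN a' (N+1) j` and `wt` at `a` satisfy
`wt(i,j)/wt(0,0) ≤ wt'(i,j)/wt'(0,0) ≤ (wt(i,j)/wt(0,0)) e^{(a'-a)c(i+j)}`
(`K a' i j / K a i j = e^{(a'-a)(i+j+1)}`).  Hence (`qN_sum`)
`m1N a' ≤ ∑ T wt e^{(a'-a)cT}/∑ wt ≤ m1N a + ∑ T (e^{(a'-a)cT} - 1) wt/∑ wt ≤ m1N a + (a'-a) c ∑ T² e^{cT} wt/∑ wt`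
(`e^x - 1 ≤ x e^x`), and conclude by `qN_expmoment`. -/
theorem m1_lip (β A1 A2 : ℝ) (hβ : 0 < β) :
    ∃ C : ℝ, 0 < C ∧ ∀ a a', A1 ≤ a → a' ≤ A2 → a ≤ a' → a' ≤ a + 1 → ∀ M N,
      m1N a' β M N ≤ m1N a β M N + C * (a' - a) := by
  sorry

end H716SP
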