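import Pool.Agent.H716R3.SP.SG
import Pool.Agent.H716R3.SP.Lip
/-! Task T24: the limit fields. -/
set_option autoImplicit false
open Finset
namespace H716SP

/-- limit along an ultrafilter -/
noncomputable def fields_ul (f : ℕ → ℝ) : ℝ := Filter.limUnder (Filter.hyperfilter ℕ : Filter ℕ) f

theorem fields_ul_tendsto (f : ℕ → ℝ) (A B : ℝ) (h : ∀ n, A ≤ f n ∧ f n ≤ B) :
    Filter.Tendsto f (Filter.hyperfilter ℕ : Filter ℕ) (nhds (fields_ul f)) := by
  have h1 : ((Filter.hyperfilter ℕ).map f : Filter ℝ) ≤ Filter.principal (Set.Icc A B) := by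
    rw [Filter.le_principal_iff, Ultrafilter.coe_map, Filter.mem_map]
    exact Filter.Eventually.of_forall fun n => h n
  obtain ⟨x, -, hx⟩ := (isCompact_Icc (a := A) (b := B)).ultrafilter_le_nhds _ h1
  exact tendsto_nhds_limUnder (f := (Filter.hyperfilter ℕ : Filter ℕ)) (g := f) ⟨x, hx⟩

theorem fields_ul_le (f : ℕ → ℝ) (A B : ℝ) (h : ∀ n, A ≤ f n ∧ f n ≤ B) :
    A ≤ fields_ul f ∧ fields_ul f ≤ B := by
  have ht := fields_ul_tendsto f A B h
  exact ⟨ge_of_tendsto' ht fun n => (h n).1, le_of_tendsto' ht fun n => (h n).2⟩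

theorem fields_m2_nonneg (a β : ℝ) (M N : ℕ) : 0 ≤ m2N a β M N := by
  unfold m2N
  refine div_nonneg (Finset.sum_nonneg fun n _ => mul_nonneg (by positivity) (qN_nonneg _ _ _ _ _))
    (Finset.sum_nonneg fun n _ => qN_nonneg _ _ _ _ _)

/-- first field -/
noncomputable def fields_m1 (a β : ℝ) : ℝ :=
  fields_ul fun M => fields_ul fun N => m1N a β M (N+1)

/-- second field -/
noncomputable def fields_m2 (a β : ℝ) : ℝ :=
  fields_ul fun M => fields_ul fun N => m2N a β M (N+1)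

theorem fields_conv (a β : ℝ) (hβ : 0 < β) :
    (∀ M, Filter.Tendsto (fun N => m1N a β M (N+1)) (Filter.hyperfilter ℕ : Filter ℕ)
      (nhds (fields_ul fun N => m1N a β M (N+1)))) ∧
    (∀ M, Filter.Tendsto (fun N => m2N a β M (N+1)) (Filter.hyperfilter ℕ : Filter ℕ)
      (nhds (fields_ul fun N => m2N a β M (N+1)))) ∧
    Filter.Tendsto (fun M => fields_ul fun N => m1N a β M (N+1)) (Filter.hyperfilter ℕ : Filter ℕ)
      (nhds (fields_m1 a β)) ∧
    Filter.Tendsto (fun M => fields_ul fun N => m2N a β M (N+1)) (Filter.hyperfilter ℕ : Filter ℕ)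
      (nhds (fields_m2 a β)) ∧ (∀ M, 1 ≤ fields_ul fun N => m1N a β M (N+1)) ∧ 1 ≤ fields_m1 a β := by
  obtain ⟨C, hC, hb⟩ := m_bdd β a a hβ
  have b1 : ∀ M N, 1 ≤ m1N a β M (N+1) ∧ m1N a β M (N+1) ≤ C :=
    fun M N => ⟨one_le_m1N _ _ _ _, (hb a le_rfl le_rfl M (N+1)).1⟩
  have b2 : ∀ M N, 0 ≤ m2N a β M (N+1) ∧ m2N a β M (N+1) ≤ C :=
    fun M N => ⟨fields_m2_nonneg _ _ _ _, (hb a le_rfl le_rfl M (N+1)).2⟩
  have c1 : ∀ M, 1 ≤ (fields_ul fun N => m1N a β M (N+1)) ∧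
      (fields_ul fun N => m1N a β M (N+1)) ≤ C := fun M => fields_ul_le _ 1 C (b1 M)
  have c2 : ∀ M, 0 ≤ (fields_ul fun N => m2N a β M (N+1)) ∧
      (fields_ul fun N => m2N a β M (N+1)) ≤ C := fun M => fields_ul_le _ 0 C (b2 M)
  exact ⟨fun M => fields_ul_tendsto _ 1 C (b1 M), fun M => fields_ul_tendsto _ 0 C (b2 M),
    fields_ul_tendsto _ 1 C c1, fields_ul_tendsto _ 0 C c2, fun M => (c1 M).1,
    (fields_ul_le _ 1 C c1).1⟩

theorem fields_P1 (a a' β β' : ℝ) (hβ : 0 < β) (hβ' : 0 < β') :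
    LL a β + (a'-a) * fields_m1 a β - (β'-β) * fields_m2 a β ≤ LL a' β' := by
  obtain ⟨t1, t2, t3, t4, -, -⟩ := fields_conv a β hβ
  have hU : (Filter.hyperfilter ℕ : Filter ℕ) ≤ Filter.atTop := Nat.hyperfilter_le_atTop
  have step : ∀ M, Lm a β M + (a'-a) * (fields_ul fun N => m1N a β M (N+1)) -
      (β'-β) * (fields_ul fun N => m2N a β M (N+1)) ≤ LL a' β' := by
    intro M
    have r1 : Filter.Tendsto (fun N => (1/2) * Real.log (rt a β M (N+1))) Filter.atTop
        (nhds (Lm a β M)) := (rt_tendsto a β hβ M).comp (Filter.tendsto_add_atTop_nat 1)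
    have r2 := ((r1.mono_left hU).add ((t1 M).const_mul (a'-a))).sub ((t2 M).const_mul (β'-β))
    refine le_of_tendsto' r2 fun N => ?_
    exact (SG a a' β β' hβ hβ' M (N+1)).trans (Lm_le_LL a' β' hβ' M)
  have r3 := (((Lm_tendsto a β hβ).mono_left hU).add (t3.const_mul (a'-a))).sub
    (t4.const_mul (β'-β))
  exact le_of_tendsto' r3 step

theorem fields_mono (a a' β : ℝ) (hβ : 0 < β) (haa : a ≤ a') : fields_m1 a β ≤ fields_m1 a' β := by
  have h1 := fields_P1 a a' β β hβ hβ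
  have h2 := fields_P1 a' a β β hβ hβ
  rcases eq_or_lt_of_le haa with h | h
  · rw [h]
  · have h3 : (a' - a) * fields_m1 a β ≤ (a' - a) * fields_m1 a' β := by linarith
    exact le_of_mul_le_mul_left h3 (by linarith)

theorem fields_P3 (a a' β : ℝ) (hβ : 0 < β) (haa : a ≤ a') :
    fields_m2 a β / fields_m1 a β ≤ fields_m2 a' β / fields_m1 a' β := by
  obtain ⟨t1, t2, t3, t4, t5, t6⟩ := fields_conv a β hβ
  obtain ⟨s1, s2, s3, s4, s5, s6⟩ := fields_conv a' β hβ
  have step : ∀ M, (fields_ul fun N => m2N a β M (N+1)) / (fields_ul fun N => m1N a β M (N+1)) ≤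
      (fields_ul fun N => m2N a' β M (N+1)) / (fields_ul fun N => m1N a' β M (N+1)) := by
    intro M
    have r1 := (t2 M).div (t1 M) (by linarith [t5 M])
    have r2 := (s2 M).div (s1 M) (by linarith [s5 M])
    exact le_of_tendsto_of_tendsto' r1 r2 fun N => m_ratio_mono a a' β hβ haa M (N+1) (by omega)
  have r1 := t4.div t3 (by linarith)
  have r2 := s4.div s3 (by linarith)
  exact le_of_tendsto_of_tendsto' r1 r2 step

theorem fields_lip (β A1 A2 : ℝ) (hβ : 0 < β) :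
    ∃ C : ℝ, 0 < C ∧ ∀ a a', A1 ≤ a → a' ≤ A2 → a ≤ a' → a' ≤ a + 1 →
      fields_m1 a' β ≤ fields_m1 a β + C * (a' - a) := by
  obtain ⟨C, hC, hl⟩ := m1_lip β A1 A2 hβ
  refine ⟨C, hC, fun a a' h1 h2 h3 h4 => ?_⟩
  obtain ⟨t1, t2, t3, t4, t5, t6⟩ := fields_conv a β hβ
  obtain ⟨s1, s2, s3, s4, s5, s6⟩ := fields_conv a' β hβ
  have step : ∀ M, (fields_ul fun N => m1N a' β M (N+1)) ≤
      (fields_ul fun N => m1N a β M (N+1)) + C * (a' - a) := by
    intro M
    exact le_of_tendsto_of_tendsto' (s1 M) ((t1 M).add_const _)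
      fun N => hl a a' h1 h2 h3 h4 M (N+1)
  exact le_of_tendsto_of_tendsto' s3 (t3.add_const _) step

theorem fields_cont (β : ℝ) (hβ : 0 < β) : Continuous (fun a => fields_m1 a β) := by
  rw [continuous_iff_continuousAt]
  intro x
  obtain ⟨C, hC, hl⟩ := fields_lip β (x - 1) (x + 1) hβ
  refine continuousAt_of_locally_lipschitz (r := 1) one_pos C fun y hy => ?_
  rw [Real.dist_eq] at hy ⊢
  rw [Real.dist_eq]
  have hy' := abs_lt.1 hy
  rcases le_total x y with h | h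
  · have h1 := hl x y (by linarith) (by linarith) h (by linarith)
    have h2 := fields_mono x y β hβ h
    rw [abs_of_nonneg (by linarith), abs_of_nonneg (by linarith)]
    linarith
  · have h1 := hl y x (by linarith) (by linarith) h (by linarith)
    have h2 := fields_mono y x β hβ h
    rw [abs_of_nonpos (by linarith), abs_of_nonpos (by linarith)]
    linarith

/-- Proof.  Let `U = Filter.hyperfilter ℕ` (an ultrafilter finer than `atTop`); every bounded real sequence converges along `U`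
(`isCompact_Icc`, `IsCompact.ultrafilter_le_nhds`).  For `0 < β` put `m1 a β = lim_M lim_N m1N a β M (N+1)` and
`m2` similarly (bounded by `m_bdd`, and `≥ 1` resp. `≥ 0`).  P1: `SG` for `(M, N+1)`, let `N → ∞` along `U`
(`rt_tendsto`), then `M → ∞` (`Lm_tendsto`; `Lm a' β' M ≤ LL a' β'`).  P2: `one_le_m1N`.  P3: `m_ratio_mono` passes to the limits
(`m1 ≥ 1`).  P4: from P1 (with `β' = β`) `m1` is nondecreasing in `a` (add the two inequalities for `(a,a')`, `(a',a)`), and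
`m1_lip` gives `m1 a' ≤ m1 a + C(a'-a)`, locally; so `m1 · β` is continuous. -/
theorem fields : ∃ m1 m2 : ℝ → ℝ → ℝ,
    (∀ a a' β β', 0 < β → 0 < β' →
      LL a β + (a'-a) * m1 a β - (β'-β) * m2 a β ≤ LL a' β') ∧
    (∀ a β, 0 < β → 1 ≤ m1 a β) ∧
    (∀ a a' β, 0 < β → a ≤ a' → m2 a β / m1 a β ≤ m2 a' β / m1 a' β) ∧
    (∀ β, 0 < β → Continuous (fun a => m1 a β)) :=
  ⟨fields_m1, fields_m2, fun a a' β β' hβ hβ' => fields_P1 a a' β β' hβ hβ',
    fun a β hβ => (fields_conv a β hβ).2.2.2.2.2,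
    fun a a' β hβ haa => fields_P3 a a' β hβ haa, fun β hβ => fields_cont β hβ⟩

end H716SP
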