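import Pool.Agent.H716R3.SP.Norm
/-! Task T31: the excursion functions are summable, uniformly, when `LL a β < β`. -/
set_option autoImplicit false
open Finset
namespace H716SP

/-- `(A ⊛ B)(i) = ∑_{k+k' = i-1} A(k) B(k')`, `0` at `i = 0` -/
noncomputable def cv (A B : ℕ → ℝ) : ℕ → ℝ
  | 0 => 0
  | (i+1) => ∑ k ∈ range (i+1), A k * B (i-k)

/-- `(K⁻F)(i) = (op F)(i-1)`, `0` at `i = 0` -/
noncomputable def Km (a β : ℝ) (M : ℕ) (F : ℕ → ℝ) : ℕ → ℝ
  | 0 => 0
  | (i+1) => op a β M F i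

private theorem gb_op_nonneg (a β : ℝ) (M : ℕ) (F : ℕ → ℝ) (hF : ∀ k, 0 ≤ F k) (k : ℕ) :
    0 ≤ op a β M F k := by
  unfold op
  exact Finset.sum_nonneg (fun l _ => mul_nonneg (K_pos a β k l).le (hF l))

private theorem gb_Km_nonneg (a β : ℝ) (M : ℕ) (F : ℕ → ℝ) (hF : ∀ k, 0 ≤ F k) (k : ℕ) :
    0 ≤ Km a β M F k := by
  cases k with
  | zero => simp [Km]
  | succ k => simpa [Km] using gb_op_nonneg a β M F hF k

theorem Gr_nonneg (a β : ℝ) (M r k : ℕ) : 0 ≤ Gr a β M r k := by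
  induction r generalizing k with
  | zero => simp only [Gr]; split_ifs <;> norm_num
  | succ r ih =>
    cases k with
    | zero => simp [Gr]
    | succ k => simpa [Gr] using gb_op_nonneg a β M _ ih k

/-- `Gr R = ∑_{r ≤ R} (K⁻)^r δ_0` -/
theorem Gr_eq (a β : ℝ) (M R k : ℕ) :
    Gr a β M R k = ∑ r ∈ range (R+1), (Km a β M)^[r] (fun k => if k = 0 then 1 else 0) k := by
  induction R generalizing k with
  | zero => simp [Gr]
  | succ R ih =>
    rw [Finset.sum_range_succ']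
    cases k with
    | zero =>
      have h : ∀ r ∈ range (R+1), (Km a β M)^[r+1] (fun k => if k = 0 then (1:ℝ) else 0) 0 = 0 := by
        intro r _
        rw [Function.iterate_succ']
        rfl
      rw [Finset.sum_eq_zero h]
      simp [Gr]
    | succ k =>
      have h : ∀ r, (Km a β M)^[r+1] (fun k => if k = 0 then (1:ℝ) else 0) (k+1) =
          op a β M ((Km a β M)^[r] (fun k => if k = 0 then (1:ℝ) else 0)) k := by
        intro r
        rw [Function.iterate_succ']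
        rfl
      have h2 : Gr a β M (R+1) (k+1) = op a β M (Gr a β M R) k := rfl
      rw [h2]
      simp only [h]
      simp only [op]
      rw [Finset.sum_comm]
      simp only [ih, Finset.mul_sum]
      simp

/-- Vandermonde: `∑_{k+k'=i} C(k+l,l) C(k'+l',l') = C(i+l+l'+1, l+l'+1)` -/
theorem vandermonde_neg (i l l' : ℕ) :
    ∑ k ∈ range (i+1), ((k+l).choose l : ℝ) * ((i-k+l').choose l' : ℝ) = ((i+l+l'+1).choose (l+l'+1) : ℝ) := by
  have h : (PowerSeries.mk (1 : ℕ → ℝ))^(l+1) * (PowerSeries.mk (1 : ℕ → ℝ))^(l'+1) =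
      (PowerSeries.mk (1 : ℕ → ℝ))^(l+l'+1+1) := by
    rw [← pow_add]; congr 1; ring
  have h2 := congrArg (PowerSeries.coeff i) h
  rw [PowerSeries.mk_one_pow_eq_mk_choose_add, PowerSeries.mk_one_pow_eq_mk_choose_add,
    PowerSeries.mk_one_pow_eq_mk_choose_add, PowerSeries.coeff_mul, PowerSeries.coeff_mk,
    Finset.Nat.sum_antidiagonal_eq_sum_range_succ_mk] at h2
  simp only [PowerSeries.coeff_mk] at h2
  rw [show i + l + l' + 1 = l + l' + 1 + i by ring, ← h2]
  refine Finset.sum_congr rfl (fun k _ => ?_)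
  rw [Nat.add_comm k l, Nat.add_comm (i-k) l']

private theorem gb_regroup (M : ℕ) (G : ℕ → ℕ → ℝ) (hG : ∀ x y, 0 ≤ G x y) :
    ∑ c ∈ range M, ∑ l ∈ range (c+1), G l (c-l) ≤
      ∑ l ∈ range (M+1), ∑ l' ∈ range (M+1), G l l' := by
  rw [Finset.sum_sigma', ← Finset.sum_product']
  have hinj : Set.InjOn (fun x : (_ : ℕ) × ℕ => (x.2, x.1 - x.2))
      ((range M).sigma (fun c => range (c+1)) : Finset ((_ : ℕ) × ℕ)) := by
    rintro ⟨c, l⟩ hx ⟨c', l'⟩ hx' hxy
    simp only [Finset.coe_sigma, Set.mem_sigma_iff, Finset.coe_range, Set.mem_Iio] at hx hx'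
    simp only [Prod.mk.injEq] at hxy
    obtain ⟨rfl, h2⟩ := hxy
    have : c = c' := by omega
    subst this
    rfl
  rw [← Finset.sum_image (f := fun p : ℕ × ℕ => G p.1 p.2) hinj]
  refine Finset.sum_le_sum_of_subset_of_nonneg ?_ (fun p _ _ => hG _ _)
  intro p hp
  simp only [Finset.mem_image, Finset.mem_sigma, Finset.mem_range] at hp
  obtain ⟨⟨c, l⟩, ⟨h1, h2⟩, rfl⟩ := hp
  simp only [Finset.mem_product, Finset.mem_range]
  simp only at h1 h2
  omega

private theorem gb_w_add (a β : ℝ) (hβ : 0 < β) (m m' : ℕ) (hm : 1 ≤ m) (hm' : 1 ≤ m') :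
    w a β (m+m') ≤ Real.exp (-2*β) * (w a β m * w a β m') := by
  unfold w
  rw [← Real.exp_add, ← Real.exp_add]
  apply Real.exp_le_exp.mpr
  push_cast
  have h1 : (1:ℝ) ≤ m := by exact_mod_cast hm
  have h2 : (1:ℝ) ≤ m' := by exact_mod_cast hm'
  have h3 : (1:ℝ) ≤ (m:ℝ) * m' := by nlinarith
  nlinarith [mul_le_mul_of_nonneg_left h3 hβ.le]

private theorem gb_K_le (a β : ℝ) (hβ : 0 < β) (i l l' : ℕ) :
    K a β i (l+l'+1) ≤ Real.exp (-2*β) * ∑ k ∈ range (i+1), K a β k l * K a β (i-k) l' := by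
  unfold K
  rw [show i + (l+l'+1) = i+l+l'+1 by ring, ← vandermonde_neg, Finset.sum_mul, Finset.mul_sum]
  refine Finset.sum_le_sum (fun k hk => ?_)
  have hk' : k ≤ i := by simpa [Nat.lt_succ_iff] using hk
  have h := gb_w_add a β hβ (k+l+1) (i-k+l'+1) (by omega) (by omega)
  rw [show k+l+1+(i-k+l'+1) = i+l+l'+1+1 by omega] at h
  have h0 : (0:ℝ) ≤ ((k+l).choose l : ℝ) * ((i-k+l').choose l' : ℝ) := by positivity
  calc _ ≤ ((k+l).choose l : ℝ) * ((i-k+l').choose l' : ℝ) *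
        (Real.exp (-2*β) * (w a β (k+l+1) * w a β (i-k+l'+1))) :=
        mul_le_mul_of_nonneg_left h h0
    _ = _ := by ring

/-- Key inequality, for `F, F' ≥ 0`.  Proof: at `i+1`: left `= ∑_{c ≤ M} C(i+c,c) w(i+c+1) ∑_{l+l'=c-1} F l F' l'
 ≤ ∑_{l,l' ≤ M} C(i+l+l'+1, l+l'+1) w(i+l+l'+2) F l F' l'`, right `= e^{-2β} ∑_{k+k'=i} ∑_{l,l'≤M} C(k+l,l)C(k'+l',l')
w(k+l+1)w(k'+l'+1) F l F' l'`; use `vandermonde_neg` and `w(m+m') = w(m) w(m') e^{-2β m m'} ≤ w(m) w(m') e^{-2β}` for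
`m, m' ≥ 1`. -/
theorem Km_cv (a β : ℝ) (hβ : 0 < β) (M : ℕ) (F F' : ℕ → ℝ) (hF : ∀ k, 0 ≤ F k) (hF' : ∀ k, 0 ≤ F' k) (i : ℕ) :
    Km a β M (cv F F') i ≤ Real.exp (-2*β) * cv (op a β M F) (op a β M F') i := by
  cases i with
  | zero => simp [Km, cv]
  | succ i =>
    have e1 : Km a β M (cv F F') (i+1) =
        ∑ c ∈ range M, ∑ l ∈ range (c+1), (fun l l' => K a β i (l+l'+1) * (F l * F' l')) l (c-l) := by
      simp only [Km, op]
      rw [Finset.sum_range_succ']
      simp only [cv, mul_zero, add_zero]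
      refine Finset.sum_congr rfl (fun c _ => ?_)
      rw [Finset.mul_sum]
      refine Finset.sum_congr rfl (fun l hl => ?_)
      have hl' : l ≤ c := by simpa [Nat.lt_succ_iff] using hl
      rw [show l + (c-l) + 1 = c+1 by omega]
    rw [e1]
    have hr := gb_regroup M (fun l l' => K a β i (l+l'+1) * (F l * F' l'))
      (fun x y => mul_nonneg (K_pos a β i (x+y+1)).le (mul_nonneg (hF x) (hF' y)))
    refine hr.trans ?_
    have e2 : Real.exp (-2*β) * cv (op a β M F) (op a β M F') (i+1) =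
        ∑ l ∈ range (M+1), ∑ l' ∈ range (M+1),
          (Real.exp (-2*β) * ∑ k ∈ range (i+1), K a β k l * K a β (i-k) l') * (F l * F' l') := by
      have e3 : Real.exp (-2*β) * cv (op a β M F) (op a β M F') (i+1) =
          ∑ k ∈ range (i+1), ∑ l ∈ range (M+1), ∑ l' ∈ range (M+1),
            Real.exp (-2*β) * ((K a β k l * F l) * (K a β (i-k) l' * F' l')) := by
        simp only [cv, op]
        rw [Finset.mul_sum]
        refine Finset.sum_congr rfl (fun k _ => ?_)
        rw [Finset.sum_mul_sum, Finset.mul_sum]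
        refine Finset.sum_congr rfl (fun l _ => ?_)
        rw [Finset.mul_sum]
      rw [e3, Finset.sum_comm]
      refine Finset.sum_congr rfl (fun l _ => ?_)
      rw [Finset.sum_comm]
      refine Finset.sum_congr rfl (fun l' _ => ?_)
      rw [Finset.mul_sum, Finset.sum_mul]
      refine Finset.sum_congr rfl (fun k _ => ?_)
      ring
    rw [e2]
    refine Finset.sum_le_sum (fun l _ => Finset.sum_le_sum (fun l' _ => ?_))
    exact mul_le_mul_of_nonneg_right (gb_K_le a β hβ i l l') (mul_nonneg (hF l) (hF' l'))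

/-- iterate: `(K⁻)^{r+1} δ_0 ≤ (1/w(1)) e^{-2βr} h_{r+1} ⊛ h_{r+1}`, `h_r = hN a β M r`.  `r = 0`: `(K⁻δ_0)(i) = w(i)` for
`i ≥ 1`, and `(h_1 ⊛ h_1)(i) ≥ h_1(i-1) h_1(0) = w(i) w(1)`. -/
theorem Km_iter (a β : ℝ) (hβ : 0 < β) (M r i : ℕ) :
    (Km a β M)^[r+1] (fun k => if k = 0 then 1 else 0) i ≤
      (1 / w a β 1) * Real.exp (-2*β*r) * cv (hN a β M (r+1)) (hN a β M (r+1)) i := by
  induction r generalizing i with
  | zero =>
    cases i with
    | zero => simp [Km, cv]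
    | succ i =>
      have h1 : ∀ k, hN a β M 1 k = w a β (k+1) := by
        intro k
        simp only [hN, op, mul_ite, mul_one, mul_zero]
        rw [Finset.sum_ite_eq' (range (M+1)) 0 (fun l => K a β k l)]
        simp [K]
      have h2 : (Km a β M)^[0+1] (fun k => if k = 0 then (1:ℝ) else 0) (i+1) = w a β (i+1) := by
        rw [← h1]
        rfl
      rw [h2]
      simp only [Nat.cast_zero, mul_zero, Real.exp_zero, mul_one, cv, Nat.zero_add, h1]
      have h3 : w a β (i+1) * w a β (i-i+1) ≤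
          ∑ k ∈ range (i+1), w a β (k+1) * w a β (i-k+1) :=
        Finset.single_le_sum (f := fun k => w a β (k+1) * w a β (i-k+1))
          (fun k _ => (mul_pos (w_pos _ _ _) (w_pos _ _ _)).le) (by simp)
      rw [Nat.sub_self, Nat.zero_add] at h3
      have hw := w_pos a β 1
      rw [one_div, inv_mul_eq_div, le_div_iff₀ hw]
      exact h3
  | succ r ih =>
    rw [Function.iterate_succ', Function.comp]
    have hc : (0:ℝ) ≤ (1 / w a β 1) * Real.exp (-2*β*r) :=
      mul_nonneg (by have := w_pos a β 1; positivity) (Real.exp_pos _).le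
    have hmono : Km a β M ((Km a β M)^[r+1] (fun k => if k = 0 then (1:ℝ) else 0)) i ≤
        ((1 / w a β 1) * Real.exp (-2*β*r)) * Km a β M (cv (hN a β M (r+1)) (hN a β M (r+1))) i := by
      cases i with
      | zero => simp [Km]
      | succ i =>
        simp only [Km, op, Finset.mul_sum]
        refine Finset.sum_le_sum (fun l _ => ?_)
        calc _ ≤ K a β i l * ((1 / w a β 1) * Real.exp (-2*β*r) *
              cv (hN a β M (r+1)) (hN a β M (r+1)) l) :=
              mul_le_mul_of_nonneg_left (ih l) (K_pos _ _ _ _).le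
          _ = _ := by ring
    refine hmono.trans ?_
    have h := Km_cv a β hβ M (hN a β M (r+1)) (hN a β M (r+1)) (hN_nonneg a β M (r+1))
      (hN_nonneg a β M (r+1)) i
    calc _ ≤ ((1 / w a β 1) * Real.exp (-2*β*r)) *
          (Real.exp (-2*β) * cv (op a β M (hN a β M (r+1))) (op a β M (hN a β M (r+1))) i) :=
          mul_le_mul_of_nonneg_left h hc
      _ = _ := by
        have e : Real.exp (-2*β*((r+1:ℕ):ℝ)) = Real.exp (-2*β*r) * Real.exp (-2*β) := by
          rw [← Real.exp_add]; congr 1; push_cast; ring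
        rw [e]
        have e2 : hN a β M (r+1+1) = op a β M (hN a β M (r+1)) := rfl
        rw [e2]
        ring

/-- moments: `mu r ≤ C e^{LL r}` uniformly in `M` (`mu_even_le`, `Lm_le_LL`, `mu_step`) -/
theorem mu_le (a β : ℝ) (hβ : 0 < β) : ∃ C : ℝ, 0 < C ∧ ∀ M r, mu a β M r ≤ C * Real.exp (LL a β * r) := by
  have hB := Bd_pos a β hβ
  refine ⟨1 + Bd a β * Real.exp (-LL a β), by positivity, fun M r => ?_⟩
  have heven : ∀ j : ℕ, mu a β M (2*j) ≤ Real.exp (LL a β * ((2*j:ℕ):ℝ)) := by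
    intro j
    refine (mu_even_le a β hβ M j).trans (Real.exp_le_exp.mpr ?_)
    have h := Lm_le_LL a β hβ M
    push_cast
    have hj : (0:ℝ) ≤ j := Nat.cast_nonneg j
    nlinarith [mul_le_mul_of_nonneg_right h hj]
  rcases Nat.even_or_odd' r with ⟨j, rfl | rfl⟩
  · refine (heven j).trans ?_
    have h1 : (1:ℝ) ≤ 1 + Bd a β * Real.exp (-LL a β) := by
      have : 0 ≤ Bd a β * Real.exp (-LL a β) := by positivity
      linarith
    exact le_mul_of_one_le_left (Real.exp_pos _).le h1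
  · have h1 := mu_step a β hβ M (2*j)
    have h2 := mul_le_mul_of_nonneg_left (heven j) hB.le
    have h3 : Bd a β * Real.exp (LL a β * ((2*j:ℕ):ℝ)) =
        (Bd a β * Real.exp (-LL a β)) * Real.exp (LL a β * ((2*j+1:ℕ):ℝ)) := by
      rw [mul_assoc, ← Real.exp_add]
      congr 2
      push_cast; ring
    have h4 : (Bd a β * Real.exp (-LL a β)) * Real.exp (LL a β * ((2*j+1:ℕ):ℝ)) ≤
        (1 + Bd a β * Real.exp (-LL a β)) * Real.exp (LL a β * ((2*j+1:ℕ):ℝ)) :=
      mul_le_mul_of_nonneg_right (by linarith) (Real.exp_pos _).le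
    linarith

/-- Proof: `∑_{i≤M} (A ⊛ B)(i) ≤ (∑_{k≤M} A k)(∑_{k≤M} B k)`; so by `Km_iter`, `hN_l1`, `mu_le`
`∑_{i≤M} (K⁻)^{r+1}δ_0 (i) ≤ (1/w(1)) e^{-2βr} (C mu r)² ≤ C' e^{-2(β-LL)r}`, a convergent geometric series. -/
theorem Gr_l1 (a β : ℝ) (hβ : 0 < β) (hL : LL a β < β) :
    ∃ C : ℝ, 0 < C ∧ ∀ M R, ∑ k ∈ range (M+1), Gr a β M R k ≤ C := by
  obtain ⟨C1, hC1, h1⟩ := hN_l1 a β hβ
  obtain ⟨C2, hC2, h2⟩ := mu_le a β hβ
  have hw := w_pos a β 1
  set q : ℝ := Real.exp (-2*(β - LL a β)) with hq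
  have hq0 : 0 < q := Real.exp_pos _
  have hq1 : q < 1 := by
    rw [hq]
    rw [← Real.exp_zero]
    exact Real.exp_lt_exp.mpr (by linarith)
  set C3 : ℝ := (1 / w a β 1) * (C1 * C2)^2 with hC3
  have hC3p : 0 < C3 := by positivity
  refine ⟨1 + C3 / (1-q), by have : 0 < 1 - q := by linarith
                             positivity, fun M R => ?_⟩
  have hterm : ∀ r : ℕ, ∑ k ∈ range (M+1),
      (Km a β M)^[r+1] (fun k => if k = 0 then (1:ℝ) else 0) k ≤ C3 * q^r := by
    intro r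
    have hh := hN_nonneg a β M (r+1)
    have s1 : ∑ k ∈ range (M+1), cv (hN a β M (r+1)) (hN a β M (r+1)) k ≤
        (∑ k ∈ range (M+1), hN a β M (r+1) k)^2 := by
      rw [Finset.sum_range_succ']
      simp only [cv, add_zero]
      refine (gb_regroup M (fun x y => hN a β M (r+1) x * hN a β M (r+1) y)
        (fun x y => mul_nonneg (hh x) (hh y))).trans (le_of_eq ?_)
      rw [sq, Finset.sum_mul_sum]
    have s2 : ∑ k ∈ range (M+1), hN a β M (r+1) k ≤ C1 * C2 * Real.exp (LL a β * r) := by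
      calc _ ≤ C1 * mu a β M r := h1 M r
        _ ≤ C1 * (C2 * Real.exp (LL a β * r)) := mul_le_mul_of_nonneg_left (h2 M r) hC1.le
        _ = _ := by ring
    have s3 : (∑ k ∈ range (M+1), hN a β M (r+1) k)^2 ≤ (C1 * C2 * Real.exp (LL a β * r))^2 :=
      pow_le_pow_left₀ (Finset.sum_nonneg (fun k _ => hh k)) s2 2
    calc _ ≤ ∑ k ∈ range (M+1), (1 / w a β 1) * Real.exp (-2*β*r) *
            cv (hN a β M (r+1)) (hN a β M (r+1)) k :=
          Finset.sum_le_sum (fun k _ => Km_iter a β hβ M r k)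
      _ = (1 / w a β 1) * Real.exp (-2*β*r) *
            ∑ k ∈ range (M+1), cv (hN a β M (r+1)) (hN a β M (r+1)) k := by
          rw [Finset.mul_sum]
      _ ≤ (1 / w a β 1) * Real.exp (-2*β*r) * (C1 * C2 * Real.exp (LL a β * r))^2 :=
          mul_le_mul_of_nonneg_left (s1.trans s3) (by positivity)
      _ = C3 * q^r := by
          rw [hC3, hq, ← Real.exp_nat_mul, mul_pow (C1*C2), ← Real.exp_nat_mul]
          have e : Real.exp ((r:ℝ) * (-2*(β - LL a β))) =
              Real.exp (-2*β*r) * Real.exp (((2:ℕ):ℝ) * (LL a β * r)) := by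
            rw [← Real.exp_add]; congr 1; push_cast; ring
          rw [e]; ring
  have hsum : ∑ k ∈ range (M+1), Gr a β M R k =
      ∑ r ∈ range (R+1), ∑ k ∈ range (M+1),
        (Km a β M)^[r] (fun k => if k = 0 then (1:ℝ) else 0) k := by
    rw [Finset.sum_comm]
    exact Finset.sum_congr rfl (fun k _ => Gr_eq a β M R k)
  rw [hsum, Finset.sum_range_succ']
  have h0 : ∑ k ∈ range (M+1), (Km a β M)^[0] (fun k => if k = 0 then (1:ℝ) else 0) k = 1 := by
    simp
  rw [h0]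
  have hg : ∑ r ∈ range R, C3 * q^r ≤ C3 / (1-q) := by
    rw [← Finset.mul_sum, div_eq_mul_inv]
    refine mul_le_mul_of_nonneg_left ?_ hC3p.le
    have hs := summable_geometric_of_lt_one hq0.le hq1
    rw [← tsum_geometric_of_lt_one hq0.le hq1]
    exact hs.sum_le_tsum _ (fun _ _ => by positivity)
  have hg2 := Finset.sum_le_sum (s := range R) (fun r _ => hterm r)
  linarith

end H716SP
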