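import Pool.Agent.H716R3.SP.Defs
/-! Task T08: an exact identity. -/
set_option autoImplicit false
open Finset
namespace H716SP

/-- reflection of `DD` -/
private theorem IdI_DD_refl {s l : ℕ} (h : l ≤ s) : DD s (s - l) = - DD s l := by
  unfold DD
  rw [Nat.cast_sub h]
  ring

/-- reflection of `cc` -/
private theorem IdI_cc_refl (β : ℝ) {s l : ℕ} (h : l ≤ s) : cc β s (s - l) = cc β s l := by
  unfold cc
  rw [IdI_DD_refl h, Nat.choose_symm h, neg_sq]

/-- the odd function -/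
private noncomputable def IdI_f (β : ℝ) (s l : ℕ) : ℝ :=
  (l:ℝ) * (s.choose l : ℝ) * (DD s l - 1) * Real.exp (-(β/2) * (DD s l)^2 + β * DD s l)

private theorem IdI_f_refl (β : ℝ) {s j : ℕ} (h : j < s) :
    IdI_f β s (s - 1 - j + 1) = - IdI_f β s (j + 1) := by
  obtain ⟨s', rfl⟩ : ∃ s', s = s' + 1 := ⟨s - 1, by omega⟩
  have h1 : s' + 1 - 1 - j + 1 = s' - j + 1 := by omega
  rw [h1]
  have hj : j ≤ s' := by omega
  unfold IdI_f
  have e1 : (((s' - j + 1 : ℕ) : ℝ)) * ((s' + 1).choose (s' - j + 1) : ℝ)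
      = ((j + 1 : ℕ) : ℝ) * ((s' + 1).choose (j + 1) : ℝ) := by
    have a1 : (s' - j + 1) * (s' + 1).choose (s' - j + 1) = (s' + 1) * s'.choose (s' - j) := by
      rw [mul_comm, ← Nat.add_one_mul_choose_eq]
    have a2 : (j + 1) * (s' + 1).choose (j + 1) = (s' + 1) * s'.choose j := by
      rw [mul_comm, ← Nat.add_one_mul_choose_eq]
    have a3 : s'.choose (s' - j) = s'.choose j := Nat.choose_symm hj
    have a4 : (s' - j + 1) * (s' + 1).choose (s' - j + 1)
        = (j + 1) * (s' + 1).choose (j + 1) := by rw [a1, a2, a3]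
    exact_mod_cast a4
  have e2 : DD (s' + 1) (s' - j + 1) = 2 - DD (s' + 1) (j + 1) := by
    unfold DD
    push_cast [Nat.cast_sub hj]
    ring
  rw [e1, e2]
  have e3 : -(β/2) * (2 - DD (s' + 1) (j + 1))^2 + β * (2 - DD (s' + 1) (j + 1))
      = -(β/2) * (DD (s' + 1) (j + 1))^2 + β * DD (s' + 1) (j + 1) := by ring
  rw [e3]
  ring

private theorem IdI_sum_f (β : ℝ) (s : ℕ) : ∑ l ∈ range (s+1), IdI_f β s l = 0 := by
  rw [Finset.sum_range_succ']
  have h0 : IdI_f β s 0 = 0 := by simp [IdI_f]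
  rw [h0, add_zero]
  have h1 : ∑ j ∈ range s, IdI_f β s (j + 1) = - ∑ j ∈ range s, IdI_f β s (j + 1) := by
    conv_lhs => rw [← Finset.sum_range_reflect]
    rw [← Finset.sum_neg_distrib]
    apply Finset.sum_congr rfl
    intro j hj
    exact IdI_f_refl β (Finset.mem_range.1 hj)
  linarith

private theorem IdI_step1 (β : ℝ) (s : ℕ) :
    ∑ l ∈ range (s+1), cc β s l * (Real.exp (β * DD s l) *
      (((s:ℝ) - 1) * DD s l + (DD s l)^2 - s)) = 0 := by
  have h : ∑ l ∈ range (s+1), cc β s l * (Real.exp (β * DD s l) *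
      (((s:ℝ) - 1) * DD s l + (DD s l)^2 - s)) = ∑ l ∈ range (s+1), 2 * IdI_f β s l := by
    apply Finset.sum_congr rfl
    intro l _
    unfold cc IdI_f
    rw [Real.exp_add]
    have e1 : ((s:ℝ) - 1) * DD s l + (DD s l)^2 - s = 2 * l * (DD s l - 1) := by
      unfold DD; ring
    rw [e1]
    ring
  rw [h, ← Finset.mul_sum, IdI_sum_f, mul_zero]

private theorem IdI_step2 (β : ℝ) (s : ℕ) :
    ∑ l ∈ range (s+1), cc β s l * (Real.exp (-(β * DD s l)) *
      (-(((s:ℝ) - 1) * DD s l) + (DD s l)^2 - s)) = 0 := by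
  rw [← IdI_step1 β s]
  conv_rhs => rw [← Finset.sum_range_reflect]
  apply Finset.sum_congr rfl
  intro l hl
  have hls : l ≤ s := Nat.lt_succ_iff.1 (Finset.mem_range.1 hl)
  have h1 : s + 1 - 1 - l = s - l := by omega
  rw [h1, IdI_cc_refl β hls, IdI_DD_refl hls]
  congr 2
  · congr 1; ring
  · ring

/-- Identity (I).  Proof: for `1 ≤ l ≤ s` put `f(l) = l C(s,l) (D-1) e^{-(β/2)D²+βD}`, `D = 2l-s`.  Under `l ↦ s+1-l`:
`l C(s,l)` is invariant, `D - 1 ↦ -(D-1)`, `-(β/2)D²+βD = -(β/2)((D-1)²-1)` invariant; so `∑_{l=1}^s f(l) = 0`.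
With `l = (s+D)/2` and `(s+D)(D-1) = (s-1)D + D² - s`: `∑_{l≤s} c(l) e^{βD} [(s-1)D + D² - s] = 0`.
Symmetrise (`c(s-l) = c(l)`, `D(s-l) = -D(l)`): `e^{βD}` times an odd (even) function of `D` becomes `sinh` (`cosh`). -/
theorem id_I (β : ℝ) (s : ℕ) :
    ∑ l ∈ range (s+1), cc β s l * (((s:ℝ) - 1) * DD s l * Real.sinh (β * DD s l)
        + (DD s l)^2 * Real.cosh (β * DD s l))
      = (s:ℝ) * ∑ l ∈ range (s+1), cc β s l * Real.cosh (β * DD s l) := by
  have h1 := IdI_step1 β s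
  have h2 := IdI_step2 β s
  rw [Finset.mul_sum, ← sub_eq_zero, ← Finset.sum_sub_distrib]
  have h3 : ∑ l ∈ range (s+1), (cc β s l * (((s:ℝ) - 1) * DD s l * Real.sinh (β * DD s l)
        + (DD s l)^2 * Real.cosh (β * DD s l)) - (s:ℝ) * (cc β s l * Real.cosh (β * DD s l)))
      = (1/2) * ((∑ l ∈ range (s+1), cc β s l * (Real.exp (β * DD s l) *
      (((s:ℝ) - 1) * DD s l + (DD s l)^2 - s))) + ∑ l ∈ range (s+1), cc β s l *
      (Real.exp (-(β * DD s l)) * (-(((s:ℝ) - 1) * DD s l) + (DD s l)^2 - s))) := by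
    rw [← Finset.sum_add_distrib, Finset.mul_sum]
    apply Finset.sum_congr rfl
    intro l _
    rw [Real.sinh_eq, Real.cosh_eq]
    ring
  rw [h3, h1, h2]
  ring

end H716SP
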