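import Pool.Agent.H716R3.SP.PathBasic
/-! Task T27: the insertion lemma. -/
set_option autoImplicit false
open Finset
namespace H716SP

theorem Ins_W_add (m t s : ℤ) (n : ℕ) : ∀ (p : ℤ) (F F' : (ℤ → ℕ) → ENNReal),
    W m t s n p (fun ℓ => F ℓ + F' ℓ) = W m t s n p F + W m t s n p F' := by
  induction n with
  | zero =>
    intro p F F'
    simp only [W]
    split_ifs
    · rfl
    · simp
  | succ n ih =>
    intro p F F'
    simp only [W]
    split_ifs
    · rw [ih, ih]
      abel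
    · simp

/-- weight of `c` excursions -/
noncomputable def InsG (m : ℤ) (c : ℕ) (F : (ℤ → ℕ) → ENNReal) (ℓ : ℤ → ℕ) : ENNReal :=
  ((Nat.multichoose (ℓ (m+1)) c : ℕ) : ENNReal) * F (ℓ + (Pi.single m c + Pi.single (m+1) c))

/-- path functional with guard -/
noncomputable def InsW2 (m t s : ℤ) (n c : ℕ) (p : ℤ) (F : (ℤ → ℕ) → ENNReal) : ENNReal :=
  if 2*c ≤ n then W (m+1) t s (n-2*c) p F else 0

theorem Ins_ext (m t s p : ℤ) (n K : ℕ) (hK : n/2+1 ≤ K) (H : ℕ → (ℤ → ℕ) → ENNReal) :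
    ∑ c ∈ range (n/2+1), W (m+1) t s (n-2*c) p (H c) =
      ∑ c ∈ range K, InsW2 m t s n c p (H c) := by
  rw [← Finset.sum_subset (Finset.range_subset_range.2 hK)]
  · refine Finset.sum_congr rfl fun c hc => ?_
    rw [Finset.mem_range] at hc
    unfold InsW2
    rw [if_pos (by omega)]
  · intro c _ hc
    rw [Finset.mem_range] at hc
    unfold InsW2
    rw [if_neg (by omega)]

theorem Ins_stepA (m t s p : ℤ) (hp : m + 2 ≤ p) (hpt : p ≤ t) (n c : ℕ) (F : (ℤ → ℕ) → ENNReal) :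
    InsW2 m t s (n+1) c p (InsG m c F) =
      InsW2 m t s n c (p-1) (InsG m c (fun ℓ => F (ℓ + Pi.single p 1))) +
      InsW2 m t s n c (p+1) (InsG m c (fun ℓ => F (ℓ + Pi.single p 1))) := by
  unfold InsW2
  by_cases h : 2*c ≤ n
  · rw [if_pos (by omega), if_pos h, if_pos h, show n + 1 - 2*c = (n - 2*c) + 1 by omega]
    have e : (fun ℓ => InsG m c F (ℓ + Pi.single p 1)) =
        InsG m c (fun ℓ => F (ℓ + Pi.single p 1)) := by
      funext ℓ
      unfold InsG
      have e1 : (ℓ + Pi.single p 1 : ℤ → ℕ) (m+1) = ℓ (m+1) := by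
        rw [Pi.add_apply, Pi.single_eq_of_ne (by omega)]
        rfl
      rw [e1]
      congr 2
      abel
    simp only [W]
    rw [if_pos ⟨by omega, hpt⟩, e]
  · rw [if_neg h, if_neg h, add_zero]
    by_cases h2 : 2*c = n+1
    · rw [if_pos (by omega), show n + 1 - 2*c = 0 by omega]
      simp only [W]
      split_ifs with h3
      · unfold InsG
        rw [Pi.single_eq_of_ne (by omega)]
        obtain ⟨c', rfl⟩ : ∃ c', c = c' + 1 := ⟨c - 1, by omega⟩
        simp
      · rfl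
    · rw [if_neg (by omega)]

theorem Ins_out (m t s : ℤ) (n : ℕ) (F : (ℤ → ℕ) → ENNReal) : W (m+1) t s n m F = 0 :=
  W_out _ _ _ _ _ _ (Or.inl (by omega))

theorem Ins_shift (m t s : ℤ) (hmt : m + 1 ≤ t) (j : ℕ) (F : (ℤ → ℕ) → ENNReal) :
    W (m+1) t s (j+1) (m+1) F = W (m+1) t s j (m+2) (fun ℓ => F (ℓ + Pi.single (m+1) 1)) := by
  simp only [W]
  rw [if_pos ⟨le_rfl, hmt⟩, show m + 1 - 1 = m by ring, Ins_out, zero_add,
    show m + 1 + 1 = m + 2 by ring]

theorem Ins_step0 (m t s : ℤ) (hmt : m + 1 ≤ t) (n : ℕ) (F : (ℤ → ℕ) → ENNReal) :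
    InsW2 m t s (n+1) 0 (m+1) (InsG m 0 F) =
      InsW2 m t s n 0 (m+2) (InsG m 0 (fun ℓ => F (ℓ + Pi.single (m+1) 1))) := by
  unfold InsW2
  rw [if_pos (by omega), if_pos (by omega)]
  simp only [Nat.mul_zero, Nat.sub_zero]
  rw [Ins_shift m t s hmt]
  congr 1
  funext ℓ
  unfold InsG
  simp

theorem Ins_stepC (m t s : ℤ) (hmt : m + 1 ≤ t) (n c : ℕ) (F : (ℤ → ℕ) → ENNReal) :
    InsW2 m t s (n+2) (c+1) (m+1) (InsG m (c+1) F) =
      InsW2 m t s (n+1) (c+1) (m+2) (InsG m (c+1) (fun ℓ => F (ℓ + Pi.single (m+1) 1))) +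
      InsW2 m t s n c (m+1) (InsG m c (fun ℓ => F (ℓ + (Pi.single m 1 + Pi.single (m+1) 1)))) := by
  have hadd : ∀ ℓ : ℤ → ℕ, ℓ + (Pi.single m c + Pi.single (m+1) c) +
      (Pi.single m 1 + Pi.single (m+1) 1) = ℓ + (Pi.single m (c+1) + Pi.single (m+1) (c+1)) := by
    intro ℓ
    rw [Pi.single_add, Pi.single_add]
    abel
  unfold InsW2
  rcases lt_trichotomy (2*c) n with h | h | h
  · obtain ⟨j, rfl⟩ : ∃ j, n = 2*c + j + 1 := ⟨n - 2*c - 1, by omega⟩
    rw [if_pos (by omega), if_pos (by omega), if_pos (by omega),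
      show 2*c + j + 1 + 2 - 2*(c+1) = j + 1 by omega,
      show 2*c + j + 1 + 1 - 2*(c+1) = j by omega,
      show 2*c + j + 1 - 2*c = j + 1 by omega,
      Ins_shift m t s hmt, Ins_shift m t s hmt, ← Ins_W_add]
    congr 1
    funext ℓ
    unfold InsG
    simp only []
    have e1 : (ℓ + Pi.single (m+1) 1 : ℤ → ℕ) (m+1) = ℓ (m+1) + 1 := by
      rw [Pi.add_apply, Pi.single_eq_same]
    rw [e1, Nat.multichoose_succ_succ, hadd]
    push_cast
    rw [add_mul]
    have e2 : ℓ + Pi.single (m+1) 1 + (Pi.single m (c+1) + Pi.single (m+1) (c+1)) =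
        ℓ + (Pi.single m (c+1) + Pi.single (m+1) (c+1)) + Pi.single (m+1) 1 := by abel
    rw [e2]
  · subst h
    rw [if_pos (by omega), if_neg (by omega), if_pos (by omega),
      show 2*c + 2 - 2*(c+1) = 0 by omega, show 2*c - 2*c = 0 by omega, zero_add]
    simp only [W]
    split_ifs with h3
    · obtain ⟨h4, -, -⟩ := h3
      unfold InsG
      simp only []
      rw [hadd, ← h4, Pi.single_eq_same, Nat.multichoose_one, Nat.multichoose_one]
    · rfl
  · rw [if_neg (by omega), if_neg (by omega), if_neg (by omega), add_zero]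

theorem Ins_main (m t s : ℤ) (hs : m + 1 ≤ s) (n : ℕ) : ∀ (p : ℤ), m + 1 ≤ p →
    ∀ (F : (ℤ → ℕ) → ENNReal),
    W m t s n p F = ∑ c ∈ range (n/2+1), W (m+1) t s (n - 2*c) p (InsG m c F) := by
  induction n using Nat.strong_induction_on with
  | _ n ih =>
  intro p hp F
  by_cases hpt : p ≤ t
  swap
  · rw [W_out _ _ _ _ _ _ (Or.inr (by omega)), Finset.sum_eq_zero]
    intro c _
    exact W_out _ _ _ _ _ _ (Or.inr (by omega))
  rcases n with _ | n
  · simp only [Nat.zero_div, zero_add, Finset.sum_range_one, Nat.mul_zero, Nat.sub_zero, W]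
    have hiff : (p = s ∧ m ≤ s ∧ s ≤ t) ↔ (p = s ∧ m + 1 ≤ s ∧ s ≤ t) := by
      constructor
      · rintro ⟨h1, h2, h3⟩; exact ⟨h1, hs, h3⟩
      · rintro ⟨h1, h2, h3⟩; exact ⟨h1, by omega, h3⟩
    simp only [hiff]
    split_ifs
    · unfold InsG
      simp
    · rfl
  have hR : ∀ (n' K : ℕ) (hn' : n' < n + 1) (hK : n'/2+1 ≤ K) (p' : ℤ) (hp' : m + 1 ≤ p')
      (F' : (ℤ → ℕ) → ENNReal), W m t s n' p' F' =
        ∑ c ∈ range K, InsW2 m t s n' c p' (InsG m c F') := by
    intro n' K hn' hK p' hp' F'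
    rw [ih n' hn' p' hp' F', Ins_ext m t s p' n' K hK]
  rcases eq_or_lt_of_le hp with hp1 | hp2
  · subst hp1
    have hlast : W m t s (n+1) (m+1) F =
        W m t s n m (fun ℓ => F (ℓ + Pi.single (m+1) 1)) +
        W m t s n (m+2) (fun ℓ => F (ℓ + Pi.single (m+1) 1)) := by
      simp only [W]
      rw [if_pos ⟨by omega, hpt⟩, show m + 1 - 1 = m by ring, show m + 1 + 1 = m + 2 by ring]
    rw [hlast]
    rcases n with _ | n
    · -- `n = 1`
      rw [Ins_ext m t s (m+1) (0+1) 1 (by norm_num), Finset.sum_range_one,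
        Ins_step0 m t s hpt 0 F, hR 0 1 (by omega) (by norm_num) (m+2) (by omega),
        Finset.sum_range_one]
      have h0 : W m t s 0 m (fun ℓ => F (ℓ + Pi.single (m+1) 1)) = 0 := by
        simp only [W]
        rw [if_neg]
        rintro ⟨h1, -, -⟩
        omega
      rw [h0, zero_add]
    · rw [W_last m t s (by omega) n]
      rw [hR n (n+1) (by omega) (by omega) (m+1) le_rfl,
        hR (n+1) (n+1+1) (by omega) (by omega) (m+2) (by omega),
        Ins_ext m t s (m+1) (n+1+1) (n+1+1) (by omega)]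
      rw [Finset.sum_range_succ' _ (n+1), Finset.sum_range_succ' _ (n+1),
        Ins_step0 m t s hpt (n+1) F, ← add_assoc, ← Finset.sum_add_distrib]
      congr 1
      refine Finset.sum_congr rfl fun c _ => ?_
      rw [Ins_stepC m t s hpt n c F, add_comm]
      congr 2
      funext ℓ
      unfold InsG
      congr 2
      abel_nf
  · have hW : W m t s (n+1) p F =
        W m t s n (p-1) (fun ℓ => F (ℓ + Pi.single p 1)) +
        W m t s n (p+1) (fun ℓ => F (ℓ + Pi.single p 1)) := by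
      simp only [W]
      rw [if_pos ⟨by omega, hpt⟩]
    rw [hW, hR n (n+1) (by omega) (by omega) (p-1) (by omega),
      hR n (n+1) (by omega) (by omega) (p+1) (by omega),
      Ins_ext m t s p (n+1) (n+1) (by omega), ← Finset.sum_add_distrib]
    refine Finset.sum_congr rfl fun c _ => ?_
    rw [Ins_stepA m t s p (by omega) hpt n c F]

/-- Insertion lemma: a path in `[m,t]` with both ends `≥ m+1` is obtained in a unique way from a path in `[m+1,t]` by
inserting `c` excursions `m+1 → m → m+1` at the visits to `m+1` (`multichoose (ℓ_{m+1}) c` ways).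
Proof: strong induction on `n`, for all `p` and `F`.  `n = 0`: only `c = 0`.
`p ≥ m+2`: expand both sides by the last step (`p ± 1 ≥ m+1`; `(ℓ + δ_p)(m+1) = ℓ(m+1)`); the terms match (for the term
`n+1-2c = 0` of the right side: `W (m+1) t s 0 p` versus ... note that if `p ≥ m+2`, `n+1 = 2c` and `p = s`, this term is
`multichoose (0) c = 0` for `c ≥ 1`, as `ℓ = δ_p` does not charge `m+1`).
`p = m+1`: the last step comes from `m+2` or from `m`, and in the latter case the step before came from `m+1`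
(`n ≥ 1`): `W m t s (n+1) (m+1) F = W m t s n (m+2) (F(·+δ_{m+1})) + W m t s (n-1) (m+1) (F(·+δ_{m+1}+δ_m))`
(`W_last`; when `n = 0` the second term is absent).  By induction, with `W' = W (m+1) t s`, `e = δ_m + δ_{m+1}`:
first `= ∑_c W' (n-2c) (m+2) (mc(ℓ_{m+1}, c) F(ℓ+δ_{m+1}+c e))`,
second `= ∑_c W' (n-1-2c) (m+1) (mc(ℓ_{m+1},c) F(ℓ+(c+1)e))`.
On the right side, for `n+1-2c ≥ 1`:
`W' (n+1-2c) (m+1) (mc(ℓ_{m+1},c) F(ℓ+c e)) = W' (n-2c) (m+2) (mc(ℓ_{m+1}+1,c) F(ℓ+δ_{m+1}+c e))` and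
`mc(ℓ+1,c) = mc(ℓ,c) + mc(ℓ+1,c-1)` (`Nat.multichoose_succ_succ`); the first part gives the first sum, and the second part is (read
backwards, `c' = c-1`) `W' (n-1-2c') (m+1) (mc(ℓ_{m+1},c') F(ℓ+(c'+1)e))`, i.e. the second sum.  If `n+1 = 2c`, both the right side
term and the term `c' = c-1` of the second sum are `[s = m+1] F(δ_{m+1} + c e)`.
(It may be easier to prove it in the form: for all `n`, with the sum over `c ∈ range (n/2+1)` replaced by the sum over all
`c` with `2c ≤ n`, or to index by `n = k + 2c` over the antidiagonal.) -/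
theorem insertion (m t s p : ℤ) (hs : m + 1 ≤ s) (hp : m + 1 ≤ p) (n : ℕ) (F : (ℤ → ℕ) → ENNReal) :
    W m t s n p F = ∑ c ∈ range (n/2+1), W (m+1) t s (n - 2*c) p
      (fun ℓ => ((Nat.multichoose (ℓ (m+1)) c : ℕ) : ENNReal) *
        F (ℓ + (Pi.single m c + Pi.single (m+1) c))) :=
  Ins_main m t s hs n p hp F

/-- summed over `n`: `∑'_n ∑_{2c ≤ n} a(c, n-2c) = ∑'_c ∑'_n a(c, n)` -/
theorem insertion_tot (m t s p : ℤ) (hs : m + 1 ≤ s) (hp : m + 1 ≤ p) (F : (ℤ → ℕ) → ENNReal) :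
    Wt m t s p F = ∑' c : ℕ, Wt (m+1) t s p
      (fun ℓ => ((Nat.multichoose (ℓ (m+1)) c : ℕ) : ENNReal) *
        F (ℓ + (Pi.single m c + Pi.single (m+1) c))) := by
  have h1 : ∀ n, W m t s n p F = ∑' c : ℕ, InsW2 m t s n c p (InsG m c F) := by
    intro n
    rw [Ins_main m t s hs n p hp F, Ins_ext m t s p n (n/2+1) le_rfl]
    refine (tsum_eq_sum fun c hc => ?_).symm
    rw [Finset.mem_range] at hc
    unfold InsW2
    rw [if_neg (by omega)]
  unfold Wt
  simp only [h1]
  rw [ENNReal.tsum_comm]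
  refine tsum_congr fun c => ?_
  have hinj : Function.Injective (fun n : ℕ => n + 2*c) := fun x y h => by
    simpa using h
  have h2 := hinj.tsum_eq (f := fun n => InsW2 m t s n c p (InsG m c F)) (by
    intro n hn
    rw [Function.mem_support] at hn
    have : 2*c ≤ n := by
      by_contra h
      apply hn
      unfold InsW2
      rw [if_neg h]
    exact ⟨n - 2*c, by simp only []; omega⟩)
  rw [← h2]
  refine tsum_congr fun n => ?_
  unfold InsW2
  rw [if_pos (by omega), Nat.add_sub_cancel]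
  rfl

end H716SP
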