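import Pool.Agent.H716R3.SP.Defs
/-! Task T02: general facts on log-concave sequences. -/
set_option autoImplicit false
open Finset
namespace H716SP

/-- Proof: the ratios `H (k+1)/H k` are nonincreasing; induct on `j - i`. -/
theorem LC_of_adjacent (H : ℕ → ℝ) (hpos : ∀ k, 0 < H k)
    (hadj : ∀ k, H k * H (k+2) ≤ H (k+1) * H (k+1)) : LC H := by
  sorry

theorem LC_cut (h : ℕ → ℝ) (hh : LC h) (M : ℕ) : LC (fun l => if l ≤ M then h l else 0) := by
  sorry

theorem LC_mul (h h' : ℕ → ℝ) (hh : LC h) (hh' : LC h') : LC (fun l => h l * h' l) := by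
  sorry

/-- Proof: `1/i! * 1/(j+1)! ≤ 1/(i+1)! * 1/j!` iff `i + 1 ≤ j + 1`. -/
theorem LC_inv_factorial : LC (fun l => 1 / ((l.factorial : ℕ) : ℝ)) := by
  sorry

/-- `δ_0` is log-concave -/
theorem LC_delta : LC (fun k => if k = 0 then (1:ℝ) else 0) := by
  sorry

/-- the products `m l = h l * h (s-l)` are symmetric and increase towards the middle -/
theorem LC_unimodal (h : ℕ → ℝ) (hh : LC h) (s l : ℕ) (hl : 2 * l + 1 ≤ s) :
    h l * h (s - l) ≤ h (l+1) * h (s - (l+1)) := by
  sorry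

/-- Regrouping a double sum over a square by `s = l + l'`.  `F` is a function on pairs that vanishes
outside the square. -/
theorem sum_square_regroup (M : ℕ) (F : ℕ → ℕ → ℝ) (h1 : ∀ l l', M < l → F l l' = 0)
    (h2 : ∀ l l', M < l' → F l l' = 0) :
    ∑ l ∈ range (M+1), ∑ l' ∈ range (M+1), F l l' =
      ∑ s ∈ range (2*M+1), ∑ l ∈ range (s+1), F l (s-l) := by
  sorry

end H716SP
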