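import Pool.Agent.H716R3.SP.Defs
/-! Task T01: Abel summation over symmetric windows. -/
set_option autoImplicit false
open Finset
namespace H716SP

private theorem win_split (f : ℕ → ℝ) (u n : ℕ) :
    ∑ l ∈ Icc u (u + (n + 2)), f l = f u + f (u + (n + 2)) + ∑ l ∈ Icc (u + 1) (u + 1 + n), f l := by
  have h1 : Icc u (u + (n + 2)) = Ico u (u + (n + 2) + 1) := by
    ext l; simp only [mem_Icc, mem_Ico]; omega
  have h2 : Icc (u + 1) (u + 1 + n) = Ico (u + 1) (u + (n + 2)) := by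
    ext l; simp only [mem_Icc, mem_Ico]; omega
  rw [h1, h2, Finset.sum_Ico_succ_top (by omega), Finset.sum_eq_sum_Ico_succ_bot (by omega)]
  ring

private theorem win_aux (s : ℕ) (m x : ℕ → ℝ)
    (hsym : ∀ l, l ≤ s → m (s - l) = m l)
    (hmono : ∀ l, 2 * l + 1 ≤ s → m l ≤ m (l + 1)) : ∀ n u : ℕ, s = 2 * u + n →
    (∀ v, u < v → 2 * v ≤ s → 0 ≤ ∑ l ∈ Icc v (s - v), x l) →
    m u * ∑ l ∈ Icc u (u + n), x l ≤ ∑ l ∈ Icc u (u + n), m l * x l := by
  intro n
  induction n using Nat.strong_induction_on with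
  | _ n ih =>
    intro u hs hwin
    rcases n with _ | _ | n
    · simp
    · have e : Icc u (u + (0 + 1)) = {u, u + 1} := by
        ext l; simp only [mem_Icc, mem_insert, mem_singleton]; omega
      have hm : m (u + 1) = m u := by
        have := hsym u (by omega)
        rwa [show s - u = u + 1 by omega] at this
      rw [e, Finset.sum_pair (by omega), Finset.sum_pair (by omega), hm, mul_add]
    · have hm : m (u + (n + 2)) = m u := by
        have := hsym u (by omega)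
        rwa [show s - u = u + (n + 2) by omega] at this
      have h1 := ih n (by omega) (u + 1) (by omega) (fun v hv hv2 => hwin v (by omega) hv2)
      have h2 := hwin (u + 1) (by omega) (by omega)
      rw [show s - (u + 1) = u + 1 + n by omega] at h2
      have h3 := hmono u (by omega)
      show m u * ∑ l ∈ Icc u (u + (n + 2)), x l ≤ ∑ l ∈ Icc u (u + (n + 2)), m l * x l
      rw [win_split, win_split, hm]
      have h4 := mul_le_mul_of_nonneg_right h3 h2
      nlinarith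

/-- Proof: induction on `s - 2*u0` (peeling the two end points).  If `2*u0 = s` or `2*u0 + 1 = s` then
`m` is constant `= m u0` on the window `Icc u0 (s-u0)` (symmetry) and there is equality.  Otherwise, with
`A_u = ∑_{Icc u (s-u)} m l * x l`, `X_u = ∑_{Icc u (s-u)} x l`,
`A_u = A_{u+1} + m_u (x_u + x_{s-u}) ≥ m_{u+1} X_{u+1} + m_u (X_u - X_{u+1})
     = m_u X_u + (m_{u+1} - m_u) X_{u+1} ≥ m_u X_u`, since `X_{u+1} ≥ 0`. -/
theorem win_ge (s u0 : ℕ) (h2 : 2 * u0 ≤ s) (m x : ℕ → ℝ)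
    (hsym : ∀ l, l ≤ s → m (s - l) = m l)
    (hmono : ∀ l, 2 * l + 1 ≤ s → m l ≤ m (l + 1))
    (hwin : ∀ u, u0 < u → 2 * u ≤ s → 0 ≤ ∑ l ∈ Icc u (s - u), x l) :
    m u0 * ∑ l ∈ Icc u0 (s - u0), x l ≤ ∑ l ∈ Icc u0 (s - u0), m l * x l := by
  have h := win_aux s m x hsym hmono (s - 2 * u0) u0 (by omega) hwin
  rwa [show u0 + (s - 2 * u0) = s - u0 by omega] at h

/-- Proof: `win_ge` with `u0 = 0` (`range (s+1) = Icc 0 s`) and `m 0 ≥ 0`, `X_0 ≥ 0`. -/
theorem win_sum_nonneg (s : ℕ) (m x : ℕ → ℝ) (hm0 : ∀ l, 0 ≤ m l)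
    (hsym : ∀ l, l ≤ s → m (s - l) = m l)
    (hmono : ∀ l, 2 * l + 1 ≤ s → m l ≤ m (l + 1))
    (hwin : ∀ u, 2 * u ≤ s → 0 ≤ ∑ l ∈ Icc u (s - u), x l) :
    0 ≤ ∑ l ∈ range (s + 1), m l * x l := by
  have h := win_ge s 0 (by omega) m x hsym hmono (fun u _ hu => hwin u hu)
  have h0 := hwin 0 (by omega)
  have e : range (s + 1) = Icc 0 (s - 0) := by
    ext l; simp only [mem_Icc, mem_range]; omega
  rw [e]
  exact (mul_nonneg (hm0 0) h0).trans h

end H716SP
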