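import Pool.Agent.H716R3.SP.Zu
import Pool.Agent.H716R3.SP.Win
import Pool.Agent.H716R3.SP.LCgen
/-! Task T14: lower bound on the increments. -/
set_option autoImplicit false
open Finset
namespace H716SP

private theorem oneLw_op_pos (a β : ℝ) (M : ℕ) (h : ℕ → ℝ) (hpos : ∀ l, 0 < h l) (k : ℕ) :
    0 < op a β M h k :=
  Finset.sum_pos (fun l _ => mul_pos (K_pos a β k l) (hpos l)) ⟨0, by simp⟩

private theorem oneLw_K_mul (a β : ℝ) (k s l : ℕ) (hl : l ≤ s) :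
    K a β (k+1) l * K a β k (s-l) =
      Real.exp (a * (2*k+3+s) - (β/2) * (2*(k:ℝ)+3+s)^2) * AA β k s l := by
  unfold K AA w Ew DD
  have h1 : ((s - l : ℕ) : ℝ) = (s:ℝ) - l := by push_cast [hl]; ring
  have h2 : Real.exp (a * ((k+1+l+1 : ℕ):ℝ) - β * ((k+1+l+1 : ℕ):ℝ)^2) *
      Real.exp (a * ((k+(s-l)+1 : ℕ):ℝ) - β * ((k+(s-l)+1 : ℕ):ℝ)^2) =
      Real.exp (a * (2*k+3+s) - (β/2) * (2*(k:ℝ)+3+s)^2) *
        Real.exp (-(β/2) * (2*(l:ℝ) - (s:ℝ) + 1)^2) := by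
    rw [← Real.exp_add, ← Real.exp_add]
    congr 1
    simp only [Nat.cast_add, Nat.cast_one, h1]
    ring
  calc ((k+1+l).choose l : ℝ) * Real.exp (a * ((k+1+l+1 : ℕ):ℝ) - β * ((k+1+l+1 : ℕ):ℝ)^2) *
      (((k+(s-l)).choose (s-l) : ℝ) *
        Real.exp (a * ((k+(s-l)+1 : ℕ):ℝ) - β * ((k+(s-l)+1 : ℕ):ℝ)^2))
      = ((k+1+l).choose l : ℝ) * ((k+(s-l)).choose (s-l) : ℝ) *
        (Real.exp (a * ((k+1+l+1 : ℕ):ℝ) - β * ((k+1+l+1 : ℕ):ℝ)^2) *
          Real.exp (a * ((k+(s-l)+1 : ℕ):ℝ) - β * ((k+(s-l)+1 : ℕ):ℝ)^2)) := by ring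
    _ = _ := by rw [h2]; ring

/-- Proof: multiply by `op h k * op h (k+1) > 0`: to show
`0 ≤ ∑_{l,l'≤M} K(k+1,l) K(k,l') h(l) h(l') (2 + v(l) - v(l'))`.  Regroup (`sum_square_regroup`, `hc = h` cut at `M`) by
`s = l+l'`: `(k+1+l+1)² + (k+s-l+1)² = ((2k+3+s)² + (2l-s+1)²)/2`, so the `s`-part is
`e^{a(2k+3+s) - (β/2)(2k+3+s)²} ∑_{l≤s} hc(l) hc(s-l) A(l) (2 + v(l) - v(s-l))`, and this is `≥ 0` by `win_sum_nonneg`
(`m l = hc l * hc (s-l)`, `LC_unimodal`, `LC_cut`) and `Zu_nonneg`. -/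
theorem op_Lw (a β : ℝ) (hβ : 0 < β) (M k : ℕ) (h v : ℕ → ℝ) (hpos : ∀ l, 0 < h l) (hLC : LC h)
    (hv : ∀ l, 0 ≤ v (l+1) - v l ∧ v (l+1) - v l ≤ gg β l) :
    Ex a β M h v k - Ex a β M h v (k+1) ≤ 2 := by
  have hA := oneLw_op_pos a β M h hpos k
  have hA' := oneLw_op_pos a β M h hpos (k+1)
  obtain ⟨hc, hcd⟩ : ∃ hc : ℕ → ℝ, hc = fun l => if l ≤ M then h l else 0 := ⟨_, rfl⟩
  have hcLC : LC hc := by rw [hcd]; exact LC_cut h hLC M
  have hc1 : ∀ l, l ≤ M → hc l = h l := fun l hl => by rw [hcd]; simp [hl]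
  have hc2 : ∀ l, M < l → hc l = 0 := fun l hl => by rw [hcd]; simp [Nat.not_le.2 hl]
  have hc0 : ∀ l, 0 ≤ hc l := hcLC.1
  have key : 0 ≤ ∑ l ∈ range (M+1), ∑ l' ∈ range (M+1),
      K a β (k+1) l * K a β k l' * (hc l * hc l') * (2 + v l - v l') := by
    rw [sum_square_regroup M
      (fun l l' => K a β (k+1) l * K a β k l' * (hc l * hc l') * (2 + v l - v l'))
      (fun l l' hl => by simp only [hc2 l hl]; ring)
      (fun l l' hl => by simp only [hc2 l' hl]; ring)]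
    refine Finset.sum_nonneg fun s _ => ?_
    have h1 : ∑ l ∈ range (s+1), K a β (k+1) l * K a β k (s-l) * (hc l * hc (s-l)) *
        (2 + v l - v (s-l)) =
        Real.exp (a * (2*k+3+s) - (β/2) * (2*(k:ℝ)+3+s)^2) *
          ∑ l ∈ range (s+1), (hc l * hc (s-l)) * (AA β k s l * (2 + v l - v (s-l))) := by
      rw [Finset.mul_sum]
      refine Finset.sum_congr rfl fun l hl => ?_
      rw [oneLw_K_mul a β k s l (by rw [Finset.mem_range] at hl; omega)]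
      ring
    rw [h1]
    refine mul_nonneg (Real.exp_pos _).le ?_
    refine win_sum_nonneg s (fun l => hc l * hc (s-l))
      (fun l => AA β k s l * (2 + v l - v (s-l))) (fun l => mul_nonneg (hc0 _) (hc0 _)) ?_ ?_ ?_
    · intro l hl
      simp only [Nat.sub_sub_self hl]
      ring
    · intro l hl
      exact LC_unimodal hc hcLC s l hl
    · intro u hu
      exact Zu_nonneg β hβ v hv k s u hu
  have h2 : ∑ l ∈ range (M+1), ∑ l' ∈ range (M+1),
      K a β (k+1) l * K a β k l' * (hc l * hc l') * (2 + v l - v l') =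
      2 * (op a β M h (k+1) * op a β M h k) +
        (∑ l ∈ range (M+1), K a β (k+1) l * h l * v l) * op a β M h k -
        op a β M h (k+1) * (∑ l ∈ range (M+1), K a β k l * h l * v l) := by
    unfold op
    rw [Finset.sum_mul_sum, Finset.sum_mul_sum, Finset.sum_mul_sum, Finset.mul_sum,
      ← Finset.sum_add_distrib, ← Finset.sum_sub_distrib]
    refine Finset.sum_congr rfl fun l hl => ?_
    rw [Finset.mul_sum, ← Finset.sum_add_distrib, ← Finset.sum_sub_distrib]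
    refine Finset.sum_congr rfl fun l' hl' => ?_
    rw [hc1 l (by rw [Finset.mem_range] at hl; omega),
      hc1 l' (by rw [Finset.mem_range] at hl'; omega)]
    ring
  rw [h2] at key
  unfold Ex
  rw [div_sub_div _ _ hA.ne' hA'.ne', div_le_iff₀ (mul_pos hA hA')]
  nlinarith [key]

end H716SP
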