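import Pool.Agent.H716R3.SP.UKey
/-! Task T07: upper bound on the increments. -/
set_option autoImplicit false
open Finset
namespace H716SP

theorem OneU_abel (v q : ℕ → ℝ) (M : ℕ) :
    ∑ l ∈ range (M+1), v l * q l = v 0 * ∑ j ∈ Icc 0 M, q j +
      ∑ l ∈ range M, (v (l+1) - v l) * ∑ j ∈ Icc (l+1) M, q j := by
  induction M with
  | zero => simp
  | succ M ih =>
    rw [Finset.sum_range_succ, ih]
    have h1 : ∀ i, i ≤ M + 1 → ∑ j ∈ Icc i (M+1), q j = ∑ j ∈ Icc i M, q j + q (M+1) := fun i hi =>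
      Finset.sum_Icc_succ_top hi q
    rw [h1 0 (Nat.zero_le _)]
    have h2 : ∑ l ∈ range (M+1), (v (l+1) - v l) * ∑ j ∈ Icc (l+1) (M+1), q j =
        ∑ l ∈ range (M+1), ((v (l+1) - v l) * ∑ j ∈ Icc (l+1) M, q j + (v (l+1) - v l) * q (M+1)) := by
      refine Finset.sum_congr rfl fun l hl => ?_
      rw [mem_range] at hl
      rw [h1 (l+1) (by omega)]
      ring
    rw [h2, Finset.sum_add_distrib, ← Finset.sum_mul, Finset.sum_range_sub v (M+1),
      Finset.sum_range_succ (fun l => (v (l+1) - v l) * ∑ j ∈ Icc (l+1) M, q j) M]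
    have h3 : Icc (M+1) M = ∅ := Finset.Icc_eq_empty (by omega)
    rw [h3, Finset.sum_empty]
    ring

/-- Proof: `Ex(k+1) - Ex(k) = ∑_{l≤M} v(l)(P_{k+1}(l) - P_k(l)) = ∑_{1≤l≤M} (v(l)-v(l-1)) D(l)`,
`D(l) = ∑_{l≤j≤M} (P_{k+1}(j) - P_k(j))` (Abel; `D(0) = 0`).  As `0 ≤ v(l)-v(l-1) ≤ g(l-1)`, by `U_key`
`(k+1)(v(l)-v(l-1)) D(l) ≤ g(l-1) · (l/(1+pl)) P_k(l) = (2/p) P_k(l)` (if `D(l) < 0` the left side is `≤ 0`), since
`g(l-1) = 2 + 2/(pl) = 2(1+pl)/(pl)`.  Sum over `l`: total `≤ (2/p)`. -/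
theorem op_U (a β : ℝ) (hβ : 0 < β) (M k : ℕ) (h v : ℕ → ℝ) (hpos : ∀ l, 0 < h l) (hLC : LC h)
    (hv : ∀ l, 0 ≤ v (l+1) - v l ∧ v (l+1) - v l ≤ gg β l) :
    Ex a β M h v (k+1) - Ex a β M h v k ≤ 2 / (pp β * ((k:ℝ)+1)) := by
  have hp := pp_pos hβ
  have hop : ∀ k, 0 < op a β M h k := by
    intro k
    unfold op
    exact Finset.sum_pos (fun l _ => mul_pos (K_pos a β k l) (hpos l)) ⟨0, mem_range.2 (Nat.succ_pos M)⟩
  set q : ℕ → ℝ := fun l => K a β (k+1) l * h l / op a β M h (k+1) - K a β k l * h l / op a β M h k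
    with hq
  have h1 : Ex a β M h v (k+1) - Ex a β M h v k = ∑ l ∈ range (M+1), v l * q l := by
    unfold Ex
    rw [Finset.sum_div, Finset.sum_div, ← Finset.sum_sub_distrib]
    refine Finset.sum_congr rfl fun l _ => ?_
    simp only [hq]
    ring
  have hD : ∀ l, ∑ j ∈ Icc l M, q j = (∑ j ∈ Icc l M, K a β (k+1) j * h j) / op a β M h (k+1)
        - (∑ j ∈ Icc l M, K a β k j * h j) / op a β M h k := by
    intro l
    rw [Finset.sum_div, Finset.sum_div, ← Finset.sum_sub_distrib]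
  have hI : Icc 0 M = range (M+1) := by
    ext x
    simp [Nat.lt_succ_iff]
  have hD0 : ∑ j ∈ Icc 0 M, q j = 0 := by
    rw [hD, hI]
    show op a β M h (k+1) / op a β M h (k+1) - op a β M h k / op a β M h k = 0
    rw [div_self (hop _).ne', div_self (hop _).ne', sub_self]
  have hk1 : (0:ℝ) < (k:ℝ) + 1 := by positivity
  rw [h1, OneU_abel, hD0, mul_zero, zero_add]
  have h2 : ∀ l ∈ range M, (v (l+1) - v l) * ∑ j ∈ Icc (l+1) M, q j ≤
      2 / (pp β * ((k:ℝ)+1)) * (K a β k (l+1) * h (l+1) / op a β M h k) := by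
    intro l hl
    rw [mem_range] at hl
    have h3 := U_key a β hβ M k h hpos hLC (l+1) (by omega)
    rw [← hD] at h3
    set D := ∑ j ∈ Icc (l+1) M, q j
    set P := K a β k (l+1) * h (l+1) / op a β M h k with hP
    have hP0 : 0 ≤ P := (div_pos (mul_pos (K_pos a β k (l+1)) (hpos (l+1))) (hop k)).le
    have hl1 : (0:ℝ) < (l:ℝ) + 1 := by positivity
    push_cast at h3
    have h4 : D ≤ (((l:ℝ)+1) / (1 + pp β * ((l:ℝ)+1)) * P) / ((k:ℝ)+1) := by
      rw [le_div_iff₀ hk1]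
      linarith
    calc (v (l+1) - v l) * D ≤ (v (l+1) - v l) * ((((l:ℝ)+1) / (1 + pp β * ((l:ℝ)+1)) * P) / ((k:ℝ)+1)) :=
          mul_le_mul_of_nonneg_left h4 (hv l).1
      _ ≤ gg β l * ((((l:ℝ)+1) / (1 + pp β * ((l:ℝ)+1)) * P) / ((k:ℝ)+1)) :=
          mul_le_mul_of_nonneg_right (hv l).2 (by positivity)
      _ = 2 / (pp β * ((k:ℝ)+1)) * P := by
          unfold gg
          have h5 : (0:ℝ) < 1 + pp β * ((l:ℝ)+1) := by positivity
          field_simp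
          ring
  refine (Finset.sum_le_sum h2).trans ?_
  rw [← Finset.mul_sum]
  have h3 : ∑ l ∈ range M, K a β k (l+1) * h (l+1) / op a β M h k ≤ 1 := by
    rw [← Finset.sum_div, div_le_one (hop k)]
    unfold op
    rw [Finset.sum_range_succ']
    have := mul_pos (K_pos a β k 0) (hpos 0)
    linarith
  calc 2 / (pp β * ((k:ℝ)+1)) * ∑ l ∈ range M, K a β k (l+1) * h (l+1) / op a β M h k
      ≤ 2 / (pp β * ((k:ℝ)+1)) * 1 := mul_le_mul_of_nonneg_left h3 (by positivity)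
    _ = _ := mul_one _

end H716SP
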