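import Pool.Agent.H716R3.SP.OneLC
import Pool.Agent.H716R3.SP.OneU
import Pool.Agent.H716R3.SP.OneLw
/-! Task T15: the iterates. -/
set_option autoImplicit false
open Finset
namespace H716SP

theorem iter_hpos0 (a β : ℝ) (M N : ℕ) : (∀ l, 0 ≤ hN a β M N l) ∧ 0 < hN a β M N 0 := by
  induction N with
  | zero =>
    refine ⟨fun l => ?_, ?_⟩
    · change 0 ≤ (if l = 0 then (1:ℝ) else 0)
      split_ifs <;> norm_num
    · change 0 < (if (0:ℕ) = 0 then (1:ℝ) else 0)
      norm_num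
  | succ N ih =>
    have h : ∀ k, 0 < hN a β M (N+1) k := fun k => op_pos a β M _ ih.1 ih.2 k
    exact ⟨fun l => (h l).le, h 0⟩

theorem iter_pos (a β : ℝ) (M N k : ℕ) : 0 < hN a β M (N+1) k :=
  op_pos a β M _ (iter_hpos0 a β M N).1 (iter_hpos0 a β M N).2 k

theorem iter_Ex_zero (a β : ℝ) (M k : ℕ) : Ex a β M (hN a β M 0) (vN a β M 0) k = 0 := by
  unfold Ex
  have h : ∑ l ∈ range (M+1), K a β k l * hN a β M 0 l * vN a β M 0 l = 0 := by
    refine Finset.sum_eq_zero fun l _ => ?_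
    change K a β k l * (if l = 0 then (1:ℝ) else 0) * (2 * (l:ℝ)) = 0
    by_cases hl : l = 0
    · subst hl; simp
    · rw [if_neg hl]; ring
  rw [h, zero_div]

/-- All the invariants, by induction on `N`.
`N = 0`: `LC_delta`; `hN 0 0 = 1`; slopes of `v0` are `2 ∈ [0, g]` (`two_le_gg`).
Step: `hN (N+1) = op (hN N)` is `> 0` (`op_pos`) and log-concave (`op_LC`);
`vN (N+1) (l+1) - vN (N+1) l = 2 + Ex (l+1) - Ex l ∈ [0, g(l)]` by `op_U`, `op_Lw` when `N ≥ 1` (`hN N > 0`);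
when `N = 0`: `Ex a β M (hN 0) (vN 0) k = 0` for all `k` (only `l = 0` contributes and `vN 0 0 = 0`), so the slope is `2`. -/
theorem hN_props (a β : ℝ) (hβ : 0 < β) (M N : ℕ) :
    LC (hN a β M N) ∧ 0 < hN a β M N 0 ∧ (∀ k, 0 < hN a β M (N+1) k) ∧
      ∀ l, 0 ≤ vN a β M N (l+1) - vN a β M N l ∧ vN a β M N (l+1) - vN a β M N l ≤ gg β l := by
  induction N with
  | zero =>
    refine ⟨LC_delta, (iter_hpos0 a β M 0).2, iter_pos a β M 0, fun l => ?_⟩
    have e : vN a β M 0 (l+1) - vN a β M 0 l = 2 := by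
      change 2 * ((l+1 : ℕ) : ℝ) - 2 * (l:ℝ) = 2
      push_cast; ring
    rw [e]
    exact ⟨by norm_num, two_le_gg hβ l⟩
  | succ N ih =>
    refine ⟨op_LC a β hβ M _ ih.1 ih.2.1, (iter_hpos0 a β M (N+1)).2, iter_pos a β M (N+1),
      fun l => ?_⟩
    have e : vN a β M (N+1) (l+1) - vN a β M (N+1) l =
        2 + (Ex a β M (hN a β M N) (vN a β M N) (l+1) - Ex a β M (hN a β M N) (vN a β M N) l) := by
      change (2 * ((l+1 : ℕ) : ℝ) + 1 + Ex a β M (hN a β M N) (vN a β M N) (l+1)) -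
        (2 * (l:ℝ) + 1 + Ex a β M (hN a β M N) (vN a β M N) l) = _
      push_cast; ring
    rw [e]
    rcases N with _ | N
    · rw [iter_Ex_zero, iter_Ex_zero]
      have := two_le_gg hβ l
      constructor <;> linarith
    · have h1 := op_U a β hβ M l (hN a β M (N+1)) (vN a β M (N+1)) (iter_pos a β M N) ih.1
        ih.2.2.2
      have h2 := op_Lw a β hβ M l (hN a β M (N+1)) (vN a β M (N+1)) (iter_pos a β M N) ih.1
        ih.2.2.2
      unfold gg
      constructor <;> linarith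

end H716SP
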