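import Pool.Agent.H716R3.SP.MomB
/-! Task T21: the norm of the cut operator. -/
set_option autoImplicit false
open Finset
namespace H716SP

theorem rt_pos (a β : ℝ) (M j : ℕ) : 0 < rt a β M j := by
  sorry

theorem exp_two_Lm (a β : ℝ) (hβ : 0 < β) (M : ℕ) : Real.exp (2 * Lm a β M) = ⨆ j, rt a β M j := by
  sorry

theorem rt_le_exp (a β : ℝ) (hβ : 0 < β) (M j : ℕ) : rt a β M j ≤ Real.exp (2 * Lm a β M) := by
  sorry

/-- even moments: `mu (2j) ≤ exp(2 j Lm)` (product of the ratios, `mu 0 = 1`) -/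
theorem mu_even_le (a β : ℝ) (hβ : 0 < β) (M j : ℕ) : mu a β M (2*j) ≤ Real.exp (2 * Lm a β M * j) := by
  sorry

/-- `rt` converges to its supremum (monotone bounded) -/
theorem rt_tendsto (a β : ℝ) (hβ : 0 < β) (M : ℕ) :
    Filter.Tendsto (fun N => (1/2) * Real.log (rt a β M N)) Filter.atTop (nhds (Lm a β M)) := by
  sorry

/-- The norm inequality.  Proof: if `f = 0` on `range (M+1)` trivial.  Let `F j = ∑_{k≤M} f k (op^{2j} f) k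
= ∑_{k≤M} (op^j f k)²` (`op_symm`).  `F` is log-convex (Cauchy–Schwarz: `F(j+1)² ≤ F j F (j+2)`), positive, so
`(F 1/F 0)^j ≤ F j/F 0`.  As `hN 1 k = K(k,0) > 0` on `k ≤ M`, `f ≤ C hN 1` there for some `C`, so
`F j ≤ C² ∑_k hN 1 k (op^{2j} hN 1) k = C² mu (2j+2) ≤ C² exp(2 Lm (j+1))`.  Hence
`(F 1/F 0)^j ≤ C' exp(2 Lm)^j` for all `j`, so `F 1/F 0 ≤ exp (2 Lm)` (otherwise let `j → ∞`), and
`F 1 = ∑ (op f k)²`. -/
theorem op_norm (a β : ℝ) (hβ : 0 < β) (M : ℕ) (f : ℕ → ℝ) (hf : ∀ k, 0 ≤ f k) :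
    ∑ k ∈ range (M+1), (op a β M f k)^2 ≤ Real.exp (2 * Lm a β M) * ∑ k ∈ range (M+1), (f k)^2 := by
  sorry

/-- Proof: for `h = hN a β M j` restricted to `k ≤ M` (zero beyond), `op a β (M+1) h = op a β M h ≥ 0`, so
`rt a β M j = ∑_{k≤M}(op a β M h k)²/∑_{k≤M} h k² ≤ ∑_{k≤M+1}(op a β (M+1) h k)²/∑ h² ≤ exp(2 Lm (M+1))` (`op_norm`);
(`∑_{k≤M} (hN (j+1) k)² = mu (2j+2)` by `hN_inner`).  Take the supremum over `j`. -/
theorem Lm_succ (a β : ℝ) (hβ : 0 < β) (M : ℕ) : Lm a β M ≤ Lm a β (M+1) := by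
  sorry

theorem Lm_mono (a β : ℝ) (hβ : 0 < β) : Monotone (Lm a β) := by
  sorry

/-- bounded: `rt ≤ Bd²` so `Lm ≤ log Bd` -/
theorem Lm_bdd (a β : ℝ) (hβ : 0 < β) : BddAbove (Set.range (Lm a β)) := by
  sorry

theorem Lm_le_LL (a β : ℝ) (hβ : 0 < β) (M : ℕ) : Lm a β M ≤ LL a β := by
  sorry

theorem Lm_tendsto (a β : ℝ) (hβ : 0 < β) : Filter.Tendsto (Lm a β) Filter.atTop (nhds (LL a β)) := by
  sorry

end H716SP
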