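import Pool.Agent.H716R3.SP.PathSum
import Pool.Agent.H716R3.SP.Norm
/-! Task T30: divergence of the generating function when `LL a β > 0`. -/
set_option autoImplicit false
open Finset
namespace H716SP

/-- `((opE (wE a β))^[j] dE) k ≥ ofReal (hN a β M j k)` for every `M` (induction on `j`; a finite partial sum). -/
theorem opE_ge (a β : ℝ) (M j k : ℕ) : ENNReal.ofReal (hN a β M j k) ≤ (opE (wE a β))^[j] dE k := by
  induction j generalizing k with
  | zero =>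
    simp only [hN, Function.iterate_zero, id_eq, dE]
    split_ifs
    · simp
    · simp
  | succ j ih =>
    rw [Function.iterate_succ_apply']
    simp only [hN, op]
    rw [ENNReal.ofReal_sum_of_nonneg (fun l _ => mul_nonneg (K_pos a β k l).le (hN_nonneg a β M j l))]
    unfold opE
    refine le_trans ?_ (ENNReal.sum_le_tsum (range (M+1)))
    refine Finset.sum_le_sum fun l _ => ?_
    rw [ENNReal.ofReal_mul (K_pos a β k l).le]
    unfold K
    rw [ENNReal.ofReal_mul (Nat.cast_nonneg _), ENNReal.ofReal_natCast]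
    exact mul_le_mul' le_rfl (ih l)

/-- if `LL a β > 0` then for some `M`, `mu a β M (2j)` does not tend to `0` (indeed `Lm a β M > 0` for some `M`, `rt` is
nondecreasing with supremum `> 1`, so eventually `mu (2j+2) ≥ mu (2j)`), hence the sum of `mu a β M (x+1)` is infinite -/
theorem mu_tsum_top (a β : ℝ) (hβ : 0 < β) (hL : 0 < LL a β) :
    ∃ M, ∑' x : ℕ, ENNReal.ofReal (mu a β M (x+1)) = ⊤ := by
  obtain ⟨M, hM⟩ := exists_lt_of_lt_ciSup (f := fun M => Lm a β M) hL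
  refine ⟨M, ?_⟩
  have h1 : 1 < ⨆ j, rt a β M j := by
    rw [← exp_two_Lm a β hβ M]
    exact Real.one_lt_exp_iff.2 (by linarith)
  obtain ⟨j, hj⟩ := exists_lt_of_lt_ciSup h1
  have h2 : ∀ i, j ≤ i → mu a β M (2*i) ≤ mu a β M (2*(i+1)) := by
    intro i hi
    have h3 : 1 < rt a β M i := lt_of_lt_of_le hj (rt_mono a β M hi)
    unfold rt at h3
    rw [one_lt_div (mu_pos _ _ _ _)] at h3
    exact h3.le
  have h4 : ∀ i, mu a β M (2*j) ≤ mu a β M (2*(j+i)) := by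
    intro i
    induction i with
    | zero => exact le_rfl
    | succ i ih => exact ih.trans (h2 (j+i) (by omega))
  have h5 : Function.Injective (fun i : ℕ => 2*(j+i)+1) := by
    intro x y hxy
    simp only at hxy
    omega
  have h6 := ENNReal.tsum_comp_le_tsum_of_injective h5
    (fun x : ℕ => ENNReal.ofReal (mu a β M (x+1)))
  have h7 : (⊤ : ENNReal) ≤ ∑' i : ℕ, ENNReal.ofReal (mu a β M (2*(j+i)+1+1)) := by
    have h8 : ENNReal.ofReal (mu a β M (2*j)) ≠ 0 := by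
      rw [Ne, ENNReal.ofReal_eq_zero, not_le]
      exact mu_pos _ _ _ _
    rw [← ENNReal.tsum_const_eq_top_of_ne_zero (α := ℕ) h8]
    exact ENNReal.tsum_le_tsum fun i => ENNReal.ofReal_le_ofReal (h4 (i+1))
  exact top_le_iff.1 (h7.trans h6)

theorem lb_wE_zero (a β : ℝ) : wE a β 0 = 1 := by
  simp [wE, w]

theorem lb_Ph_eq (u : ℕ → ENNReal) (m t : ℤ) (hmt : m ≤ t) (ℓ : ℤ → ℕ) :
    Ph u m t u ℓ = ∏ y ∈ Finset.Icc m t, u (ℓ y) := by
  unfold Ph
  rw [← Finset.Ioc_insert_left hmt, Finset.prod_insert (by simp)]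

theorem lb_Ph_eq' (u : ℕ → ENNReal) (hu : u 0 = 1) (n x : ℕ) (hx : x ≤ n) (ℓ : ℤ → ℕ)
    (hℓ : ∀ y : ℤ, y < 0 ∨ (x:ℤ) < y → ℓ y = 0) :
    Ph u 0 x u ℓ = Ph u (-(n:ℤ)) n u ℓ := by
  rw [lb_Ph_eq u 0 x (by omega), lb_Ph_eq u _ _ (by omega)]
  apply Finset.prod_subset
  · intro y hy
    rw [Finset.mem_Icc] at hy ⊢
    omega
  · intro y _ hy
    rw [Finset.mem_Icc, not_and_or, not_le, not_le] at hy
    rw [hℓ y hy, hu]

theorem lb_term (u : ℕ → ENNReal) (hu : u 0 = 1) (n : ℕ) :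
    ∑' x : ℕ, W 0 x 0 n x (Ph u 0 x u) ≤
      ∑ p ∈ Icc (-(n:ℤ)) n, W (-(n:ℤ)) n 0 n p (Ph u (-(n:ℤ)) n u) := by
  rw [tsum_eq_sum (s := range (n+1))]
  · have h1 : ∀ x ∈ range (n+1), W 0 x 0 n x (Ph u 0 x u) ≤
        W (-(n:ℤ)) n 0 n (x:ℤ) (Ph u (-(n:ℤ)) n u) := by
      intro x hx
      rw [Finset.mem_range] at hx
      rw [W_congr 0 x 0 x n (Ph u 0 x u) (Ph u (-(n:ℤ)) n u) (fun ℓ hℓ _ =>
        lb_Ph_eq' u hu n x (by omega) ℓ hℓ)]
      exact W_mono_interval _ _ _ _ _ _ (by omega) (by omega) n _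
    refine (Finset.sum_le_sum h1).trans ?_
    have h2 : ∑ x ∈ range (n+1), W (-(n:ℤ)) n 0 n (x:ℤ) (Ph u (-(n:ℤ)) n u) =
        ∑ p ∈ (range (n+1)).map ⟨fun x : ℕ => (x:ℤ), Nat.cast_injective⟩,
          W (-(n:ℤ)) n 0 n p (Ph u (-(n:ℤ)) n u) := by
      rw [Finset.sum_map]
      rfl
    rw [h2]
    apply Finset.sum_le_sum_of_subset
    intro p hp
    rw [Finset.mem_map] at hp
    obtain ⟨x, hx, rfl⟩ := hp
    rw [Finset.mem_range] at hx
    rw [Finset.mem_Icc]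
    simp only [Function.Embedding.coeFn_mk]
    omega
  · intro x hx
    rw [Finset.mem_range, not_lt] at hx
    apply W_zero_of_dist
    rw [sub_zero, Nat.abs_cast]
    omega

/-- Proof: keep only the endpoints `x = 0..n`; `W (-n) n 0 n x Φ_n ≥ W 0 x 0 n x Φ_n` (`W_mono_interval`) and there
`Φ_n = Ph (wE a β) 0 x (wE a β)` (`W_congr`, `wE a β 0 = 1`); terms with `x > n` vanish (`W_zero_of_dist`); so the sum is
`≥ ∑'_x Wt 0 x 0 x (Ph ..) = ∑'_x (opE^[x+1] dE) 0` (`path_formula` with `r = R = 0`) `≥ ∑'_x ofReal (mu a β M (x+1)) = ⊤`. -/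
theorem LB_E (a β : ℝ) (hβ : 0 < β) (hL : 0 < LL a β) :
    ∑' n : ℕ, ∑ p ∈ Icc (-(n:ℤ)) n, W (-(n:ℤ)) n 0 n p (Ph (wE a β) (-(n:ℤ)) n (wE a β)) = ⊤ := by
  obtain ⟨M, hM⟩ := mu_tsum_top a β hβ hL
  have h1 : ∀ x : ℕ, ENNReal.ofReal (mu a β M (x+1)) ≤
      ∑' n : ℕ, W 0 x 0 n x (Ph (wE a β) 0 x (wE a β)) := by
    intro x
    have h2 := path_formula (wE a β) (lb_wE_zero a β) 0 0 x
    have h3 : ∑' c, GE (wE a β) 0 c * (opE (wE a β))^[x+1] (GE (wE a β) 0) c =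
        (opE (wE a β))^[x+1] dE 0 := by
      rw [tsum_eq_single 0]
      · simp [GE, dE]
      · intro c hc
        simp [GE, dE, hc]
    rw [h3] at h2
    simp only [Nat.cast_zero, neg_zero, add_zero] at h2
    unfold Wt at h2
    rw [h2]
    exact opE_ge a β M (x+1) 0
  rw [← top_le_iff, ← hM]
  calc ∑' x : ℕ, ENNReal.ofReal (mu a β M (x+1))
      ≤ ∑' x : ℕ, ∑' n : ℕ, W 0 x 0 n x (Ph (wE a β) 0 x (wE a β)) := ENNReal.tsum_le_tsum h1
    _ = ∑' n : ℕ, ∑' x : ℕ, W 0 x 0 n x (Ph (wE a β) 0 x (wE a β)) := ENNReal.tsum_comm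
    _ ≤ _ := ENNReal.tsum_le_tsum fun n => lb_term _ (lb_wE_zero a β) n

end H716SP
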