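import Pool.Agent.H716R3.SP.Defs
/-! Task T03: window sums of products of binomial coefficients (pure combinatorics).
`TT(l) = C(κ+l,l) C(κ+s-l,s-l)`, `TT1(l) = C(κ+1+l,l) C(κ-1+s-l,s-l)` for `0 ≤ l ≤ s`, `κ ≥ 1`. -/
set_option autoImplicit false
open Finset
namespace H716SP

noncomputable def TT (κ s l : ℕ) : ℝ := ((κ+l).choose l : ℝ) * ((κ+(s-l)).choose (s-l) : ℝ)
noncomputable def TT1 (κ s l : ℕ) : ℝ := ((κ+1+l).choose l : ℝ) * ((κ-1+(s-l)).choose (s-l) : ℝ)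

private theorem lcw_pascal (κ t : ℕ) (hκ : 1 ≤ κ) :
    (((κ+(t+1)).choose (t+1) : ℕ) : ℝ) - ((κ-1+(t+1)).choose (t+1) : ℝ) = ((κ+t).choose t : ℝ) := by
  obtain ⟨k, rfl⟩ : ∃ k, κ = k + 1 := ⟨κ - 1, by omega⟩
  have h : (k+1+(t+1)).choose (t+1) = (k+1+t).choose t + (k+1+t).choose (t+1) := by
    rw [show k+1+(t+1) = (k+1+t)+1 by ring, Nat.choose_succ_succ]
  have e : k + 1 - 1 + (t+1) = k+1+t := by omega
  rw [h, e]
  push_cast
  ring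

private theorem lcw_pascal2 (κ L : ℕ) :
    (((κ+1+L).choose L : ℕ) : ℝ) + ((κ+(L+1)).choose (L+1) : ℝ) = ((κ+1+(L+1)).choose (L+1) : ℝ) := by
  have h : (κ+1+(L+1)).choose (L+1) = (κ+1+L).choose L + (κ+(L+1)).choose (L+1) := by
    rw [show κ+1+(L+1) = (κ+1+L)+1 by ring, Nat.choose_succ_succ, show κ+(L+1) = κ+1+L by ring]
  rw [h]
  push_cast
  ring

/-- `(κ+1) C(κ+1+n,n) = (κ+1+n) C(κ+n,n)` -/
private theorem lcw_P (κ n : ℕ) :
    ((κ:ℝ)+1) * ((κ+1+n).choose n : ℝ) = ((κ:ℝ)+1+n) * ((κ+n).choose n : ℝ) := by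
  have h := Nat.add_one_mul_choose_eq (κ+n) κ
  have e1 : (κ+1+n).choose n = (κ+1+n).choose (κ+1) := (Nat.choose_symm_add).symm
  have e2 : (κ+n).choose n = (κ+n).choose κ := (Nat.choose_symm_add).symm
  rw [e1, e2]
  have e3 : κ+n+1 = κ+1+n := by ring
  rw [e3] at h
  have h' : ((κ+1+n : ℕ) : ℝ) * ((κ+n).choose κ : ℝ) = ((κ+1+n).choose (κ+1) : ℝ) * ((κ+1 : ℕ) : ℝ) := by
    exact_mod_cast h
  push_cast at h'
  linarith

/-- `(n+1) C(κ+n+1,n+1) = (κ+1) C(κ+1+n,n)` -/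
private theorem lcw_Q (κ n : ℕ) :
    ((n:ℝ)+1) * ((κ+(n+1)).choose (n+1) : ℝ) = ((κ:ℝ)+1) * ((κ+1+n).choose n : ℝ) := by
  have h := Nat.choose_succ_right_eq (κ+(n+1)) n
  have e : κ+(n+1) - n = κ+1 := by omega
  rw [e, show κ+(n+1) = κ+1+n by ring] at h
  have h' : ((κ+1+n).choose (n+1) : ℝ) * ((n:ℝ)+1) = ((κ+1+n).choose n : ℝ) * ((κ:ℝ)+1) := by
    exact_mod_cast h
  rw [show κ+(n+1) = κ+1+n by ring]
  linarith

/-- Closed form (checked numerically).  Proof: induction on `L`; the step is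
`C(κ+1+L,L) C(κ+s-L-1,s-L-1) - C(κ+L,L-1) C(κ+s-L,s-L) = TT(L) - TT1(L)`, by Pascal's rule:
`C(κ+1+L,L) = C(κ+L,L) + C(κ+L,L-1)`, `C(κ+s-L,s-L) = C(κ+s-L-1,s-L) + C(κ+s-L-1,s-L-1)`. -/
theorem closed_form (κ s L : ℕ) (hκ : 1 ≤ κ) (hL : L < s) :
    ∑ l ∈ range (L+1), (TT κ s l - TT1 κ s l) =
      ((κ+1+L).choose L : ℝ) * ((κ+(s-L-1)).choose (s-L-1) : ℝ) := by
  induction L with
  | zero =>
    obtain ⟨t, rfl⟩ : ∃ t, s = t + 1 := ⟨s - 1, by omega⟩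
    have h := lcw_pascal κ t hκ
    simp only [TT, TT1, zero_add, Finset.sum_range_one, Nat.choose_zero_right, Nat.cast_one,
      one_mul, Nat.sub_zero, Nat.add_sub_cancel]
    exact h
  | succ L ih =>
    obtain ⟨t, rfl⟩ : ∃ t, s = t + 1 + (L + 1) := ⟨s - (L+1) - 1, by omega⟩
    rw [Finset.sum_range_succ, ih (by omega)]
    have h := lcw_pascal κ t hκ
    have h2 := lcw_pascal2 κ L
    have e1 : t + 1 + (L + 1) - L - 1 = t + 1 := by omega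
    have e2 : t + 1 + (L + 1) - (L + 1) = t + 1 := by omega
    rw [TT, TT1, e1, e2, Nat.add_sub_cancel, ← h2, ← h]
    ring

/-- Vandermonde: both total sums equal `C(2κ+s+1, s)`.  (Or: `closed_form` at `L = s-1` plus the last term
`TT(s) - TT1(s) = C(κ+s,s) - C(κ+1+s,s) = -C(κ+s,s-1)`.) -/
theorem total_eq (κ s : ℕ) (hκ : 1 ≤ κ) :
    ∑ l ∈ range (s+1), TT1 κ s l = ∑ l ∈ range (s+1), TT κ s l := by
  rcases Nat.eq_zero_or_pos s with rfl | hs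
  · simp [TT, TT1]
  · obtain ⟨t, rfl⟩ : ∃ t, s = t + 1 := ⟨s - 1, by omega⟩
    have h := closed_form κ (t+1) t hκ (by omega)
    rw [Finset.sum_sub_distrib] at h
    rw [Finset.sum_range_succ _ (t+1), Finset.sum_range_succ _ (t+1)]
    have h2 := lcw_pascal2 κ t
    simp only [TT, TT1, Nat.sub_self, Nat.choose_zero_right, Nat.cast_one, mul_one, add_zero,
      Nat.add_sub_cancel_left] at h ⊢
    linarith

private theorem lcw_split (f : ℕ → ℝ) (u n : ℕ) (hun : u ≤ n) :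
    ∑ l ∈ Icc u n, f l = ∑ l ∈ range (n+1), f l - ∑ l ∈ range u, f l := by
  have h1 : Icc u n = Ico u (n+1) := by ext x; simp [Nat.lt_succ_iff]
  rw [h1, Finset.sum_Ico_eq_sub _ (by omega)]

private theorem lcw_diff (κ s u : ℕ) (hκ : 1 ≤ κ) (hu : 2*u ≤ s) (hu1 : 1 ≤ u) :
    ∑ l ∈ Icc u (s-u), TT κ s l - ∑ l ∈ Icc u (s-u), TT1 κ s l =
      ((κ+1+(s-u)).choose (s-u) : ℝ) * ((κ+(u-1)).choose (u-1) : ℝ) -
      ((κ+1+(u-1)).choose (u-1) : ℝ) * ((κ+(s-u)).choose (s-u) : ℝ) := by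
  have h1 := closed_form κ s (s-u) hκ (by omega)
  have h2 := closed_form κ s (u-1) hκ (by omega)
  have e1 : s - (s-u) - 1 = u - 1 := by omega
  have e2 : s - (u-1) - 1 = s - u := by omega
  have e3 : u - 1 + 1 = u := by omega
  rw [e1] at h1
  rw [e2, e3] at h2
  rw [← Finset.sum_sub_distrib, lcw_split _ u (s-u) (by omega), h1, h2]

/-- (a).  Proof: `u = 0` is `total_eq`.  For `u ≥ 1`, by `closed_form` the difference is `Π(s-u) - Π(u-1)` with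
`Π(s-u) = C(κ+1+s-u,s-u) C(κ+u-1,u-1)`, `Π(u-1) = C(κ+u,u-1) C(κ+s-u,s-u)` and
`Π(s-u)/Π(u-1) = (κ+1+s-u)/(κ+u) ≥ 1`. -/
theorem lc_win_a (κ s u : ℕ) (hκ : 1 ≤ κ) (hu : 2*u ≤ s) :
    ∑ l ∈ Icc u (s-u), TT1 κ s l ≤ ∑ l ∈ Icc u (s-u), TT κ s l := by
  rcases Nat.eq_zero_or_pos u with rfl | hu1
  · have h1 : Icc 0 (s-0) = range (s+1) := by ext x; simp [Nat.lt_succ_iff]
    rw [h1, total_eq κ s hκ]
  · have h := lcw_diff κ s u hκ hu hu1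
    obtain ⟨m, rfl⟩ : ∃ m, u = m + 1 := ⟨u - 1, by omega⟩
    rw [Nat.add_sub_cancel] at h
    set n := s - (m+1) with hn
    have hmn : (m:ℝ) + 1 ≤ n := by
      have : m + 1 ≤ n := by omega
      exact_mod_cast this
    have p1 := lcw_P κ n
    have p2 := lcw_P κ m
    set A : ℝ := ((κ+1+n).choose n : ℝ)
    set B : ℝ := ((κ+n).choose n : ℝ) with hB
    set C : ℝ := ((κ+1+m).choose m : ℝ)
    set D : ℝ := ((κ+m).choose m : ℝ) with hD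
    have hB0 : 0 ≤ B := by positivity
    have hD0 : 0 ≤ D := by positivity
    have hk : (0:ℝ) < (κ:ℝ) + 1 := by positivity
    have key : ((κ:ℝ)+1) * (A * D) - ((κ:ℝ)+1) * (C * B) = ((n:ℝ) - m) * (B * D) := by
      linear_combination D * p1 - B * p2
    have h3 : 0 ≤ ((n:ℝ) - m) * (B * D) := mul_nonneg (by linarith) (mul_nonneg hB0 hD0)
    have h4 : 0 ≤ ((κ:ℝ)+1) * (A * D - C * B) := by linarith
    have h5 : 0 ≤ A * D - C * B := nonneg_of_mul_nonneg_right h4 hk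
    linarith

/-- (b).  Proof: `∑_{Icc u (s-u)} TT1(l-1) = ∑_{Icc u (s-u)} TT1(l) + TT1(u-1) - TT1(s-u)`; with (a)'s formula the
difference is `[Π(s-u) + TT1(s-u)] - [Π(u-1) + TT1(u-1)]
 = C(κ+1+s-u,s-u) C(κ+u,u) - C(κ+u,u-1) C(κ+s-u+1,s-u+1) ≥ 0` (ratio `(s-u+1)/u ≥ 1`). -/
theorem lc_win_b (κ s u : ℕ) (hκ : 1 ≤ κ) (hu : 2*u ≤ s) (hu1 : 1 ≤ u) :
    ∑ l ∈ Icc u (s-u), TT1 κ s (l-1) ≤ ∑ l ∈ Icc u (s-u), TT κ s l := by
  have h := lcw_diff κ s u hκ hu hu1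
  obtain ⟨m, rfl⟩ : ∃ m, u = m + 1 := ⟨u - 1, by omega⟩
  obtain ⟨n, hn⟩ : ∃ n, s - (m+1) = n := ⟨_, rfl⟩
  rw [Nat.add_sub_cancel, hn] at h
  rw [hn]
  have hmn' : m + 1 ≤ n := by omega
  have hmn : (m:ℝ) + 1 ≤ n := by exact_mod_cast hmn'
  -- shift
  have hshift : ∑ l ∈ Icc (m+1) n, TT1 κ s (l-1) =
      ∑ l ∈ Icc (m+1) n, TT1 κ s l + TT1 κ s m - TT1 κ s n := by
    rw [lcw_split (fun l => TT1 κ s l) (m+1) n hmn']
    have h1 : ∑ l ∈ Icc (m+1) n, TT1 κ s (l-1) = ∑ l ∈ Ico m n, TT1 κ s l := by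
      have h2 : Icc (m+1) n = Ico (m+1) (n+1) := by ext x; simp [Nat.lt_succ_iff]
      rw [h2, ← Finset.sum_Ico_add' (fun l => TT1 κ s (l-1)) m n 1]
      exact Finset.sum_congr rfl fun l _ => by rw [Nat.add_sub_cancel]
    rw [h1, Finset.sum_Ico_eq_sub _ (by omega), Finset.sum_range_succ _ n,
      Finset.sum_range_succ _ m]
    ring
  have hs1 : s - n = m + 1 := by omega
  have hs2 : s - m = n + 1 := by omega
  have p1 := lcw_pascal κ m hκ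
  have p2 := lcw_pascal κ n hκ
  have q1 := lcw_Q κ m
  have q2 := lcw_Q κ n
  have e1 : TT1 κ s n = ((κ+1+n).choose n : ℝ) * ((κ-1+(m+1)).choose (m+1) : ℝ) := by
    rw [TT1, hs1]
  have e2 : TT1 κ s m = ((κ+1+m).choose m : ℝ) * ((κ-1+(n+1)).choose (n+1) : ℝ) := by
    rw [TT1, hs2]
  rw [e1, e2] at hshift
  set A : ℝ := ((κ+1+n).choose n : ℝ) with hA
  set B : ℝ := ((κ+n).choose n : ℝ)
  set C : ℝ := ((κ+1+m).choose m : ℝ)
  set D : ℝ := ((κ+m).choose m : ℝ)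
  set E : ℝ := ((κ-1+(m+1)).choose (m+1) : ℝ)
  set F : ℝ := ((κ-1+(n+1)).choose (n+1) : ℝ)
  set G : ℝ := ((κ+(m+1)).choose (m+1) : ℝ) with hG
  set W : ℝ := ((κ+(n+1)).choose (n+1) : ℝ)
  have hA0 : 0 ≤ A := by positivity
  have hG0 : 0 ≤ G := by positivity
  have hk : (0:ℝ) < (κ:ℝ) + 1 := by positivity
  have hn0 : (0:ℝ) < (n:ℝ) + 1 := by positivity
  -- the difference is `A * G - C * W`
  have hd : A * D - C * B + A * E - C * F = A * G - C * W := by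
    rw [← p1, ← p2]; ring
  have key : ((κ:ℝ)+1) * (((n:ℝ)+1) * (A * G - C * W)) = ((κ:ℝ)+1) * (((n:ℝ) - m) * (A * G)) := by
    linear_combination (-(C * ((κ:ℝ)+1))) * q2 + (((κ:ℝ)+1) * A) * q1
  have key2 : ((n:ℝ)+1) * (A * G - C * W) = ((n:ℝ) - m) * (A * G) := mul_left_cancel₀ hk.ne' key
  have h3 : 0 ≤ ((n:ℝ)+1) * (A * G - C * W) := by
    rw [key2]; exact mul_nonneg (by linarith) (mul_nonneg hA0 hG0)
  have h5 : 0 ≤ A * G - C * W := nonneg_of_mul_nonneg_right h3 hn0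
  rw [hshift]
  linarith

end H716SP
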