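import Pool.Agent.H716R3.SP.Win
import Pool.Agent.H716R3.SP.LCwin
/-! Task T04: the log-concavity inequality for a fixed total `s`. -/
set_option autoImplicit false
open Finset
namespace H716SP

/-- `ε(l) = e^{-(β/2)(2l-s)²}` -/
noncomputable def ep (β : ℝ) (s l : ℕ) : ℝ := Real.exp (-(β/2) * (DD s l)^2)

/-- Window version.  Proof (`ε` is symmetric about `s/2` and increases towards the middle).
Put `x(l) = TT(l) - TT1(l-1)` for `l ≥ 1`.  By `win_ge` (with `u0 = u+1`, `m = ε`, `x`, windows `≥ 0` by `lc_win_b`)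
`∑_{Icc (u+1) (s-u-1)} ε(l) x(l) ≥ ε(u+1) S`, `S = ∑_{Icc (u+1) (s-u-1)} x(l) ≥ 0` (if `2(u+1) ≤ s`; otherwise the sum
is empty), and `ε(u+1) ≥ ε(u) = ε(s-u) ≥ ε(s-u+1)`.  So RHS - LHS
`= ∑_{Icc (u+1) (s-u-1)} ε(l) x(l) + ε(u) TT(u) + ε(s-u) (TT(s-u) - TT1(s-u-1)) - ε(s-u+1) TT1(s-u)`
`≥ ε(u) [S + TT(u) + TT(s-u) - TT1(s-u-1)] - ε(s-u+1) TT1(s-u)
 = ε(u) [∑_{Icc u (s-u)} TT - ∑_{Icc u (s-u-1)} TT1] - ε(s-u+1) TT1(s-u)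
 ≥ (ε(u) - ε(s-u+1)) TT1(s-u) ≥ 0` by `lc_win_a`.  (Treat `s - u = u` separately.) -/
theorem lc_win_ep (β : ℝ) (hβ : 0 < β) (κ s u : ℕ) (hκ : 1 ≤ κ) (hu : 2*u ≤ s) :
    ∑ l ∈ Icc u (s-u), TT1 κ s l * ep β s (l+1) ≤ ∑ l ∈ Icc u (s-u), TT κ s l * ep β s l := by
  sorry

/-- Proof: `win_sum_nonneg` with `x l = TT κ s l * ep β s l - TT1 κ s l * ep β s (l+1)` and `lc_win_ep`. -/
theorem lc_per_s (β : ℝ) (hβ : 0 < β) (κ s : ℕ) (hκ : 1 ≤ κ) (m : ℕ → ℝ) (hm0 : ∀ l, 0 ≤ m l)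
    (hsym : ∀ l, l ≤ s → m (s - l) = m l)
    (hmono : ∀ l, 2 * l + 1 ≤ s → m l ≤ m (l + 1)) :
    ∑ l ∈ range (s+1), m l * (TT1 κ s l * ep β s (l+1)) ≤
      ∑ l ∈ range (s+1), m l * (TT κ s l * ep β s l) := by
  sorry

end H716SP
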