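import Pool.Agent.H716R3.SP.PathBasic
/-! Task T33: the sums over `ω : Fin n → Bool` of the frozen statement are path sums `W`. -/
set_option autoImplicit false
open Finset
namespace H716SP

private theorem lk_Sp_sum {n : ℕ} (ω : Fin n → Bool) (j : ℕ) :
    Sp ω j = ∑ i : Fin n, (if (i:ℕ) < j then (if ω i then (1:ℤ) else -1) else 0) := by
  unfold Sp
  rw [Finset.sum_filter]

private theorem lk_Sp_snoc_le {n : ℕ} (ω : Fin n → Bool) (b : Bool) (j : ℕ) (hj : j ≤ n) :
    Sp (Fin.snoc (α := fun _ => Bool) ω b) j = Sp ω j := by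
  rw [lk_Sp_sum, lk_Sp_sum, Fin.sum_univ_castSucc]
  simp only [Fin.snoc_castSucc, Fin.snoc_last, Fin.val_castSucc, Fin.val_last]
  rw [if_neg (by omega)]
  simp

private theorem lk_Sp_snoc_last {n : ℕ} (ω : Fin n → Bool) (b : Bool) :
    Sp (Fin.snoc (α := fun _ => Bool) ω b) (n+1) = Sp ω n + (if b then 1 else -1) := by
  rw [lk_Sp_sum, lk_Sp_sum, Fin.sum_univ_castSucc]
  simp only [Fin.snoc_castSucc, Fin.snoc_last, Fin.val_castSucc, Fin.val_last]
  rw [if_pos (Nat.lt_succ_self n)]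
  congr 1
  apply Finset.sum_congr rfl
  intro i _
  have hi := i.isLt
  rw [if_pos (show (i:ℕ) < n + 1 by omega), if_pos hi]

private theorem lk_lt_sum {n : ℕ} (ω : Fin n → Bool) (y : ℤ) :
    lt ω y = ∑ j : Fin (n+1), (if Sp ω (j:ℕ) = y then 1 else 0) := by
  unfold lt
  rw [Finset.card_filter]

private theorem lk_lt_snoc {n : ℕ} (ω : Fin n → Bool) (b : Bool) :
    lt (Fin.snoc (α := fun _ => Bool) ω b) =
      lt ω + Pi.single (Sp ω n + (if b then 1 else -1)) 1 := by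
  funext y
  rw [Pi.add_apply, lk_lt_sum, lk_lt_sum, Fin.sum_univ_castSucc]
  simp only [Fin.val_castSucc, Fin.val_last]
  congr 1
  · apply Finset.sum_congr rfl
    intro i _
    have hi := i.isLt
    simp only [lk_Sp_snoc_le ω b (i:ℕ) (by omega)]
  · simp only [lk_Sp_snoc_last]
    rw [Pi.single_apply]
    by_cases h : Sp ω n + (if b = true then 1 else -1) = y
    · rw [if_pos h, if_pos h.symm]
    · rw [if_neg h, if_neg (fun h' => h h'.symm)]

theorem lk_Sp_bound {n : ℕ} (ω : Fin n → Bool) (j : ℕ) : |Sp ω j| ≤ n := by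
  rw [lk_Sp_sum]
  calc |∑ i : Fin n, (if (i:ℕ) < j then (if ω i then (1:ℤ) else -1) else 0)|
      ≤ ∑ i : Fin n, |(if (i:ℕ) < j then (if ω i then (1:ℤ) else -1) else 0)| :=
        Finset.abs_sum_le_sum_abs _ _
    _ ≤ ∑ i : Fin n, 1 := by
        apply Finset.sum_le_sum
        intro i _
        split_ifs <;> simp
    _ = n := by simp

private theorem lk_sum_snoc {n : ℕ} (G : (Fin (n+1) → Bool) → ENNReal) :
    ∑ ω : Fin (n+1) → Bool, G ω =
      ∑ ω : Fin n → Bool, G (Fin.snoc (α := fun _ => Bool) ω true) +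
      ∑ ω : Fin n → Bool, G (Fin.snoc (α := fun _ => Bool) ω false) := by
  rw [← Equiv.sum_comp (Fin.snocEquiv (fun _ : Fin (n+1) => Bool)) G, Fintype.sum_prod_type,
    Fintype.sum_bool]
  rfl

theorem lk_gen (n : ℕ) : ∀ (m t : ℤ) (_ : m ≤ -(n:ℤ)) (_ : (n:ℤ) ≤ t) (p : ℤ) (F : (ℤ → ℕ) → ENNReal),
    ∑ ω : Fin n → Bool, (if Sp ω n = p then F (lt ω) else 0) = W m t 0 n p F := by
  induction n with
  | zero =>
    intro m t hm ht p F
    have hm' : m ≤ 0 := by simpa using hm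
    have ht' : 0 ≤ t := by simpa using ht
    have hlt : ∀ ω : Fin 0 → Bool, lt ω = Pi.single 0 1 := by
      intro ω
      funext y
      rw [lk_lt_sum, Pi.single_apply]
      have h0 : ∀ j : ℕ, Sp ω j = 0 := by
        intro j
        simp [Sp]
      simp only [h0]
      by_cases h : (0:ℤ) = y
      · rw [if_pos h, if_pos h.symm]
        simp
      · rw [if_neg h, if_neg (fun h' => h h'.symm)]
        simp
    have hSp : ∀ ω : Fin 0 → Bool, Sp ω 0 = 0 := by
      intro ω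
      simp [Sp]
    simp only [W, hlt, hSp]
    by_cases h : p = 0
    · subst h
      simp [hm', ht']
    · have h2 : ¬ ((0:ℤ) = p) := fun h' => h h'.symm
      have h3 : ¬ (p = 0 ∧ m ≤ 0 ∧ 0 ≤ t) := fun h' => h h'.1
      rw [if_neg h3]
      simp [h2]
  | succ n ih =>
    intro m t hm ht p F
    push_cast at hm ht
    rw [lk_sum_snoc]
    simp only [lk_Sp_snoc_last, lk_lt_snoc, W, if_true, Bool.false_eq_true, if_false]
    by_cases h : m ≤ p ∧ p ≤ t
    · rw [if_pos h, ← ih m t (by linarith) (by linarith) (p-1), ← ih m t (by linarith) (by linarith) (p+1)]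
      congr 1
      · apply Finset.sum_congr rfl
        intro ω _
        by_cases h1 : Sp ω n + 1 = p
        · rw [if_pos h1, if_pos (by omega), h1]
        · rw [if_neg h1, if_neg (by omega)]
      · apply Finset.sum_congr rfl
        intro ω _
        by_cases h1 : Sp ω n + -1 = p
        · rw [if_pos h1, if_pos (by omega), h1]
        · rw [if_neg h1, if_neg (by omega)]
    · rw [if_neg h]
      have hb : ∀ ω : Fin n → Bool, -(n:ℤ) ≤ Sp ω n ∧ Sp ω n ≤ n := fun ω => abs_le.mp (lk_Sp_bound ω n)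
      have h1 : ∀ ω : Fin n → Bool, ¬ (Sp ω n + 1 = p) := by
        intro ω h1
        have := hb ω
        apply h
        constructor <;> omega
      have h2 : ∀ ω : Fin n → Bool, ¬ (Sp ω n + -1 = p) := by
        intro ω h1
        have := hb ω
        apply h
        constructor <;> omega
      simp [h1, h2]

/-- Proof: induction on `n` with `Fin.snoc` (`Fin.snocEquiv`/`Fin.init`): for `ω = snoc ω' b`, `Sp ω j = Sp ω' j` for `j ≤ n`,
`Sp ω (n+1) = Sp ω' n ± 1`, `lt ω = lt ω' + Pi.single (Sp ω (n+1)) 1`; the walk stays in `[-n, n]` automatically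
(it may be easier to prove it first for every interval `[-m, t]` with `n ≤ m`, `n ≤ t`). -/
theorem link_W (n : ℕ) (p : ℤ) (F : (ℤ → ℕ) → ENNReal) :
    ∑ ω : Fin n → Bool, (if Sp ω n = p then F (lt ω) else 0) = W (-(n:ℤ)) n 0 n p F :=
  lk_gen n _ _ le_rfl le_rfl p F

theorem Sp_bound {n : ℕ} (ω : Fin n → Bool) (j : ℕ) : |Sp ω j| ≤ n := lk_Sp_bound ω j

private theorem lk_Sp_mem {n : ℕ} (ω : Fin n → Bool) (j : ℕ) : Sp ω j ∈ Icc (-(n:ℤ)) n :=
  Finset.mem_Icc.mpr (abs_le.mp (lk_Sp_bound ω j))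

theorem pairs_eq {n : ℕ} (ω : Fin n → Bool) : pairs ω = ∑ y ∈ Icc (-(n:ℤ)) n, (lt ω y)^2 := by
  have h0 : pairs ω = (Finset.univ.filter (fun p : Fin (n+1) × Fin (n+1) =>
      Sp ω (p.1:ℕ) = Sp ω (p.2:ℕ))).card := rfl
  rw [h0, Finset.card_eq_sum_card_fiberwise (f := fun p : Fin (n+1) × Fin (n+1) => Sp ω (p.1:ℕ))
    (t := Icc (-(n:ℤ)) n) (fun p _ => lk_Sp_mem ω _)]
  apply Finset.sum_congr rfl
  intro y _
  rw [sq]
  unfold lt
  rw [← Finset.card_product]
  congr 1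
  ext ⟨i, j⟩
  simp only [Finset.mem_filter, Finset.mem_univ, true_and, Finset.mem_product]
  constructor
  · rintro ⟨h1, h2⟩
    exact ⟨h2, h1.symm.trans h2⟩
  · rintro ⟨h1, h2⟩
    exact ⟨h1.trans h2.symm, h1⟩

theorem lt_sum {n : ℕ} (ω : Fin n → Bool) : ∑ y ∈ Icc (-(n:ℤ)) n, lt ω y = n + 1 := by
  have h0 : (Finset.univ : Finset (Fin (n+1))).card = n + 1 := by simp
  rw [← h0, Finset.card_eq_sum_card_fiberwise (f := fun j : Fin (n+1) => Sp ω (j:ℕ))
    (t := Icc (-(n:ℤ)) n) (fun p _ => lk_Sp_mem ω _)]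
  rfl

/-- `Ph` with `f = u` is the product over `Icc` -/
theorem Ph_lt (a β : ℝ) {n : ℕ} (ω : Fin n → Bool) :
    Ph (wE a β) (-(n:ℤ)) n (wE a β) (lt ω) = ENNReal.ofReal (Real.exp (a * (n+1)) * bw β ω) := by
  have h1 : Ph (wE a β) (-(n:ℤ)) n (wE a β) (lt ω) = ∏ y ∈ Icc (-(n:ℤ)) n, wE a β (lt ω y) := by
    unfold Ph
    rw [← Finset.Ioc_insert_left (show -(n:ℤ) ≤ n by omega), Finset.prod_insert (by simp)]
  have h2 : ∏ y ∈ Icc (-(n:ℤ)) n, wE a β (lt ω y) =
      ENNReal.ofReal (∏ y ∈ Icc (-(n:ℤ)) n, w a β (lt ω y)) := by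
    rw [ENNReal.ofReal_prod_of_nonneg (fun i _ => (w_pos a β _).le)]
    rfl
  rw [h1, h2]
  congr 1
  unfold w bw
  rw [← Real.exp_sum, ← Real.exp_add, Finset.sum_sub_distrib, ← Finset.mul_sum, ← Finset.mul_sum]
  have h3 : ∑ y ∈ Icc (-(n:ℤ)) n, (lt ω y : ℝ) = (n:ℝ) + 1 := by
    have := lt_sum ω
    exact_mod_cast this
  have h4 : ∑ y ∈ Icc (-(n:ℤ)) n, (lt ω y : ℝ)^2 = ((pairs ω : ℕ) : ℝ) := by
    have := pairs_eq ω
    rw [this]
    push_cast
    rfl
  rw [h3, h4]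
  congr 1
  ring

/-- reflection: `ω ↦ !ω` -/
theorem refl_sum (β : ℝ) (n : ℕ) (p : ℤ) :
    ∑ ω : Fin n → Bool, (if Sp ω n = -p then bw β ω else 0) =
      ∑ ω : Fin n → Bool, (if Sp ω n = p then bw β ω else 0) := by
  have hS : ∀ (ω : Fin n → Bool) (j : ℕ), Sp (fun i => !ω i) j = - Sp ω j := by
    intro ω j
    rw [lk_Sp_sum, lk_Sp_sum, ← Finset.sum_neg_distrib]
    apply Finset.sum_congr rfl
    intro i _
    by_cases hij : (i:ℕ) < j
    · cases ω i <;> simp [hij]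
    · simp [hij]
  have hP : ∀ ω : Fin n → Bool, pairs (fun i => !ω i) = pairs ω := by
    intro ω
    have h0 : ∀ ω : Fin n → Bool, pairs ω = (Finset.univ.filter (fun p : Fin (n+1) × Fin (n+1) =>
      Sp ω (p.1:ℕ) = Sp ω (p.2:ℕ))).card := fun _ => rfl
    rw [h0, h0]
    congr 1
    ext ⟨i, j⟩
    simp only [Finset.mem_filter, Finset.mem_univ, true_and, hS]
    exact neg_inj
  let e : (Fin n → Bool) ≃ (Fin n → Bool) :=
    { toFun := fun ω i => !ω i
      invFun := fun ω i => !ω i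
      left_inv := fun ω => by funext i; simp
      right_inv := fun ω => by funext i; simp }
  rw [← Equiv.sum_comp e]
  apply Finset.sum_congr rfl
  intro ω _
  have he : e ω = fun i => !ω i := rfl
  rw [he, hS]
  have hb : bw β (fun i => !ω i) = bw β ω := by
    unfold bw
    rw [hP]
  rw [hb]
  simp only [neg_inj]

end H716SP
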