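import Pool.Agent.H716R3.SP.RealB
/-! Task T35: the inequality linking the speed with `LL`. -/
set_option autoImplicit false
open Finset
namespace H716SP

/-- Proof.  Suppose `θ0 L < a - a0`, `L = LL a β`.  Choose `a' > a0` and `ε > 0` with `δ := a - a' - θ0 L - ε |L| > 0`.
For `n` large `ratio β θ0 ε n < 1/2`, so `Z_n ≤ 2 ∑_{ω : ||S_n|/n - θ0| ≤ ε} bw β ω`; group by `x = |S_n| ≤ n`
(`(∑ i, ±1 : ℝ) = Sp ω n`), and for `|x/n - θ0| ≤ ε`: `UB_real` bounds the group by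
`C exp(-a n + L x) ≤ C exp(-a n + (θ0 L + ε|L|) n)`.  So `e^{a' n} Z_n ≤ 2C (n+1) e^{-δ n}` for large `n`, hence summable,
contradicting `LB_real` for `a'` (`0 < LL a' β`). -/
theorem link_ineq (β θ0 : ℝ) (hβ : 0 < β)
    (hconv : ∀ ε, 0 < ε → Filter.Tendsto (ratio β θ0 ε) Filter.atTop (nhds 0))
    (a a0 : ℝ) (ha : LL a β < β) (h0 : ∀ a', a0 < a' → 0 < LL a' β) :
    a - a0 ≤ θ0 * LL a β := by
  sorry

end H716SP
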