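import Pool.Agent.H716R3.SP.LCs
import Pool.Agent.H716R3.SP.LCgen
/-! Task T05: the transfer operator preserves log-concavity. -/
set_option autoImplicit false
open Finset
namespace H716SP

/-- positivity -/
theorem op_pos (a β : ℝ) (M : ℕ) (h : ℕ → ℝ) (hh : ∀ l, 0 ≤ h l) (h0 : 0 < h 0) (k : ℕ) :
    0 < op a β M h k := by
  unfold op
  refine Finset.sum_pos' (fun l _ => mul_nonneg (K_pos _ _ _ _).le (hh l))
    ⟨0, Finset.mem_range.2 (Nat.succ_pos M), mul_pos (K_pos _ _ _ _) h0⟩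

/-- the product of two weights (helper355) -/
theorem olc_ww (a β : ℝ) (m m' s' : ℕ) (D : ℝ) (h1 : m + m' = s') (h2 : (m:ℝ) - m' = D) :
    w a β m * w a β m' = Real.exp (a * s' - β / 2 * (s':ℝ)^2) * Real.exp (-(β/2) * D^2) := by
  unfold w
  rw [← Real.exp_add, ← Real.exp_add]
  congr 1
  rw [← h2, ← h1]
  push_cast
  ring

/-- cutting `h` does not change the operator (helper355) -/
theorem olc_op (a β : ℝ) (M : ℕ) (h : ℕ → ℝ) (k : ℕ) :
    op a β M h k = ∑ l ∈ range (M+1), K a β k l * (if l ≤ M then h l else 0) := by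
  unfold op
  refine Finset.sum_congr rfl fun l hl => ?_
  rw [if_pos (Nat.lt_succ_iff.1 (Finset.mem_range.1 hl))]

/-- the product of two values of the operator (helper355) -/
theorem olc_mul (a β : ℝ) (M : ℕ) (h : ℕ → ℝ) (k k' : ℕ) :
    op a β M h k * op a β M h k' = ∑ s ∈ range (2*M+1), ∑ l ∈ range (s+1),
      (K a β k l * (if l ≤ M then h l else 0)) *
        (K a β k' (s-l) * (if s - l ≤ M then h (s-l) else 0)) := by
  rw [olc_op, olc_op, Finset.sum_mul_sum]
  exact sum_square_regroup M (fun l l' => (K a β k l * (if l ≤ M then h l else 0)) *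
        (K a β k' l' * (if l' ≤ M then h l' else 0)))
    (fun l l' hl => by
      have e : ¬ l ≤ M := by omega
      simp only [if_neg e, mul_zero, zero_mul])
    (fun l l' hl => by
      have e : ¬ l' ≤ M := by omega
      simp only [if_neg e, mul_zero])

/-- Proof.  By `LC_of_adjacent` it suffices that `H k * H (k+2) ≤ H (k+1)^2`, `H = op a β M h`.  Let `hc = h` cut at `M`
(`LC_cut`).  By `sum_square_regroup`, with `κ = k+1`,
`H(k+1)² = ∑_s e^{a(2k+4+s) - (β/2)(2k+4+s)²} ∑_{l≤s} hc(l) hc(s-l) TT(κ,s,l) ε(l)` and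
`H(k+2) H(k) = ∑_s (same factor) ∑_{l≤s} hc(l) hc(s-l) TT1(κ,s,l) ε(l+1)`
(the factor with `k+2` has index `l`, the factor with `k` has index `s-l`:
`(k+2+l+1)² + (k+s-l+1)² = ((2k+4+s)² + (2l+2-s)²)/2` and `(k+1+l+1)² + (k+1+s-l+1)² = ((2k+4+s)² + (2l-s)²)/2`).
Then apply `lc_per_s` with `m l = hc l * hc (s-l)` (`LC_unimodal`) for every `s`. -/
theorem op_LC (a β : ℝ) (hβ : 0 < β) (M : ℕ) (h : ℕ → ℝ) (hh : LC h) (h0 : 0 < h 0) :
    LC (op a β M h) := by
  refine LC_of_adjacent _ (fun k => op_pos a β M h hh.1 h0 k) fun k => ?_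
  have hc := LC_cut h hh M
  rw [mul_comm (op a β M h k), olc_mul, olc_mul]
  refine Finset.sum_le_sum fun s _ => ?_
  have hper := lc_per_s β hβ (k+1) s (Nat.le_add_left 1 k)
    (fun l => (if l ≤ M then h l else 0) * (if s - l ≤ M then h (s-l) else 0))
    (fun l => mul_nonneg (hc.1 l) (hc.1 (s-l)))
    (fun l hl => by
      have e : s - (s - l) = l := by omega
      simp only [e]
      exact mul_comm _ _)
    (fun l hl => LC_unimodal _ hc s l hl)
  have hcs : 0 ≤ Real.exp (a * ((2*k+4+s : ℕ):ℝ) - β / 2 * ((2*k+4+s : ℕ):ℝ)^2) :=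
    (Real.exp_pos _).le
  have h3 := mul_le_mul_of_nonneg_left hper hcs
  rw [Finset.mul_sum, Finset.mul_sum] at h3
  refine le_trans (le_of_eq ?_) (h3.trans (le_of_eq ?_))
  · refine Finset.sum_congr rfl fun l hl => ?_
    have hl' : l ≤ s := Nat.lt_succ_iff.1 (Finset.mem_range.1 hl)
    have hls : ((s - l : ℕ) : ℝ) = (s:ℝ) - l := Nat.cast_sub hl'
    have e1 := olc_ww a β (k+2+l+1) (k+(s-l)+1) (2*k+4+s) (DD s (l+1)) (by omega) (by
      unfold DD
      push_cast
      rw [hls]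
      ring)
    unfold K TT1 ep
    have e2 : k + 1 + 1 + l = k + 2 + l := by ring
    have e3 : k + 1 - 1 + (s - l) = k + (s - l) := by omega
    rw [e2, e3]
    linear_combination (((k+2+l).choose l : ℕ) : ℝ) * (((k+(s-l)).choose (s-l) : ℕ) : ℝ) *
      ((if l ≤ M then h l else 0) * (if s - l ≤ M then h (s-l) else 0)) * e1
  · refine Finset.sum_congr rfl fun l hl => ?_
    have hl' : l ≤ s := Nat.lt_succ_iff.1 (Finset.mem_range.1 hl)
    have hls : ((s - l : ℕ) : ℝ) = (s:ℝ) - l := Nat.cast_sub hl'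
    have e1 := olc_ww a β (k+1+l+1) (k+1+(s-l)+1) (2*k+4+s) (DD s l) (by omega) (by
      unfold DD
      push_cast
      rw [hls]
      ring)
    unfold K TT ep
    linear_combination -(((k+1+l).choose l : ℕ) : ℝ) * (((k+1+(s-l)).choose (s-l) : ℕ) : ℝ) *
      ((if l ≤ M then h l else 0) * (if s - l ≤ M then h (s-l) else 0)) * e1

end H716SP
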