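import Pool.Agent.H716R3.SP.Defs
/-! Task T26: basic properties of the path functional `W` (all by induction on `n`, generalising `p` and `F`). -/
set_option autoImplicit false
open Finset
namespace H716SP

theorem W_out (m t s p : ℤ) (n : ℕ) (F : (ℤ → ℕ) → ENNReal) (h : p < m ∨ t < p) : W m t s n p F = 0 := by
  sorry

theorem W_start_out (m t s p : ℤ) (n : ℕ) (F : (ℤ → ℕ) → ENNReal) (h : s < m ∨ t < s) : W m t s n p F = 0 := by
  sorry

/-- only fields supported in `[m,t]` with total mass `n+1` matter -/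
theorem W_congr (m t s p : ℤ) (n : ℕ) (F F' : (ℤ → ℕ) → ENNReal)
    (h : ∀ ℓ : ℤ → ℕ, (∀ y, y < m ∨ t < y → ℓ y = 0) → (∀ y, ℓ y ≤ n + 1) → F ℓ = F' ℓ) :
    W m t s n p F = W m t s n p F' := by
  sorry

theorem W_mono_F (m t s p : ℤ) (n : ℕ) (F F' : (ℤ → ℕ) → ENNReal) (h : ∀ ℓ, F ℓ ≤ F' ℓ) :
    W m t s n p F ≤ W m t s n p F' := by
  sorry

theorem W_mono_interval (m t m' t' s p : ℤ) (hm : m' ≤ m) (ht : t ≤ t') (n : ℕ) (F : (ℤ → ℕ) → ENNReal) :
    W m t s n p F ≤ W m' t' s n p F := by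
  sorry

theorem W_zero_of_dist (m t s p : ℤ) (n : ℕ) (F : (ℤ → ℕ) → ENNReal) (h : (n:ℤ) < |p - s|) :
    W m t s n p F = 0 := by
  sorry

theorem W_mul (m t s p : ℤ) (n : ℕ) (r : ENNReal) (F : (ℤ → ℕ) → ENNReal) :
    W m t s n p (fun ℓ => r * F ℓ) = r * W m t s n p F := by
  sorry

theorem W_tsum (m t s p : ℤ) (n : ℕ) (F : ℕ → (ℤ → ℕ) → ENNReal) :
    W m t s n p (fun ℓ => ∑' c, F c ℓ) = ∑' c, W m t s n p (F c) := by
  sorry

/-- first step from the leftmost site -/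
theorem W_first (m t p : ℤ) (n : ℕ) (F : (ℤ → ℕ) → ENNReal) :
    W m t m (n+1) p F = W m t (m+1) n p (fun ℓ => F (ℓ + Pi.single m 1)) := by
  sorry

/-- last step to the leftmost site -/
theorem W_last (m t s : ℤ) (hmt : m ≤ t) (n : ℕ) (F : (ℤ → ℕ) → ENNReal) :
    W m t s (n+1) m F = W m t s n (m+1) (fun ℓ => F (ℓ + Pi.single m 1)) := by
  sorry

end H716SP
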