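import Pool.Agent.H716R3.SP.ProdF
/-! Task T29: the transfer operator formula for path sums. -/
set_option autoImplicit false
open Finset
namespace H716SP

/-- the kernel `C(k+c,c) u(k+c+1)` is symmetric -/
theorem opE_symm (u f g : ℕ → ENNReal) : ∑' k, opE u f k * g k = ∑' k, f k * opE u g k := by
  unfold opE
  simp_rw [← ENNReal.tsum_mul_right, ← ENNReal.tsum_mul_left]
  rw [ENNReal.tsum_comm]
  refine tsum_congr fun c => tsum_congr fun k => ?_
  have h : (k + c).choose c = (c + k).choose k := by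
    rw [Nat.add_comm k c]
    exact Nat.choose_symm_add
  rw [h, Nat.add_comm k c]
  ring

theorem GE_zero_arg (u : ℕ → ENNReal) (r : ℕ) : GE u r 0 = 1 := by
  cases r with
  | zero => simp [GE, dE]
  | succ r => rfl

/-- `TE u (GE u r) = GE u (r+1)` (`TE_zero`, `TE_succ`) -/
theorem TE_GE (u : ℕ → ENNReal) (hu : u 0 = 1) (r : ℕ) : TE u (GE u r) = GE u (r+1) := by
  funext l
  cases l with
  | zero => rw [TE_zero u _ hu, GE_zero_arg, GE_zero_arg]
  | succ k => rw [TE_succ]; rfl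

/-- loops at `x` in `[x, x+R]`.  Proof: induction on `R` for all `g` (and `x`).  `R = 0`: `prod_end`, `TE_succ`:
`opE u g 0 = ∑' c, dE c * opE u g c`.  Step: `prod_LL` with `f = TE u g`, `f (c+2) = opE u g (c+1) =: g' c`; induction
hypothesis for `g'` at `x+1`; `∑' c, GE R c * opE u g' c = ∑' c, opE u (GE R) c * g' c = ∑' c, GE (R+1) (c+1) * opE u g (c+1)`
(`opE_symm`), and `f 1 = opE u g 0 = GE (R+1) 0 * opE u g 0`. -/
theorem loops (u : ℕ → ENNReal) (hu : u 0 = 1) (R : ℕ) (x : ℤ) (g : ℕ → ENNReal) :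
    Wt x (x+R) x x (Ph u x (x+R) (TE u g)) = ∑' c, GE u R c * opE u g c := by
  induction R generalizing x g with
  | zero =>
    rw [Nat.cast_zero, add_zero, prod_end, TE_succ]
    rw [tsum_eq_single 0 (fun c hc => by
      change dE c * opE u g c = 0
      unfold dE
      rw [if_neg hc, zero_mul])]
    change opE u g 0 = dE 0 * opE u g 0
    unfold dE
    rw [if_pos rfl, one_mul]
  | succ R ih =>
    have ht : x + ((R + 1 : ℕ) : ℤ) = (x + 1) + (R : ℤ) := by push_cast; ring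
    rw [ht, prod_LL u hu x _ (by omega) (TE u g)]
    have hf : (fun c => TE u g (c + 2)) = fun c => opE u g (c + 1) := by
      funext c
      exact TE_succ u g (c + 1)
    rw [hf, ih (x + 1) (fun c => opE u g (c + 1)), ← opE_symm, TE_succ,
      tsum_eq_zero_add' (f := fun c => GE u (R + 1) c * opE u g c) ENNReal.summable,
      GE_zero_arg, one_mul]
    rfl

/-- the first phase: the sites to the left of the starting point -/
theorem path_phaseA (u : ℕ → ENNReal) (hu : u 0 = 1) (r R x : ℕ) (j : ℕ) (hj : j ≤ r) :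
    Wt (-(r:ℤ)) ((x:ℤ)+R) 0 x (Ph u (-(r:ℤ)) ((x:ℤ)+R) (TE u dE)) =
      Wt (-(r:ℤ) + j) ((x:ℤ)+R) 0 x (Ph u (-(r:ℤ) + j) ((x:ℤ)+R) (TE u (GE u j))) := by
  induction j with
  | zero => rw [Nat.cast_zero, add_zero]; rfl
  | succ j ih =>
    rw [ih (by omega), prod_IL u hu _ _ _ _ (by omega) (by omega) (by omega), TE_GE u hu]
    have h : -(r:ℤ) + j + 1 = -(r:ℤ) + ((j + 1 : ℕ) : ℤ) := by push_cast; ring
    rw [h]

/-- the second phase: the sites between the starting point and the end point -/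
theorem path_phaseB (u : ℕ → ENNReal) (hu : u 0 = 1) (R x : ℕ) (g : ℕ → ENNReal) (i : ℕ)
    (hi : i ≤ x) :
    Wt 0 ((x:ℤ)+R) 0 x (Ph u 0 ((x:ℤ)+R) (TE u g)) =
      Wt (i:ℤ) ((x:ℤ)+R) (i:ℤ) x (Ph u (i:ℤ) ((x:ℤ)+R) (TE u ((opE u)^[i] g))) := by
  induction i with
  | zero => rfl
  | succ i ih =>
    rw [ih (by omega), prod_FS u hu _ _ _ (by omega) (by omega)]
    have hf : (fun c => TE u ((opE u)^[i] g) (c + 1)) = (opE u)^[i + 1] g := by
      rw [Function.iterate_succ_apply']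
      funext c
      exact TE_succ u _ c
    rw [hf]
    have h : (i:ℤ) + 1 = ((i + 1 : ℕ) : ℤ) := by push_cast; ring
    rw [h]

/-- Proof: start from `f = u = TE u dE` at `m = -r`; `prod_IL` `r` times: at `m = 0` `f = TE u (GE u r)` (`TE_GE`);
`prod_FS` `x` times (`TE u g (c+1) = opE u g c`): at `m = x`, `f = TE u ((opE u)^[x] (GE u r))`; then `loops`. -/
theorem path_formula (u : ℕ → ENNReal) (hu : u 0 = 1) (r R x : ℕ) :
    Wt (-(r:ℤ)) ((x:ℤ)+R) 0 x (Ph u (-(r:ℤ)) ((x:ℤ)+R) u) =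
      ∑' c, GE u R c * (opE u)^[x+1] (GE u r) c := by
  have h0 : Ph u (-(r:ℤ)) ((x:ℤ)+R) u = Ph u (-(r:ℤ)) ((x:ℤ)+R) (TE u dE) := by rw [TE_dE]
  rw [h0, path_phaseA u hu r R x r le_rfl, neg_add_cancel, path_phaseB u hu R x (GE u r) x le_rfl,
    loops u hu R x, Function.iterate_succ_apply']

end H716SP
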