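import Pool.Agent.H716R3.SP.Ins
/-! Task T28: product functionals. -/
set_option autoImplicit false
open Finset
namespace H716SP

/-- `multichoose 0 c = [c = 0]` -/
theorem TE_zero (u g : ℕ → ENNReal) (hu : u 0 = 1) : TE u g 0 = g 0 := by
  unfold TE
  rw [tsum_eq_single 0]
  · simp [hu]
  · intro c hc
    obtain ⟨c, rfl⟩ := Nat.exists_eq_succ_of_ne_zero hc
    simp

/-- `multichoose (k+1) c = C(k+c, c)` (`Nat.multichoose_eq`) -/
theorem TE_succ (u g : ℕ → ENNReal) (k : ℕ) : TE u g (k+1) = opE u g k := by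
  unfold TE opE
  refine tsum_congr fun c => ?_
  rw [Nat.multichoose_eq, show k + 1 + c - 1 = k + c by omega, show k + 1 + c = k + c + 1 by omega]
  ring

theorem TE_dE (u : ℕ → ENNReal) : TE u dE = u := by
  funext l
  unfold TE
  rw [tsum_eq_single 0]
  · simp [dE]
  · intro c hc
    simp [dE, hc]

/-- product over `Ioc m t` split at `m+1` -/
theorem prodF_Ioc {m t : ℤ} (ht : m+1 ≤ t) (g : ℤ → ENNReal) :
    ∏ y ∈ Ioc m t, g y = g (m+1) * ∏ y ∈ Ioc (m+1) t, g y := by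
  have h : Ioc m t = insert (m+1) (Ioc (m+1) t) := by
    ext y
    simp only [mem_Ioc, mem_insert]
    omega
  rw [h, prod_insert (by simp)]

/-- value of the product functional on a field with inserted excursions -/
theorem prodF_val (u : ℕ → ENNReal) {m t : ℤ} (ht : m+1 ≤ t) (f : ℕ → ENNReal) (d c : ℕ)
    (ℓ : ℤ → ℕ) (h0 : ℓ m = 0) :
    Ph u m t f (ℓ + (Pi.single m c + Pi.single (m+1) c) + Pi.single m d) =
      f (c + d) * (u (ℓ (m+1) + c) * ∏ y ∈ Ioc (m+1) t, u (ℓ y)) := by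
  unfold Ph
  rw [prodF_Ioc ht]
  have h1 : (ℓ + (Pi.single m c + Pi.single (m+1) c) + Pi.single m d : ℤ → ℕ) m = c + d := by
    simp [h0, Pi.single_apply]
  have h2 : (ℓ + (Pi.single m c + Pi.single (m+1) c) + Pi.single m d : ℤ → ℕ) (m+1) =
      ℓ (m+1) + c := by
    simp [Pi.single_apply]
  have h3 : ∏ y ∈ Ioc (m+1) t,
      u ((ℓ + (Pi.single m c + Pi.single (m+1) c) + Pi.single m d : ℤ → ℕ) y) =
      ∏ y ∈ Ioc (m+1) t, u (ℓ y) := by
    refine prod_congr rfl fun y hy => ?_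
    rw [mem_Ioc] at hy
    have e1 : y ≠ m := by omega
    have e2 : y ≠ m + 1 := by omega
    simp [Pi.single_apply, e1, e2]
  rw [h1, h2, h3]

/-- the common core -/
theorem prodF_core (u : ℕ → ENNReal) (m t s p : ℤ) (hs : m+1 ≤ s) (hp : m+1 ≤ p) (ht : m+1 ≤ t)
    (f : ℕ → ENNReal) (d : ℕ) :
    Wt m t s p (fun ℓ => Ph u m t f (ℓ + Pi.single m d)) =
      Wt (m+1) t s p (Ph u (m+1) t (TE u (fun c => f (c+d)))) := by
  rw [insertion_tot m t s p hs hp]
  have h1 : ∀ n : ℕ, W (m+1) t s n p (Ph u (m+1) t (TE u (fun c => f (c+d)))) =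
      ∑' c : ℕ, W (m+1) t s n p (fun ℓ => ((Nat.multichoose (ℓ (m+1)) c : ℕ) : ENNReal) *
        Ph u m t f (ℓ + (Pi.single m c + Pi.single (m+1) c) + Pi.single m d)) := by
    intro n
    rw [← W_tsum]
    refine W_congr _ _ _ _ _ _ _ fun ℓ hℓ _ => ?_
    have h0 : ℓ m = 0 := hℓ m (Or.inl (by omega))
    have h2 : Ph u (m+1) t (TE u (fun c => f (c+d))) ℓ =
        (∑' c : ℕ, f (c+d) * ((Nat.multichoose (ℓ (m+1)) c : ℕ) : ENNReal) * u (ℓ (m+1) + c)) *
          ∏ y ∈ Ioc (m+1) t, u (ℓ y) := rfl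
    rw [h2, ← ENNReal.tsum_mul_right]
    refine tsum_congr fun c => ?_
    rw [prodF_val u ht f d c ℓ h0]
    ring
  unfold Wt
  rw [tsum_congr h1, ENNReal.tsum_comm]

/-- Proof: `insertion_tot`; on fields `ℓ` of `[m+1,t]`-paths `ℓ m = 0`, so
`Ph u m t f (ℓ + c(δ_m+δ_{m+1})) = f c · u(ℓ(m+1)+c) · ∏_{y ∈ Ioc (m+1) t} u(ℓ y)` (`W_congr`); `W_tsum`, `W_mul`,
and exchange of `∑'` in `[0,∞]`. -/
theorem prod_IL (u : ℕ → ENNReal) (hu : u 0 = 1) (m t s p : ℤ) (hs : m+1 ≤ s) (hp : m+1 ≤ p) (ht : m+1 ≤ t)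
    (f : ℕ → ENNReal) :
    Wt m t s p (Ph u m t f) = Wt (m+1) t s p (Ph u (m+1) t (TE u f)) := by
  have _ := hu
  have h := prodF_core u m t s p hs hp ht f 0
  simpa using h

/-- Proof: the term `n = 0` vanishes (`p ≠ m`), the others by `W_first`, then as `prod_IL` with `F(· + δ_m)`: the excursion
count `c` gives local time `c+1` at `m`. -/
theorem prod_FS (u : ℕ → ENNReal) (hu : u 0 = 1) (m t p : ℤ) (hp : m+1 ≤ p) (ht : m+1 ≤ t) (f : ℕ → ENNReal) :
    Wt m t m p (Ph u m t f) = Wt (m+1) t (m+1) p (Ph u (m+1) t (TE u (fun c => f (c+1)))) := by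
  have _ := hu
  rw [← prodF_core u m t (m+1) p le_rfl hp ht f 1]
  unfold Wt
  rw [tsum_eq_zero_add' ENNReal.summable]
  have h0 : W m t m 0 p (Ph u m t f) = 0 := by
    unfold W
    rw [if_neg]
    rintro ⟨h, -⟩
    omega
  rw [h0, zero_add]
  exact tsum_congr fun n => W_first m t p n _

/-- Proof: `n = 0` gives `f 1` (`u 0 = 1`), `n = 1` gives `0`, and for `n+2`: `W_last` and `W_first`, then as `prod_IL`: local
time `c+2` at `m`. -/
theorem prod_LL (u : ℕ → ENNReal) (hu : u 0 = 1) (m t : ℤ) (ht : m+1 ≤ t) (f : ℕ → ENNReal) :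
    Wt m t m m (Ph u m t f) = f 1 +
      Wt (m+1) t (m+1) (m+1) (Ph u (m+1) t (TE u (fun c => f (c+2)))) := by
  rw [← prodF_core u m t (m+1) (m+1) le_rfl le_rfl ht f 2]
  unfold Wt
  rw [tsum_eq_zero_add' ENNReal.summable, tsum_eq_zero_add' ENNReal.summable]
  have h0 : W m t m 0 m (Ph u m t f) = f 1 := by
    unfold W
    rw [if_pos ⟨rfl, le_rfl, by omega⟩]
    unfold Ph
    rw [Pi.single_eq_same, prod_eq_one, mul_one]
    intro y hy
    rw [mem_Ioc] at hy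
    rw [Pi.single_eq_of_ne (by omega), hu]
  have h1 : W m t m (0+1) m (Ph u m t f) = 0 := by
    rw [W_last m t m (by omega)]
    unfold W
    rw [if_neg]
    rintro ⟨h, -⟩
    omega
  have h2 : ∀ n : ℕ, W m t m (n+1+1) m (Ph u m t f) =
      W m t (m+1) n (m+1) (fun ℓ => Ph u m t f (ℓ + Pi.single m 2)) := by
    intro n
    rw [W_last m t m (by omega), W_first]
    congr 1
    funext ℓ
    rw [add_assoc, ← Pi.single_add]
  rw [h0, h1, zero_add, tsum_congr h2]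

theorem prod_end (u : ℕ → ENNReal) (m : ℤ) (f : ℕ → ENNReal) : Wt m m m m (Ph u m m f) = f 1 := by
  unfold Wt
  rw [tsum_eq_single 0]
  · unfold W
    rw [if_pos ⟨rfl, le_rfl, le_rfl⟩]
    unfold Ph
    simp
  · intro n hn
    obtain ⟨n, rfl⟩ := Nat.exists_eq_succ_of_ne_zero hn
    show W m m m (n+1) m (Ph u m m f) = 0
    unfold W
    rw [if_pos ⟨le_rfl, le_rfl⟩, W_out _ _ _ _ _ _ (Or.inl (by omega)),
      W_out _ _ _ _ _ _ (Or.inr (by omega)), add_zero]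

end H716SP
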