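import Pool.Agent.H716R3.SP.PathSum
import Pool.Agent.H716R3.SP.GBound
/-! Task T32: the upper bound for path sums. -/
set_option autoImplicit false
open Finset
namespace H716SP

/-- with the weights cut at `m ≤ M+1`: `GE (wEc a β M) r k ≤ ofReal (Gr a β M r k)`: induction on `r`; in
`opE (wEc a β M) g k` only `c ≤ M` contribute (`k+c+1 ≤ M+1`) -/
theorem opE_le (a β : ℝ) (M : ℕ) (g : ℕ → ENNReal) (f : ℕ → ℝ) (hf : ∀ k, 0 ≤ f k)
    (h : ∀ k, g k ≤ ENNReal.ofReal (f k)) (k : ℕ) :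
    opE (wEc a β M) g k ≤ ENNReal.ofReal (op a β M f k) := by
  have h1 : opE (wEc a β M) g k =
      ∑ c ∈ range (M+1), (((k+c).choose c : ℕ) : ENNReal) * wEc a β M (k+c+1) * g c := by
    unfold opE
    refine tsum_eq_sum fun c hc => ?_
    rw [Finset.mem_range] at hc
    have : wEc a β M (k+c+1) = 0 := by
      unfold wEc
      rw [if_neg (by omega)]
    rw [this, mul_zero, zero_mul]
  rw [h1]
  unfold op
  rw [ENNReal.ofReal_sum_of_nonneg (fun l _ => mul_nonneg (K_pos _ _ _ _).le (hf l))]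
  refine Finset.sum_le_sum fun c _ => ?_
  unfold K
  rw [ENNReal.ofReal_mul (mul_nonneg (Nat.cast_nonneg _) (w_pos _ _ _).le),
    ENNReal.ofReal_mul (Nat.cast_nonneg _), ENNReal.ofReal_natCast]
  refine mul_le_mul' (mul_le_mul' le_rfl ?_) (h c)
  unfold wEc
  split_ifs
  · exact le_rfl
  · exact zero_le

theorem GE_le (a β : ℝ) (M r k : ℕ) : GE (wEc a β M) r k ≤ ENNReal.ofReal (Gr a β M r k) := by
  induction r generalizing k with
  | zero =>
    simp only [GE, Gr, dE]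
    split_ifs <;> simp
  | succ r ih =>
    cases k with
    | zero => simp [GE, Gr]
    | succ k =>
      simp only [GE, Gr]
      exact opE_le a β M _ _ (fun k => Gr_nonneg a β M r k) ih k

private theorem UBp_iter_nonneg (a β : ℝ) (M j : ℕ) (f : ℕ → ℝ) (hf : ∀ k, 0 ≤ f k) (k : ℕ) :
    0 ≤ (op a β M)^[j] f k := by
  induction j generalizing k with
  | zero => exact hf k
  | succ j ih =>
    rw [Function.iterate_succ_apply']
    unfold op
    exact Finset.sum_nonneg fun l _ => mul_nonneg (K_pos _ _ _ _).le (ih l)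

/-- iterated norm inequality (`op_norm`) -/
theorem op_iter_norm (a β : ℝ) (hβ : 0 < β) (M j : ℕ) (f : ℕ → ℝ) (hf : ∀ k, 0 ≤ f k) :
    ∑ k ∈ range (M+1), ((op a β M)^[j] f k)^2 ≤ Real.exp (2 * Lm a β M * j) * ∑ k ∈ range (M+1), (f k)^2 := by
  induction j with
  | zero => simp
  | succ j ih =>
    have h1 := op_norm a β hβ M ((op a β M)^[j] f) (UBp_iter_nonneg a β M j f hf)
    have h2 : ∀ k, (op a β M)^[j+1] f k = op a β M ((op a β M)^[j] f) k := fun k => by
      rw [Function.iterate_succ_apply']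
    simp only [h2]
    refine h1.trans ?_
    calc Real.exp (2 * Lm a β M) * ∑ k ∈ range (M+1), ((op a β M)^[j] f k)^2
        ≤ Real.exp (2 * Lm a β M) * (Real.exp (2 * Lm a β M * j) * ∑ k ∈ range (M+1), (f k)^2) :=
          mul_le_mul_of_nonneg_left ih (Real.exp_pos _).le
      _ = Real.exp (2 * Lm a β M * ((j+1 : ℕ) : ℝ)) * ∑ k ∈ range (M+1), (f k)^2 := by
          rw [← mul_assoc, ← Real.exp_add]
          congr 2
          push_cast
          ring

private theorem UBp_sq (s : Finset ℕ) (f : ℕ → ℝ) (hf : ∀ k, 0 ≤ f k) :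
    ∑ k ∈ s, (f k)^2 ≤ (∑ k ∈ s, f k)^2 := by
  rw [sq, Finset.sum_mul]
  refine Finset.sum_le_sum fun k hk => ?_
  rw [sq]
  exact mul_le_mul_of_nonneg_left (Finset.single_le_sum (fun i _ => hf i) hk) (hf k)

private theorem UBp_opE_zero (a β : ℝ) (M : ℕ) (g : ℕ → ENNReal) (k : ℕ) (hk : M < k) :
    opE (wEc a β M) g k = 0 := by
  unfold opE
  rw [ENNReal.tsum_eq_zero]
  intro c
  have : wEc a β M (k+c+1) = 0 := by
    unfold wEc
    rw [if_neg (by omega)]
  rw [this, mul_zero, zero_mul]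

private theorem UBp_iter_le (a β : ℝ) (M r j k : ℕ) :
    (opE (wEc a β M))^[j] (GE (wEc a β M) r) k ≤ ENNReal.ofReal ((op a β M)^[j] (Gr a β M r) k) := by
  induction j generalizing k with
  | zero => exact GE_le a β M r k
  | succ j ih =>
    rw [Function.iterate_succ_apply', Function.iterate_succ_apply']
    exact opE_le a β M _ _ (UBp_iter_nonneg a β M j _ (fun k => Gr_nonneg a β M r k)) ih k

/-- Proof: for `k > M`, `opE (wEc a β M) g k = 0`; so the sum is `≤ ofReal (∑_{k≤M} Gr R k · op^[x+1] (Gr r) k)`, and by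
Cauchy–Schwarz, `op_iter_norm`, `∑ (Gr)² ≤ (∑ Gr)² ≤ C²` (`Gr_l1`), `Lm_le_LL`. -/
theorem cut_bound (a β : ℝ) (hβ : 0 < β) (hL : LL a β < β) :
    ∃ C : ℝ, 0 < C ∧ ∀ M r R x : ℕ,
      ∑' c, GE (wEc a β M) R c * (opE (wEc a β M))^[x+1] (GE (wEc a β M) r) c ≤
        ENNReal.ofReal (C * Real.exp (LL a β * x)) := by
  obtain ⟨C, hC, hGr⟩ := Gr_l1 a β hβ hL
  refine ⟨C^2 * Real.exp (LL a β), by positivity, ?_⟩
  intro M r R x
  have h1 : ∑' c, GE (wEc a β M) R c * (opE (wEc a β M))^[x+1] (GE (wEc a β M) r) c =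
      ∑ c ∈ range (M+1), GE (wEc a β M) R c * (opE (wEc a β M))^[x+1] (GE (wEc a β M) r) c := by
    refine tsum_eq_sum fun c hc => ?_
    rw [Finset.mem_range] at hc
    rw [Function.iterate_succ_apply', UBp_opE_zero a β M _ c (by omega), mul_zero]
  have hn1 : ∀ c, 0 ≤ Gr a β M R c := fun c => Gr_nonneg a β M R c
  have hn2 : ∀ c, 0 ≤ (op a β M)^[x+1] (Gr a β M r) c :=
    UBp_iter_nonneg a β M (x+1) _ (fun k => Gr_nonneg a β M r k)
  rw [h1]
  have h2 : ∑ c ∈ range (M+1), GE (wEc a β M) R c * (opE (wEc a β M))^[x+1] (GE (wEc a β M) r) c ≤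
      ENNReal.ofReal (∑ c ∈ range (M+1), Gr a β M R c * (op a β M)^[x+1] (Gr a β M r) c) := by
    rw [ENNReal.ofReal_sum_of_nonneg (fun c _ => mul_nonneg (hn1 c) (hn2 c))]
    refine Finset.sum_le_sum fun c _ => ?_
    rw [ENNReal.ofReal_mul (hn1 c)]
    exact mul_le_mul' (GE_le a β M R c) (UBp_iter_le a β M r (x+1) c)
  refine h2.trans (ENNReal.ofReal_le_ofReal ?_)
  -- Cauchy–Schwarz
  have hcs := Finset.sum_mul_sq_le_sq_mul_sq (range (M+1)) (fun c => Gr a β M R c)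
    (fun c => (op a β M)^[x+1] (Gr a β M r) c)
  have hA : ∑ c ∈ range (M+1), (Gr a β M R c)^2 ≤ C^2 :=
    (UBp_sq _ _ hn1).trans (pow_le_pow_left₀ (Finset.sum_nonneg fun i _ => hn1 i) (hGr M R) 2)
  have hB : ∑ c ∈ range (M+1), (Gr a β M r c)^2 ≤ C^2 :=
    (UBp_sq _ _ (fun c => Gr_nonneg a β M r c)).trans
      (pow_le_pow_left₀ (Finset.sum_nonneg fun i _ => Gr_nonneg a β M r i) (hGr M r) 2)
  have hD : ∑ c ∈ range (M+1), ((op a β M)^[x+1] (Gr a β M r) c)^2 ≤
      (Real.exp (LL a β * (x+1)))^2 * C^2 := by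
    refine (op_iter_norm a β hβ M (x+1) _ (fun c => Gr_nonneg a β M r c)).trans ?_
    refine mul_le_mul ?_ hB (Finset.sum_nonneg fun i _ => sq_nonneg _) (by positivity)
    rw [← Real.exp_nat_mul]
    apply Real.exp_le_exp.mpr
    have := Lm_le_LL a β hβ M
    have h3 : (0:ℝ) ≤ ((x+1 : ℕ) : ℝ) := Nat.cast_nonneg _
    push_cast at h3 ⊢
    nlinarith
  have hsq : (∑ c ∈ range (M+1), Gr a β M R c * (op a β M)^[x+1] (Gr a β M r) c)^2 ≤
      (C^2 * Real.exp (LL a β * (x+1)))^2 := by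
    refine hcs.trans ?_
    calc (∑ c ∈ range (M+1), (Gr a β M R c)^2) *
          ∑ c ∈ range (M+1), ((op a β M)^[x+1] (Gr a β M r) c)^2
        ≤ C^2 * ((Real.exp (LL a β * (x+1)))^2 * C^2) :=
          mul_le_mul hA hD (Finset.sum_nonneg fun i _ => sq_nonneg _) (by positivity)
      _ = (C^2 * Real.exp (LL a β * (x+1)))^2 := by ring
  have hfin := abs_le_of_sq_le_sq' hsq (by positivity)
  refine hfin.2.trans (le_of_eq ?_)
  rw [mul_assoc, ← Real.exp_add]
  congr 2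
  ring

/-- Proof: `x > n`: the left side is `0` (`W_zero_of_dist`).  `x ≤ n`: on fields with all `ℓ y ≤ n+1` (`W_congr`) the weights
`wE` and `wEc a β n` agree; `W ... n ... ≤ Wt ...` and `path_formula` with `r = n`, `R = n - x`, then `cut_bound`. -/
theorem UB_E (a β : ℝ) (hβ : 0 < β) (hL : LL a β < β) :
    ∃ C : ℝ, 0 < C ∧ ∀ n x : ℕ,
      W (-(n:ℤ)) n 0 n x (Ph (wE a β) (-(n:ℤ)) n (wE a β)) ≤
        ENNReal.ofReal (C * Real.exp (LL a β * x)) := by
  obtain ⟨C, hC, hcut⟩ := cut_bound a β hβ hL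
  refine ⟨C, hC, fun n x => ?_⟩
  rcases Nat.lt_or_ge n x with hnx | hnx
  · rw [W_zero_of_dist]
    · exact zero_le
    · rw [sub_zero, Nat.abs_cast]
      exact_mod_cast hnx
  · have he : W (-(n:ℤ)) n 0 n x (Ph (wE a β) (-(n:ℤ)) n (wE a β)) =
        W (-(n:ℤ)) n 0 n x (Ph (wEc a β n) (-(n:ℤ)) n (wEc a β n)) := by
      refine W_congr _ _ _ _ _ _ _ fun ℓ _ hℓ => ?_
      have hw : ∀ y, wE a β (ℓ y) = wEc a β n (ℓ y) := by
        intro y
        unfold wE wEc
        rw [if_pos (hℓ y)]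
      unfold Ph
      rw [hw]
      congr 1
      exact Finset.prod_congr rfl fun y _ => hw y
    rw [he]
    have h0 : wEc a β n 0 = 1 := by
      unfold wEc w
      simp
    have hf := path_formula (wEc a β n) h0 n (n - x) x
    have hx : (x:ℤ) + ((n - x : ℕ) : ℤ) = n := by omega
    rw [hx] at hf
    have hle : W (-(n:ℤ)) n 0 n x (Ph (wEc a β n) (-(n:ℤ)) n (wEc a β n)) ≤
        Wt (-(n:ℤ)) n 0 x (Ph (wEc a β n) (-(n:ℤ)) n (wEc a β n)) := by
      unfold Wt
      exact ENNReal.le_tsum (f := fun k => W (-(n:ℤ)) n 0 k x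
        (Ph (wEc a β n) (-(n:ℤ)) n (wEc a β n))) n
    refine hle.trans ?_
    rw [hf]
    exact hcut n n (n - x) x

end H716SP
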