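import Pool.Agent.H716R3.SP.Link
import Pool.Agent.H716R3.SP.UBp
import Pool.Agent.H716R3.SP.LBp
/-! Task T34: the two bounds for the partition functions, in `ℝ`. -/
set_option autoImplicit false
open Finset
namespace H716SP

theorem RB_bw_pos (β : ℝ) {n : ℕ} (ω : Fin n → Bool) : 0 < bw β ω := Real.exp_pos _

/-- the sums over paths with a given end point -/
theorem RB_link (a β : ℝ) (n : ℕ) (p : ℤ) :
    W (-(n:ℤ)) n 0 n p (Ph (wE a β) (-(n:ℤ)) n (wE a β)) =
      ENNReal.ofReal (Real.exp (a * (n+1)) *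
        ∑ ω : Fin n → Bool, (if Sp ω n = p then bw β ω else 0)) := by
  rw [← link_W, Finset.mul_sum, ENNReal.ofReal_sum_of_nonneg]
  · refine Finset.sum_congr rfl fun ω _ => ?_
    split_ifs
    · exact Ph_lt a β ω
    · rw [mul_zero, ENNReal.ofReal_zero]
  · intro ω _
    refine mul_nonneg (Real.exp_pos _).le ?_
    split_ifs
    · exact (RB_bw_pos β ω).le
    · exact le_rfl

/-- Proof: `|S_n| = x` means `S_n = x` or `S_n = -x`; `refl_sum`; `link_W` and `Ph_lt` turn the sum over `S_n = x` into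
`e^{-a(n+1)} W (-n) n 0 n x Φ`, then `UB_E`. -/
theorem UB_real (a β : ℝ) (hβ : 0 < β) (hL : LL a β < β) :
    ∃ C : ℝ, 0 < C ∧ ∀ n x : ℕ,
      ∑ ω ∈ Finset.univ.filter (fun ω : Fin n → Bool => (Sp ω n).natAbs = x), bw β ω ≤
        C * Real.exp (-a * n + LL a β * x) := by
  obtain ⟨C, hC, h⟩ := UB_E a β hβ hL
  refine ⟨2 * (C * Real.exp (-a)), by positivity, fun n x => ?_⟩
  have h1 := h n x
  rw [RB_link, ENNReal.ofReal_le_ofReal_iff (by positivity)] at h1
  set Z : ℝ := ∑ ω : Fin n → Bool, (if Sp ω n = (x : ℤ) then bw β ω else 0) with hZ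
  have h2 : Z ≤ C * Real.exp (-a) * Real.exp (-a * n + LL a β * x) := by
    have h3 : Real.exp (-(a * (n + 1))) * (Real.exp (a * (n + 1)) * Z) ≤
        Real.exp (-(a * (n + 1))) * (C * Real.exp (LL a β * x)) :=
      mul_le_mul_of_nonneg_left h1 (Real.exp_pos _).le
    rw [← mul_assoc, ← Real.exp_add, neg_add_cancel, Real.exp_zero, one_mul] at h3
    refine h3.trans (le_of_eq ?_)
    rw [show C * Real.exp (-a) * Real.exp (-a * n + LL a β * x) =
      C * (Real.exp (-a) * Real.exp (-a * n + LL a β * x)) by ring, ← Real.exp_add,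
      show Real.exp (-(a * (n + 1))) * (C * Real.exp (LL a β * x)) =
      C * (Real.exp (-(a * (n + 1))) * Real.exp (LL a β * x)) by ring, ← Real.exp_add]
    congr 2
    ring
  have h4 : ∑ ω ∈ Finset.univ.filter (fun ω : Fin n → Bool => (Sp ω n).natAbs = x), bw β ω ≤
      Z + ∑ ω : Fin n → Bool, (if Sp ω n = -(x : ℤ) then bw β ω else 0) := by
    rw [Finset.sum_filter, hZ, ← Finset.sum_add_distrib]
    refine Finset.sum_le_sum fun ω _ => ?_
    have hb := (RB_bw_pos β ω).le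
    by_cases hx : (Sp ω n).natAbs = x
    · rw [if_pos hx]
      rcases Int.natAbs_eq (Sp ω n) with h5 | h5
      · rw [hx] at h5
        rw [if_pos h5]
        split_ifs <;> linarith
      · rw [hx] at h5
        rw [if_pos h5]
        split_ifs <;> linarith
    · rw [if_neg hx]
      split_ifs <;> linarith
  rw [refl_sum β n (x : ℤ)] at h4
  linarith

/-- Proof: if summable, then so is `e^{a(n+1)} Z_n`, so `∑'_n ofReal (e^{a(n+1)} Z_n) < ⊤`; but it equals
`∑'_n ∑_{p ∈ Icc (-n) n} W (-n) n 0 n p Φ_n = ⊤` (`LB_E`), by `link_W`, `Ph_lt`, `Sp_bound`. -/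
theorem LB_real (a β : ℝ) (hβ : 0 < β) (hL : 0 < LL a β) :
    ¬ Summable (fun n : ℕ => Real.exp (a * n) * ∑ ω : Fin n → Bool, bw β ω) := by
  intro hs
  have h1 := LB_E a β hβ hL
  have h2 : ∀ n : ℕ, ∑ p ∈ Icc (-(n:ℤ)) n,
      W (-(n:ℤ)) n 0 n p (Ph (wE a β) (-(n:ℤ)) n (wE a β)) =
      ENNReal.ofReal (Real.exp a * (Real.exp (a * n) * ∑ ω : Fin n → Bool, bw β ω)) := by
    intro n
    simp_rw [RB_link]
    rw [← ENNReal.ofReal_sum_of_nonneg, ← Finset.mul_sum, Finset.sum_comm]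
    · have h3 : ∀ ω : Fin n → Bool, ∑ p ∈ Icc (-(n:ℤ)) n, (if Sp ω n = p then bw β ω else 0) =
          bw β ω := by
        intro ω
        rw [Finset.sum_ite_eq, if_pos]
        exact Finset.mem_Icc.2 (abs_le.1 (Sp_bound ω n))
      simp_rw [h3]
      rw [← mul_assoc, ← Real.exp_add]
      congr 3
      ring
    · intro p _
      refine mul_nonneg (Real.exp_pos _).le (Finset.sum_nonneg fun ω _ => ?_)
      split_ifs
      · exact (RB_bw_pos β ω).le
      · exact le_rfl
  simp_rw [h2] at h1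
  exact (hs.mul_left (Real.exp a)).tsum_ofReal_ne_top h1

end H716SP
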