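import Pool.Agent.H716R3.SP.Norm
/-! Task T22: supporting lines. -/
set_option autoImplicit false
open Finset
namespace H716SP

theorem SG_qN_nonneg (a β : ℝ) (M N n : ℕ) : 0 ≤ qN a β M N n := by
  unfold qN
  refine Finset.sum_nonneg fun i _ => ?_
  split_ifs
  · exact mul_nonneg (mul_nonneg (hN_nonneg _ _ _ _ _) (K_pos _ _ _ _).le) (hN_nonneg _ _ _ _ _)
  · exact le_rfl

theorem SG_K (a a' β β' : ℝ) (i j : ℕ) :
    K a' β' i j = K a β i j *
      Real.exp ((a'-a) * (((i+j : ℕ) : ℝ)+1) - (β'-β) * (((i+j : ℕ) : ℝ)+1)^2) := by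
  unfold K w
  rw [mul_assoc, ← Real.exp_add]
  congr 2
  push_cast
  ring

/-- Proof.  Write `T = i+j+1`, `Z = Σ_n qN a β M N n = mu (2N+2)` (`qN_total`).  By `qN_sum` and
`K a' β' i j = K a β i j exp((a'-a)T - (β'-β)T²)`,
`S := ∑_{i,j≤M} hN N i · K a' β' i j · hN (N+1) j = ∑_n qN n exp((a'-a)(n+1) - (β'-β)(n+1)²)
  ≥ Z exp((a'-a) m1N - (β'-β) m2N)` (Jensen; or `exp x ≥ exp x0 (1 + x - x0)` with `x0` the mean).
On the other hand (Cauchy–Schwarz, `op_norm` for `(a',β')`, `hN_inner`)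
`S = ∑_i hN N i · op a' β' M (hN (N+1)) i ≤ √(mu (2N)) · √(exp(2 Lm') mu (2N+2))`.
So `exp Lm' ≥ √(mu(2N+2)/mu(2N)) exp(...)`; take logarithms. -/
theorem SG (a a' β β' : ℝ) (hβ : 0 < β) (hβ' : 0 < β') (M N : ℕ) :
    (1/2) * Real.log (rt a β M N) + (a'-a) * m1N a β M N - (β'-β) * m2N a β M N ≤ Lm a' β' M := by
  set Z : ℝ := mu a β M (2*N+2) with hZ
  have hZpos : 0 < Z := mu_pos _ _ _ _
  have hV : 0 < mu a β M (2*N) := mu_pos _ _ _ _
  have htot : ∑ n ∈ range (2*M+1), qN a β M N n = Z := qN_total a β M N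
  set x0 : ℝ := (a'-a) * m1N a β M N - (β'-β) * m2N a β M N with hx0
  set X : ℕ → ℝ := fun n => (a'-a) * ((n:ℝ)+1) - (β'-β) * ((n:ℝ)+1)^2 with hX
  -- the mean
  have hmean : ∑ n ∈ range (2*M+1), X n * qN a β M N n = x0 * Z := by
    have h1 : m1N a β M N * Z = ∑ n ∈ range (2*M+1), ((n:ℝ)+1) * qN a β M N n := by
      unfold m1N
      rw [htot]
      field_simp
    have h2 : m2N a β M N * Z = ∑ n ∈ range (2*M+1), ((n:ℝ)+1)^2 * qN a β M N n := by
      unfold m2N
      rw [htot]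
      field_simp
    have h3 : x0 * Z = (a'-a) * (m1N a β M N * Z) - (β'-β) * (m2N a β M N * Z) := by
      rw [hx0]; ring
    rw [h3, h1, h2, Finset.mul_sum, Finset.mul_sum, ← Finset.sum_sub_distrib]
    refine Finset.sum_congr rfl fun n _ => ?_
    simp only [hX]
    ring
  -- Jensen
  have hjensen : Real.exp x0 * Z ≤ ∑ n ∈ range (2*M+1), Real.exp (X n) * qN a β M N n := by
    have h1 : ∀ n ∈ range (2*M+1), Real.exp x0 * (1 + X n - x0) * qN a β M N n ≤
        Real.exp (X n) * qN a β M N n := by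
      intro n _
      refine mul_le_mul_of_nonneg_right ?_ (SG_qN_nonneg _ _ _ _ _)
      have h2 : X n = x0 + (X n - x0) := by ring
      have h3 : Real.exp (X n) = Real.exp x0 * Real.exp (X n - x0) := by
        rw [← Real.exp_add, ← h2]
      rw [h3]
      refine mul_le_mul_of_nonneg_left ?_ (Real.exp_pos _).le
      have := Real.add_one_le_exp (X n - x0)
      linarith
    refine le_trans (le_of_eq ?_) (Finset.sum_le_sum h1)
    have h4 : ∑ n ∈ range (2*M+1), Real.exp x0 * (1 + X n - x0) * qN a β M N n =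
        Real.exp x0 * (∑ n ∈ range (2*M+1), qN a β M N n +
          ∑ n ∈ range (2*M+1), X n * qN a β M N n - x0 * ∑ n ∈ range (2*M+1), qN a β M N n) := by
      rw [Finset.mul_sum (range (2*M+1)) (fun n => qN a β M N n) x0, ← Finset.sum_add_distrib,
        ← Finset.sum_sub_distrib, Finset.mul_sum]
      refine Finset.sum_congr rfl fun n _ => ?_
      ring
    rw [h4, htot, hmean]
    ring
  -- regrouping
  have hS : ∑ n ∈ range (2*M+1), Real.exp (X n) * qN a β M N n =
      ∑ i ∈ range (M+1), hN a β M N i * op a' β' M (hN a β M (N+1)) i := by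
    rw [qN_sum a β M N (fun n => Real.exp (X n))]
    refine Finset.sum_congr rfl fun i _ => ?_
    unfold op
    rw [Finset.mul_sum]
    refine Finset.sum_congr rfl fun j _ => ?_
    rw [SG_K a a' β β' i j]
    simp only [hX]
    ring
  have hCS := Finset.sum_mul_sq_le_sq_mul_sq (range (M+1)) (fun i => hN a β M N i)
    (fun i => op a' β' M (hN a β M (N+1)) i)
  have hn1 : ∑ i ∈ range (M+1), (hN a β M N i)^2 = mu a β M (2*N) := by
    have := hN_inner a β M N N
    rw [two_mul, ← this]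
    refine Finset.sum_congr rfl fun i _ => ?_
    ring
  have hn2 : ∑ i ∈ range (M+1), (hN a β M (N+1) i)^2 = Z := by
    have := hN_inner a β M (N+1) (N+1)
    rw [hZ, show 2*N+2 = (N+1)+(N+1) by ring, ← this]
    refine Finset.sum_congr rfl fun i _ => ?_
    ring
  have hop := op_norm a' β' hβ' M (hN a β M (N+1)) (fun k => hN_nonneg _ _ _ _ _)
  rw [hn2] at hop
  rw [hn1, ← hS] at hCS
  set E : ℝ := Real.exp (2 * Lm a' β' M) with hE
  have hEpos : 0 < E := Real.exp_pos _
  have hmain : (Real.exp x0 * Z)^2 ≤ mu a β M (2*N) * (E * Z) := by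
    refine le_trans (pow_le_pow_left₀ (by positivity) hjensen 2) (le_trans hCS ?_)
    exact mul_le_mul_of_nonneg_left hop hV.le
  have hrt : rt a β M N = Z / mu a β M (2*N) := by
    unfold rt
    rfl
  have hfin : Real.exp (2 * x0) * rt a β M N ≤ E := by
    rw [hrt]
    have h1 : Real.exp (2*x0) = (Real.exp x0)^2 := by
      rw [← Real.exp_nat_mul]
      norm_num
    rw [h1]
    have h2 : (Real.exp x0)^2 * (Z / mu a β M (2*N)) = (Real.exp x0 * Z)^2 / (mu a β M (2*N) * Z) := by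
      field_simp
    rw [h2, div_le_iff₀ (by positivity)]
    calc (Real.exp x0 * Z)^2 ≤ mu a β M (2*N) * (E * Z) := hmain
      _ = E * (mu a β M (2*N) * Z) := by ring
  have hrpos : 0 < rt a β M N := rt_pos _ _ _ _
  have hlog := Real.log_le_log (by positivity) hfin
  rw [Real.log_mul (Real.exp_pos _).ne' hrpos.ne', Real.log_exp, hE, Real.log_exp] at hlog
  have : (1/2) * Real.log (rt a β M N) + x0 ≤ Lm a' β' M := by linarith
  calc (1/2) * Real.log (rt a β M N) + (a'-a) * m1N a β M N - (β'-β) * m2N a β M N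
      = (1/2) * Real.log (rt a β M N) + x0 := by rw [hx0]; ring
    _ ≤ Lm a' β' M := this

end H716SP
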