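import Pool.Agent.H716R3.SP.Deriv
import Pool.Agent.H716R3.SP.Efron
/-! Task T18: the law of the local time at one site is increasing in `a` (monotone likelihood ratio). -/
set_option autoImplicit false
open Finset
namespace H716SP

theorem qN_nonneg (a β : ℝ) (M N n : ℕ) : 0 ≤ qN a β M N n := by
  sorry

theorem qN_pos (a β : ℝ) (M N n : ℕ) (hN1 : 1 ≤ N) (hn : n ≤ 2*M) : 0 < qN a β M N n := by
  sorry

/-- Proof: `hN_deriv` and `∂_a K(i,n-i) = (n+1) K(i,n-i)`. -/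
theorem qN_deriv (a β : ℝ) (M N n : ℕ) :
    HasDerivAt (fun x => qN x β M N n)
      (qN a β M N n + ∑ i ∈ range (n+1), if i ≤ M ∧ n - i ≤ M then
        hN a β M N i * K a β i (n-i) * hN a β M (N+1) (n-i) * (vN a β M N i + vN a β M (N+1) (n-i))
        else 0) a := by
  sorry

/-- Monotone likelihood ratio.  Proof: if `n+1 > 2M` then `qN a (n+1) = 0`, and both sides vanish.  Otherwise
`x ↦ log qN x (n+1) - log qN x n` has derivative `E_{n+1} - E_n` of `vN N (i) + vN (N+1) (j)`, `j = n - i`, under the law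
proportional to `hN(i) K(i,j) hN'(j) = (n! w(n+1)) · (hN(i)/i! 1_{i≤M}) · (hN'(j)/j! 1_{j≤M})`; by `efron`, `efron'` with
`u(i) = hN(i)/i!·1_{i≤M}`, `u'(j) = hN'(j)/j!·1_{j≤M}` (log-concave by `LC_mul`, `LC_inv_factorial`, `LC_cut`, `hN_props`) and
`φ = vN N`, `vN (N+1)` (monotone by `hN_props`) it is `≥ 0`. -/
theorem qN_mlr (a a' β : ℝ) (hβ : 0 < β) (haa : a ≤ a') (M N n : ℕ) (hN1 : 1 ≤ N) :
    qN a' β M N n * qN a β M N (n+1) ≤ qN a' β M N (n+1) * qN a β M N n := by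
  sorry

/-- Proof: `qN_mlr` gives `q'(n)q(n') ≥ q'(n')q(n)` for `n' ≤ n ≤ 2M` (`qN_pos`); with `Σ = range (2M+1)`,
`m2(a')m1(a) - m2(a)m1(a') ∝ ∑_{n,n'} q'(n) q(n') (n+1)(n'+1)(n-n')
 = ∑_{n>n'} (n+1)(n'+1)(n-n') [q'(n)q(n') - q'(n')q(n)] ≥ 0`. -/
theorem m_ratio_mono (a a' β : ℝ) (hβ : 0 < β) (haa : a ≤ a') (M N : ℕ) (hN1 : 1 ≤ N) :
    m2N a β M N / m1N a β M N ≤ m2N a' β M N / m1N a' β M N := by
  sorry

theorem one_le_m1N (a β : ℝ) (M N : ℕ) : 1 ≤ m1N a β M N := by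
  sorry

end H716SP
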