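import Pool.Agent.H716R3.SP.OneLC
import Pool.Agent.H716R3.SP.OneU
import Pool.Agent.H716R3.SP.OneLw
import Pool.Agent.H716R3.SP.Fields
import Pool.Agent.H716R3.SP.Abstract
import Pool.Agent.H716R3.SP.LinkIneq
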