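import Pool.Agent.H716R3.SP.Defs
/-! Task T06: the key inequality for the upper bound on the increments. -/
set_option autoImplicit false
open Finset
namespace H716SP

/-- `(K+l+1)(K + l/(1+pl)) ≤ (1+p)(K+l)(K + (l+1)/(1+p(l+1)))` for `p, l, K ≥ 0` (here `K` is called `k`; checked numerically).
Clear denominators `A = 1+pl`, `B = 1+p(l+1) = A+p`: `RHS - LHS` times `AB` is
`K + l + p(K+l)A(KB+l+1) - KAB - lB`, a polynomial in `p, l, K` divisible by `p`, all of whose coefficients are `≥ 0` after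
cancellation (coefficient of `p`: `(K+l)(K+l+1) - l(l+1) - K(2l+1) = K²`; of `p²`:
`(K+l)(l(K+l+1) + K(l+1)) - K l(l+1) ≥ 0`; of `p³`: `(K+l) l K (l+1) ≥ 0`). -/
theorem U_poly (p l k : ℝ) (hp : 0 ≤ p) (hl : 0 ≤ l) (hk : 0 ≤ k) :
    (k + l + 1) * (k + l / (1 + p * l)) ≤ (1 + p) * ((k + l) * (k + (l+1) / (1 + p * (l+1)))) := by
  have hA : 0 < 1 + p * l := by positivity
  have hB : 0 < 1 + p * (l+1) := by positivity
  have h : (1 + p) * ((k + l) * (k + (l+1) / (1 + p * (l+1)))) -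
      (k + l + 1) * (k + l / (1 + p * l)) =
      (p * k^2 + p^2 * (k^2*(l+1) + l*(k+l)*(k+l+1)) + p^3*(k*l*(l+1)*(k+l))) /
        ((1 + p * l) * (1 + p * (l+1))) := by
    field_simp
    ring
  have h2 : 0 ≤ (p * k^2 + p^2 * (k^2*(l+1) + l*(k+l)*(k+l+1)) + p^3*(k*l*(l+1)*(k+l))) /
        ((1 + p * l) * (1 + p * (l+1))) := by positivity
  linarith

/-- discrete sign change -/
theorem UKey_sign (M : ℕ) (E : ℕ → ℝ) (h0 : 0 ≤ E 0) (h1 : 0 ≤ E (M+1))
    (hs : ∀ l, l + 1 ≤ M → E (l+1) ≤ E l → E (l+2) ≤ E (l+1)) (l : ℕ) (hl : l ≤ M + 1) :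
    0 ≤ E l := by
  by_cases hc : ∃ j, j < l ∧ E (j+1) ≤ E j
  · obtain ⟨j, hjl, hj⟩ := hc
    have hall : ∀ n, j + n ≤ M → E (j+n+1) ≤ E (j+n) := by
      intro n
      induction n with
      | zero => intro _; exact hj
      | succ n ih => intro hn; exact hs (j+n) (by omega) (ih (by omega))
    have hmono : ∀ n, l + n ≤ M + 1 → E (l+n) ≤ E l := by
      intro n
      induction n with
      | zero => intro _; exact le_rfl
      | succ n ih =>
        intro hn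
        have h3 := hall (l+n-j) (by omega)
        have h4 : j + (l+n-j) = l+n := by omega
        rw [h4] at h3
        exact h3.trans (ih (by omega))
    have h6 := hmono (M+1-l) (by omega)
    have h5 : l + (M+1-l) = M+1 := by omega
    rw [h5] at h6
    exact h1.trans h6
  · push Not at hc
    have hmono : ∀ n, n ≤ l → E 0 ≤ E n := by
      intro n
      induction n with
      | zero => intro _; exact le_rfl
      | succ n ih => intro hn; exact (ih (by omega)).trans (hc n (by omega)).le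
    exact h0.trans (hmono l le_rfl)

/-- the common factor -/
noncomputable def UKey_Y (a β : ℝ) (k l : ℕ) : ℝ :=
  ((k:ℝ)+l+1) * Real.exp (a - β * (2*(k:ℝ)+2*l+3))

theorem UKey_w (a β : ℝ) (m : ℕ) : w a β (m+1) = w a β m * Real.exp (a - β * (2*(m:ℝ)+1)) := by
  unfold w
  rw [← Real.exp_add]
  congr 1
  push_cast
  ring

theorem UKey_K1 (a β : ℝ) (k l : ℕ) :
    ((k:ℝ)+1) * K a β (k+1) l = K a β k l * UKey_Y a β k l := by
  have h := Nat.choose_mul_succ_eq (k+l) l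
  have h1 : k + l + 1 - l = k + 1 := by omega
  rw [h1] at h
  have h2 : ((k+l).choose l : ℝ) * ((k:ℝ)+l+1) = ((k+l+1).choose l : ℝ) * ((k:ℝ)+1) := by
    exact_mod_cast h
  have h3 : k + 1 + l = k + l + 1 := by omega
  have h4 : (2*((k + l + 1 : ℕ):ℝ)+1) = 2*(k:ℝ)+2*l+3 := by push_cast; ring
  unfold K UKey_Y
  rw [h3, UKey_w a β (k+l+1), h4]
  linear_combination (-(w a β (k+l+1) * Real.exp (a - β * (2*(k:ℝ)+2*l+3)))) * h2

theorem UKey_K2 (a β : ℝ) (k l : ℕ) :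
    ((l:ℝ)+1) * K a β k (l+1) = K a β k l * UKey_Y a β k l := by
  have h := Nat.add_one_mul_choose_eq (k+l) l
  have h2 : ((k:ℝ)+l+1) * ((k+l).choose l : ℝ) = ((k+l+1).choose (l+1) : ℝ) * ((l:ℝ)+1) := by
    exact_mod_cast h
  have h3 : k + (l + 1) = k + l + 1 := by omega
  have h4 : (2*((k + l + 1 : ℕ):ℝ)+1) = 2*(k:ℝ)+2*l+3 := by push_cast; ring
  unfold K UKey_Y
  rw [h3, UKey_w a β (k+l+1), h4]
  linear_combination (-(w a β (k+l+1) * Real.exp (a - β * (2*(k:ℝ)+2*l+3)))) * h2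

theorem UKey_Ystep (a β : ℝ) (hβ : 0 < β) (k l : ℕ) :
    UKey_Y a β k (l+1) * (((k:ℝ)+1) + (l:ℝ) / (1 + pp β * l)) ≤
      UKey_Y a β k l * (((k:ℝ)+1) + ((l:ℝ)+1) / (1 + pp β * ((l:ℝ)+1))) := by
  have h := U_poly (pp β) l ((k:ℝ)+1) (pp_pos hβ).le (by positivity) (by positivity)
  have he : Real.exp (a - β * (2*(k:ℝ)+2*l+3)) =
      (1 + pp β) * Real.exp (a - β * (2*(k:ℝ)+2*((l+1:ℕ):ℝ)+3)) := by
    unfold pp
    rw [add_sub_cancel, ← Real.exp_add]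
    congr 1
    push_cast
    ring
  unfold UKey_Y
  rw [he]
  have hx : 0 < Real.exp (a - β * (2*(k:ℝ)+2*((l+1:ℕ):ℝ)+3)) := Real.exp_pos _
  set x := Real.exp (a - β * (2*(k:ℝ)+2*((l+1:ℕ):ℝ)+3))
  have h2 := mul_le_mul_of_nonneg_left h hx.le
  push_cast
  calc ((k:ℝ) + ((l:ℝ)+1) + 1) * x * (((k:ℝ)+1) + (l:ℝ) / (1 + pp β * l))
      = x * (((k:ℝ) + 1 + l + 1) * (((k:ℝ)+1) + (l:ℝ) / (1 + pp β * l))) := by ring
    _ ≤ _ := h2
    _ = _ := by ring

/-- Key inequality.  Write `P_k(j) = K(k,j)h(j)/op h k` (`j ≤ M`), `c_l = l/(1+pl)`, `κ = k+1`,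
`E(l) = c_l P_k(l) - κ ∑_{j≥l}(P_{k+1}(j) - P_k(j))` for `l ≤ M`, `E(M+1) = 0`.  To show: `E(l) ≥ 0`.
`E(0) = 0` (`c_0 = 0`, both laws have mass 1) and `E(M+1) = 0`.  With `R(l) = K(k+1,l)/K(k,l) = (k+l+1)/(k+1) e^{a-β(2k+2l+3)}`,
`Rbar = op h (k+1)/op h k`, `K(k,l+1)/K(k,l) = R(l)(k+1)/(l+1)`:
`E(l) - E(l+1) = P_k(l) · { c_l + κ - κ R(l) [ (c_{l+1}/(l+1)) h(l+1)/h(l) + 1/Rbar ] }`  (for `l = M` without the term with `h(l+1)`).
`{...} ≥ 0` iff `κ · [R(l)/(c_l+κ)] · [ρ_l/(1+p(l+1)) + 1/Rbar] ≤ 1` where `ρ_l = h(l+1)/h(l)` (`ρ_M := 0`) is nonincreasing;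
`R(l)/(c_l+κ)` is nonincreasing by `U_poly` (note `R(l+1)/R(l) = (κ+l+1)/((κ+l) e^{2β})`, `e^{2β} = 1+p`).
So `E(l) - E(l+1)` changes sign at most once, from `-` to `+`; so `E` first increases and then decreases, from `0` to `0`,
hence `E ≥ 0`. -/
theorem U_key (a β : ℝ) (hβ : 0 < β) (M k : ℕ) (h : ℕ → ℝ) (hpos : ∀ l, 0 < h l) (hLC : LC h)
    (l : ℕ) (hl : l ≤ M) :
    ((k:ℝ)+1) * ((∑ j ∈ Icc l M, K a β (k+1) j * h j) / op a β M h (k+1)
        - (∑ j ∈ Icc l M, K a β k j * h j) / op a β M h k)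
      ≤ ((l:ℝ) / (1 + pp β * l)) * (K a β k l * h l / op a β M h k) := by
  have hp := pp_pos hβ
  have hO : ∀ i, 0 < op a β M h i := by
    intro i
    unfold op
    exact Finset.sum_pos (fun j _ => mul_pos (K_pos _ _ _ _) (hpos j)) ⟨0, by simp⟩
  have hIcc : Icc 0 M = range (M+1) := by
    ext x; simp
  obtain ⟨O, hOdef⟩ : ∃ O, O = op a β M h k := ⟨_, rfl⟩
  obtain ⟨O1, hO1def⟩ : ∃ O1, O1 = op a β M h (k+1) := ⟨_, rfl⟩
  have hO0 : 0 < O := hOdef ▸ hO k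
  have hO10 : 0 < O1 := hO1def ▸ hO (k+1)
  obtain ⟨c, hc⟩ : ∃ c : ℕ → ℝ, ∀ i, c i = (i:ℝ) / (1 + pp β * i) := ⟨_, fun _ => rfl⟩
  obtain ⟨S, hS⟩ : ∃ S : ℕ → ℝ, ∀ i, S i = ∑ j ∈ Icc i M, K a β k j * h j := ⟨_, fun _ => rfl⟩
  obtain ⟨S1, hS1⟩ : ∃ S : ℕ → ℝ, ∀ i, S i = ∑ j ∈ Icc i M, K a β (k+1) j * h j :=
    ⟨_, fun _ => rfl⟩
  obtain ⟨E, hE⟩ : ∃ E : ℕ → ℝ, ∀ i, E i = c i * (if i ≤ M then K a β k i * h i / O else 0) -
      ((k:ℝ)+1) * (S1 i / O1 - S i / O) := ⟨_, fun _ => rfl⟩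
  obtain ⟨ρ, hρ⟩ : ∃ ρ : ℕ → ℝ, ∀ i, ρ i = if i + 1 ≤ M then h (i+1) / h i else 0 :=
    ⟨_, fun _ => rfl⟩
  have hcnn : ∀ i, 0 ≤ c i := fun i => by rw [hc]; positivity
  have hSs : ∀ i, i ≤ M → S i = K a β k i * h i + S (i+1) := by
    intro i hi
    rw [hS, hS, ← Finset.insert_Icc_add_one_left_eq_Icc hi, Finset.sum_insert (by simp)]
  have hS1s : ∀ i, i ≤ M → S1 i = K a β (k+1) i * h i + S1 (i+1) := by
    intro i hi
    rw [hS1, hS1, ← Finset.insert_Icc_add_one_left_eq_Icc hi, Finset.sum_insert (by simp)]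
  have hstep : ∀ i, i ≤ M → E i - E (i+1) = K a β k i * h i / O *
      (((k:ℝ)+1) + c i - UKey_Y a β k i * (ρ i / (1 + pp β * ((i:ℝ)+1)) + O / O1)) := by
    intro i hi
    rw [hE, hE, hSs i hi, hS1s i hi, if_pos hi]
    have e1 : K a β (k+1) i = K a β k i * UKey_Y a β k i / ((k:ℝ)+1) := by
      rw [← UKey_K1]; field_simp
    have e2 : c (i+1) * (if i + 1 ≤ M then K a β k (i+1) * h (i+1) / O else 0) =
        K a β k i * h i / O * (UKey_Y a β k i * (ρ i / (1 + pp β * ((i:ℝ)+1)))) := by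
      rw [hρ]
      by_cases hM : i + 1 ≤ M
      · rw [if_pos hM, if_pos hM, hc]
        have e3 : K a β k (i+1) = K a β k i * UKey_Y a β k i / ((i:ℝ)+1) := by
          rw [← UKey_K2]; field_simp
        rw [e3]
        have hhi := (hpos i).ne'
        have hden : (1 + pp β * ((i:ℝ)+1)) ≠ 0 := by positivity
        push_cast
        field_simp
      · rw [if_neg hM, if_neg hM]; simp
    rw [e2, e1]
    have hk1 : ((k:ℝ)+1) ≠ 0 := by positivity
    field_simp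
    ring
  have hρmono : ∀ i, i + 1 ≤ M → ρ (i+1) ≤ ρ i := by
    intro i hi
    rw [hρ i, if_pos hi, hρ (i+1)]
    split_ifs with h2
    · rw [div_le_div_iff₀ (hpos _) (hpos _)]
      have h3 := hLC.2 i (i+1) (by omega)
      linarith
    · exact (div_pos (hpos _) (hpos _)).le
  have hρnn : ∀ i, 0 ≤ ρ i := by
    intro i
    rw [hρ]
    split_ifs
    · exact (div_pos (hpos _) (hpos _)).le
    · exact le_rfl
  have hsign : ∀ i, i + 1 ≤ M → E (i+1) ≤ E i → E (i+2) ≤ E (i+1) := by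
    intro i hi hle
    have h1 := hstep i (by omega)
    have h2 := hstep (i+1) hi
    have hx1 : 0 < K a β k i * h i / O := div_pos (mul_pos (K_pos _ _ _ _) (hpos _)) hO0
    have hx2 : 0 < K a β k (i+1) * h (i+1) / O := div_pos (mul_pos (K_pos _ _ _ _) (hpos _)) hO0
    have h3 : 0 ≤ ((k:ℝ)+1) + c i -
        UKey_Y a β k i * (ρ i / (1 + pp β * ((i:ℝ)+1)) + O / O1) := by
      by_contra hneg
      push Not at hneg
      have := mul_neg_of_pos_of_neg hx1 hneg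
      linarith
    set F := ρ i / (1 + pp β * ((i:ℝ)+1)) + O / O1 with hF
    set F' := ρ (i+1) / (1 + pp β * (((i+1:ℕ):ℝ)+1)) + O / O1 with hF'
    have hFF : F' ≤ F := by
      rw [hF, hF']
      have : ρ (i+1) / (1 + pp β * (((i+1:ℕ):ℝ)+1)) ≤ ρ i / (1 + pp β * ((i:ℝ)+1)) := by
        apply div_le_div₀ (hρnn i) (hρmono i hi) (by positivity)
        push_cast
        nlinarith
      linarith
    have hF'nn : 0 ≤ F' := by
      rw [hF']
      have := hρnn (i+1)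
      positivity
    have hY : UKey_Y a β k (i+1) * (((k:ℝ)+1) + c i) ≤
        UKey_Y a β k i * (((k:ℝ)+1) + c (i+1)) := by
      have := UKey_Ystep a β hβ k i
      rw [hc, hc]
      push_cast
      exact this
    have hYnn : 0 ≤ UKey_Y a β k i := by unfold UKey_Y; positivity
    have hci := hcnn i
    have hci1 := hcnn (i+1)
    have h4 : 0 < ((k:ℝ)+1) + c i := by positivity
    have h5 : 0 < ((k:ℝ)+1) + c (i+1) := by positivity
    have h6 : (UKey_Y a β k (i+1) * F') * (((k:ℝ)+1) + c i) ≤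
        (((k:ℝ)+1) + c (i+1)) * (((k:ℝ)+1) + c i) := by
      calc (UKey_Y a β k (i+1) * F') * (((k:ℝ)+1) + c i)
          = (UKey_Y a β k (i+1) * (((k:ℝ)+1) + c i)) * F' := by ring
        _ ≤ (UKey_Y a β k i * (((k:ℝ)+1) + c (i+1))) * F' :=
            mul_le_mul_of_nonneg_right hY hF'nn
        _ = (((k:ℝ)+1) + c (i+1)) * (UKey_Y a β k i * F') := by ring
        _ ≤ (((k:ℝ)+1) + c (i+1)) * (UKey_Y a β k i * F) :=
            mul_le_mul_of_nonneg_left (mul_le_mul_of_nonneg_left hFF hYnn) h5.le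
        _ ≤ (((k:ℝ)+1) + c (i+1)) * (((k:ℝ)+1) + c i) :=
            mul_le_mul_of_nonneg_left (by linarith) h5.le
    have h7 : UKey_Y a β k (i+1) * F' ≤ ((k:ℝ)+1) + c (i+1) := le_of_mul_le_mul_right h6 h4
    have h8 : 0 ≤ K a β k (i+1) * h (i+1) / O * (((k:ℝ)+1) + c (i+1) -
        UKey_Y a β k (i+1) * F') := mul_nonneg hx2.le (by linarith)
    rw [← h2] at h8
    have h9 : i + 1 + 1 = i + 2 := rfl
    rw [h9] at h8
    linarith
  have hE0 : 0 ≤ E 0 := by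
    have hs0 : S 0 = O := by rw [hS, hIcc, hOdef]; rfl
    have hs10 : S1 0 = O1 := by rw [hS1, hIcc, hO1def]; rfl
    rw [hE, hs0, hs10, div_self hO0.ne', div_self hO10.ne', hc]
    simp
  have hEM : 0 ≤ E (M+1) := by
    have hs0 : S (M+1) = 0 := by rw [hS]; simp
    have hs10 : S1 (M+1) = 0 := by rw [hS1]; simp
    rw [hE, hs0, hs10, if_neg (by omega)]
    simp
  have hfin := UKey_sign M E hE0 hEM hsign l (by omega)
  rw [hE, if_pos hl, hS, hS1, hc] at hfin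
  rw [← hOdef, ← hO1def]
  linarith

end H716SP
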