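import Pool.Agent.H716R3.SP.IdI
import Pool.Agent.H716R3.SP.Club
/-! Task T10: the full window without factorials. -/
set_option autoImplicit false
open Finset
namespace H716SP

/-- `coth β = 1 + 2/p` -/
theorem coth_eq (β : ℝ) (hβ : 0 < β) : Real.sinh β * (1 + 2 / pp β) = Real.cosh β := by
  have hp := pp_pos hβ
  have hE : 0 < Real.exp β := Real.exp_pos β
  have h2 : Real.exp β * Real.exp β = pp β + 1 := by
    unfold pp
    rw [two_mul, Real.exp_add]
    ring
  have h3 : Real.exp (-β) = (Real.exp β)⁻¹ := Real.exp_neg β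
  rw [Real.sinh_eq, Real.cosh_eq, h3]
  generalize Real.exp β = E at *
  generalize pp β = q at *
  have e1 : E - E⁻¹ = q / E := by
    field_simp
    linarith [h2, pow_two E]
  have e2 : E + E⁻¹ = (q + 2) / E := by
    field_simp
    linarith [h2, pow_two E]
  rw [e1, e2]
  field_simp

/-- `sinh(βn) coth β ≤ n cosh(βn)` for naturals `n` (`tanh(nβ) ≤ n tanh β`, induction by the addition formulas) -/
theorem sinh_nat_le (β : ℝ) (hβ : 0 < β) (n : ℕ) :
    Real.sinh (β * n) * (1 + 2 / pp β) ≤ n * Real.cosh (β * n) := by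
  have hc := coth_eq β hβ
  have hsβ : 0 < Real.sinh β := Real.sinh_pos_iff.2 hβ
  have hcβ : 0 < Real.cosh β := Real.cosh_pos β
  induction n with
  | zero => simp
  | succ n ih =>
    have hn : (0 : ℝ) ≤ n := Nat.cast_nonneg n
    have hsn : 0 ≤ Real.sinh (β * n) := Real.sinh_nonneg_iff.2 (by positivity)
    have hcn : 0 < Real.cosh (β * n) := Real.cosh_pos _
    have e1 : β * ((n + 1 : ℕ) : ℝ) = β * n + β := by push_cast; ring
    rw [e1, Real.sinh_add, Real.cosh_add]
    push_cast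
    calc (Real.sinh (β * n) * Real.cosh β + Real.cosh (β * n) * Real.sinh β) * (1 + 2 / pp β)
        = (Real.sinh (β * n) * (1 + 2 / pp β)) * Real.cosh β +
          Real.cosh (β * n) * (Real.sinh β * (1 + 2 / pp β)) := by ring
      _ = (Real.sinh (β * n) * (1 + 2 / pp β)) * Real.cosh β +
          Real.cosh (β * n) * Real.cosh β := by rw [hc]
      _ ≤ (n * Real.cosh (β * n)) * Real.cosh β + Real.cosh (β * n) * Real.cosh β := by
          gcongr
      _ = (n + 1) * (Real.cosh (β * n) * Real.cosh β) := by ring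
      _ ≤ (n + 1) * (Real.cosh (β * n) * Real.cosh β + Real.sinh (β * n) * Real.sinh β) := by
          refine mul_le_mul_of_nonneg_left ?_ (by positivity)
          have := mul_nonneg hsn hsβ.le
          linarith

private theorem X0_int (β : ℝ) (hβ : 0 < β) (z : ℤ) :
    (1 + 2 / pp β) * ((z : ℝ) * Real.sinh (β * z)) ≤ (z : ℝ) ^ 2 * Real.cosh (β * z) := by
  have key : ∀ n : ℕ, (1 + 2 / pp β) * ((n : ℝ) * Real.sinh (β * n)) ≤
      (n : ℝ) ^ 2 * Real.cosh (β * n) := by
    intro n
    have h := mul_le_mul_of_nonneg_left (sinh_nat_le β hβ n) (Nat.cast_nonneg (α := ℝ) n)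
    calc (1 + 2 / pp β) * ((n : ℝ) * Real.sinh (β * n)) =
        n * (Real.sinh (β * n) * (1 + 2 / pp β)) := by ring
      _ ≤ n * (n * Real.cosh (β * n)) := h
      _ = (n : ℝ) ^ 2 * Real.cosh (β * n) := by ring
  rcases Int.eq_nat_or_neg z with ⟨n, rfl | rfl⟩
  · simpa using key n
  · have := key n
    push_cast
    rw [mul_neg, Real.sinh_neg, Real.cosh_neg, neg_mul_neg, neg_sq]
    exact this

/-- (★).  Proof: `s = 0` trivial (only `l = 0`, `D = 0`).  `s ≥ 1`: half of the claim is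
`∑ c {cosh βD - sinh βD (D + δ/p)} ≥ 0`.  By `club`, `∑ c sinh(βD)(D + δ/p) ≤ (1 + 2/(ps)) ∑ c D sinh βD`.
By `id_I`, `s ∑ c cosh = (s-1) ∑ c D sinh βD + ∑ c D² cosh βD`, and `D² cosh βD ≥ (1+2/p) D sinh βD` by `sinh_nat_le`
with `n = |D|` (`DD s l` is an integer; both sides are even in `D`).  So `s ∑ c cosh ≥ (s + 2/p) ∑ c D sinh βD`. -/
theorem X0_nonneg (β : ℝ) (hβ : 0 < β) (s : ℕ) :
    0 ≤ ∑ l ∈ range (s+1), cc β s l * (2 * Real.cosh (β * DD s l) - Real.sinh (β * DD s l) * dst β s l) := by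
  have hp := pp_pos hβ
  rcases Nat.eq_zero_or_pos s with rfl | hs
  · rw [zero_add, Finset.sum_range_one]
    have h0 : DD 0 0 = 0 := by simp [DD]
    have h1 : 0 ≤ cc β 0 0 := by unfold cc; positivity
    rw [h0, mul_zero, Real.cosh_zero, Real.sinh_zero]
    nlinarith
  · have hs' : (0 : ℝ) < s := by exact_mod_cast hs
    have hcc : ∀ l, 0 ≤ cc β s l := fun l => by unfold cc; positivity
    set S0 := ∑ l ∈ range (s+1), cc β s l * Real.cosh (β * DD s l) with hS0
    set S1 := ∑ l ∈ range (s+1), cc β s l * (Real.sinh (β * DD s l) * DD s l) with hS1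
    set Sd := ∑ l ∈ range (s+1), cc β s l * (Real.sinh (β * DD s l) * del s l) with hSd
    set S2 := ∑ l ∈ range (s+1), cc β s l * ((DD s l) ^ 2 * Real.cosh (β * DD s l)) with hS2
    have h1 : Sd ≤ (2 / (s : ℝ)) * S1 := club β hβ s hs
    have h2 : ((s : ℝ) - 1) * S1 + S2 = s * S0 := by
      rw [hS0, ← id_I β s, hS1, hS2, Finset.mul_sum, ← Finset.sum_add_distrib]
      refine Finset.sum_congr rfl fun l _ => ?_
      ring
    have h3 : (1 + 2 / pp β) * S1 ≤ S2 := by
      rw [hS1, hS2, Finset.mul_sum]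
      refine Finset.sum_le_sum fun l _ => ?_
      have hz : DD s l = ((2 * (l : ℤ) - (s : ℤ) : ℤ) : ℝ) := by unfold DD; push_cast; ring
      have h := X0_int β hβ (2 * (l : ℤ) - (s : ℤ))
      rw [← hz] at h
      calc (1 + 2 / pp β) * (cc β s l * (Real.sinh (β * DD s l) * DD s l)) =
          cc β s l * ((1 + 2 / pp β) * (DD s l * Real.sinh (β * DD s l))) := by ring
        _ ≤ cc β s l * ((DD s l) ^ 2 * Real.cosh (β * DD s l)) :=
          mul_le_mul_of_nonneg_left h (hcc l)
    have h4 : ∑ l ∈ range (s+1), cc β s l * (2 * Real.cosh (β * DD s l) -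
        Real.sinh (β * DD s l) * dst β s l) = 2 * (S0 - S1 - Sd / pp β) := by
      rw [hS0, hS1, hSd, Finset.sum_div, ← Finset.sum_sub_distrib, ← Finset.sum_sub_distrib,
        Finset.mul_sum]
      refine Finset.sum_congr rfl fun l _ => ?_
      unfold dst
      ring
    rw [h4]
    have h5 : Sd / pp β ≤ (2 / (s : ℝ)) * S1 / pp β := by gcongr
    have h6 : 0 ≤ s * (S0 - S1 - (2 / (s : ℝ)) * S1 / pp β) := by
      have e : (s : ℝ) * (S0 - S1 - (2 / (s : ℝ)) * S1 / pp β) =
          s * S0 - (s + 2 / pp β) * S1 := by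
        field_simp
        ring
      rw [e]
      nlinarith
    have h7 : 0 ≤ S0 - S1 - (2 / (s : ℝ)) * S1 / pp β := by
      by_contra hcon
      push Not at hcon
      have := mul_neg_of_pos_of_neg hs' hcon
      linarith
    linarith

end H716SP
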