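import Pool.Agent.H716R3.SP.X0
/-! Task T11: all windows without factorials. -/
set_option autoImplicit false
open Finset
namespace H716SP

theorem Xu_DD_refl (s l : ℕ) (hl : l ≤ s) : DD s (s-l) = - DD s l := by
  unfold DD
  rw [Nat.cast_sub hl]
  ring

theorem Xu_Hm_mono {a b : ℕ} (h : a ≤ b) : Hm a ≤ Hm b := by
  unfold Hm
  refine sum_le_sum_of_subset_of_nonneg (range_mono h) fun i _ _ => ?_
  positivity

/-- `dst` is odd under `l ↦ s-l` and nondecreasing in `l`; (`dst(l) ≥ 0` for `2l ≥ s`) -/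
theorem dst_odd (β : ℝ) (s l : ℕ) (hl : l ≤ s) : dst β s (s-l) = - dst β s l := by
  unfold dst del
  rw [Xu_DD_refl s l hl, Nat.sub_sub_self hl]
  ring

theorem dst_mono (β : ℝ) (hβ : 0 < β) (s l l' : ℕ) (h : l ≤ l') (hl' : l' ≤ s) : dst β s l ≤ dst β s l' := by
  have hp := pp_pos hβ
  have h1 : DD s l ≤ DD s l' := by
    unfold DD
    have : (l:ℝ) ≤ l' := by exact_mod_cast h
    linarith
  have h2 : del s l ≤ del s l' := by
    unfold del
    have h3 := Xu_Hm_mono h
    have h4 : Hm (s - l') ≤ Hm (s - l) := Xu_Hm_mono (by omega)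
    linarith
  have h5 : (2 / pp β) * del s l ≤ (2 / pp β) * del s l' :=
    mul_le_mul_of_nonneg_left h2 (by positivity)
  unfold dst
  linarith

theorem Xu_dst_nonneg (β : ℝ) (hβ : 0 < β) (s l : ℕ) (h : s ≤ 2*l) (hl : l ≤ s) :
    0 ≤ dst β s l := by
  have h1 := dst_mono β hβ s (s-l) l (by omega) hl
  rw [dst_odd β s l hl] at h1
  linarith

/-- the bracket -/
noncomputable def Xu_b (β : ℝ) (s l : ℕ) : ℝ :=
  2 * Real.cosh (β * DD s l) - Real.sinh (β * DD s l) * dst β s l

theorem Xu_b_refl (β : ℝ) (s l : ℕ) (hl : l ≤ s) : Xu_b β s (s-l) = Xu_b β s l := by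
  unfold Xu_b
  rw [Xu_DD_refl s l hl, dst_odd β s l hl, mul_neg, Real.cosh_neg, Real.sinh_neg]
  ring

theorem Xu_b_sign (β : ℝ) (hβ : 0 < β) (s l l' : ℕ) (h : s ≤ 2*l) (hll : l ≤ l') (hl' : l' ≤ s)
    (hb : 0 ≤ Xu_b β s l') : 0 ≤ Xu_b β s l := by
  unfold Xu_b at *
  have hD0 : 0 ≤ DD s l := by
    unfold DD
    have : (s:ℝ) ≤ 2 * l := by exact_mod_cast h
    linarith
  have hDD : DD s l ≤ DD s l' := by
    unfold DD
    have : (l:ℝ) ≤ l' := by exact_mod_cast hll
    linarith
  set x := β * DD s l with hx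
  set x' := β * DD s l' with hx'
  have hxx : x ≤ x' := mul_le_mul_of_nonneg_left hDD hβ.le
  have hx0 : 0 ≤ x := mul_nonneg hβ.le hD0
  have hx0' : 0 ≤ x' := hx0.trans hxx
  have h1 : Real.sinh x * Real.cosh x' ≤ Real.sinh x' * Real.cosh x := by
    have h2 : 0 ≤ Real.sinh (x' - x) := Real.sinh_nonneg_iff.2 (by linarith)
    rw [Real.sinh_sub] at h2
    linarith
  have hd0 := Xu_dst_nonneg β hβ s l h (hll.trans hl')
  have hdm := dst_mono β hβ s l l' hll hl'
  have hc := Real.cosh_pos x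
  have hc' := Real.cosh_pos x'
  have hs' : 0 ≤ Real.sinh x' := Real.sinh_nonneg_iff.2 hx0'
  have h3 : Real.sinh x * dst β s l * Real.cosh x' ≤ 2 * Real.cosh x * Real.cosh x' := by
    calc Real.sinh x * dst β s l * Real.cosh x' = (Real.sinh x * Real.cosh x') * dst β s l := by ring
      _ ≤ (Real.sinh x' * Real.cosh x) * dst β s l := mul_le_mul_of_nonneg_right h1 hd0
      _ ≤ (Real.sinh x' * Real.cosh x) * dst β s l' :=
          mul_le_mul_of_nonneg_left hdm (mul_nonneg hs' hc.le)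
      _ = (Real.sinh x' * dst β s l') * Real.cosh x := by ring
      _ ≤ (2 * Real.cosh x') * Real.cosh x := mul_le_mul_of_nonneg_right (by linarith) hc.le
      _ = 2 * Real.cosh x * Real.cosh x' := by ring
  have h4 := le_of_mul_le_mul_right h3 hc'
  linarith

theorem Xu_sum_refl (s u : ℕ) (G : ℕ → ℝ) :
    ∑ l ∈ Icc u (s-u), G (s-l) = ∑ l ∈ Icc u (s-u), G l := by
  refine sum_nbij' (fun l => s-l) (fun l => s-l) ?_ ?_ ?_ ?_ ?_
  · intro a ha
    rw [mem_Icc] at ha ⊢
    omega
  · intro a ha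
    rw [mem_Icc] at ha ⊢
    omega
  · intro a ha
    rw [mem_Icc] at ha
    omega
  · intro a ha
    rw [mem_Icc] at ha
    omega
  · intro a ha
    rfl

/-- Proof: `Ew β s l = e^{-β/2} e^{-(β/2)D²} e^{-βD}`, so by the symmetry `l ↦ s-l` of the window (and `dst_odd`)
`X_u = e^{-β/2} ∑_{Icc u (s-u)} c(l) [2 cosh βD - sinh βD · dst(l)]`.  The bracket is `cosh βD · (2 - tanh(βD) dst(l))`, even in
`D`, and `tanh(βD) dst(l)` is nondecreasing in `|D|` (`dst_mono`).  So if the bracket is `≥ 0` at `l = s-u` then all the terms of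
the window are `≥ 0`; otherwise all the terms outside the window `Icc u (s-u)` are `≤ 0`, so the window sum is
`≥` the full sum `≥ 0` (`X0_nonneg`). -/
theorem Xu_nonneg (β : ℝ) (hβ : 0 < β) (s u : ℕ) (hu : 2*u ≤ s) :
    0 ≤ ∑ l ∈ Icc u (s-u), (s.choose l : ℝ) * Ew β s l * (2 + dst β s l) := by
  have hF0 : 0 ≤ ∑ l ∈ range (s+1), cc β s l * Xu_b β s l := X0_nonneg β hβ s
  have hcc : ∀ l, 0 ≤ cc β s l := by
    intro l
    unfold cc
    positivity
  have hwin : 0 ≤ ∑ l ∈ Icc u (s-u), cc β s l * Xu_b β s l := by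
    by_cases hb : 0 ≤ Xu_b β s (s-u)
    · refine sum_nonneg fun l hl => mul_nonneg (hcc l) ?_
      rw [mem_Icc] at hl
      rcases le_total s (2*l) with h | h
      · exact Xu_b_sign β hβ s l (s-u) h hl.2 (by omega) hb
      · rw [← Xu_b_refl β s l (by omega)]
        exact Xu_b_sign β hβ s (s-l) (s-u) (by omega) (by omega) (by omega) hb
    · push Not at hb
      have hsub : Icc u (s-u) ⊆ range (s+1) := by
        intro l hl
        rw [mem_Icc] at hl
        rw [mem_range]
        omega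
      have h1 := sum_sdiff (f := fun l => cc β s l * Xu_b β s l) hsub
      have h2 : ∑ l ∈ range (s+1) \ Icc u (s-u), cc β s l * Xu_b β s l ≤ 0 := by
        refine sum_nonpos fun l hl => mul_nonpos_of_nonneg_of_nonpos (hcc l) ?_
        rw [mem_sdiff, mem_range, mem_Icc] at hl
        by_contra hc
        push Not at hc
        rcases le_total s (2*l) with h | h
        · have h3 := Xu_b_sign β hβ s (s-u) l (by omega) (by omega) (by omega) hc.le
          linarith
        · have h3 := Xu_b_sign β hβ s (s-u) (s-l) (by omega) (by omega) (by omega)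
            (by rw [Xu_b_refl β s l (by omega)]; exact hc.le)
          linarith
      linarith
  -- symmetrisation
  set G : ℕ → ℝ := fun l => (s.choose l : ℝ) * Ew β s l * (2 + dst β s l) with hG
  have hpair : ∀ l ∈ Icc u (s-u), G l + G (s-l) =
      2 * (Real.exp (-(β/2)) * (cc β s l * Xu_b β s l)) := by
    intro l hl
    rw [mem_Icc] at hl
    have hls : l ≤ s := by omega
    have e1 : Ew β s l = Real.exp (-(β/2)) * Real.exp (-(β/2) * (DD s l)^2) *
        Real.exp (-(β * DD s l)) := by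
      unfold Ew
      rw [← Real.exp_add, ← Real.exp_add]
      congr 1
      ring
    have e2 : Ew β s (s-l) = Real.exp (-(β/2)) * Real.exp (-(β/2) * (DD s l)^2) *
        Real.exp (β * DD s l) := by
      unfold Ew
      rw [Xu_DD_refl s l hls, ← Real.exp_add, ← Real.exp_add]
      congr 1
      ring
    show (s.choose l : ℝ) * Ew β s l * (2 + dst β s l) +
      (s.choose (s-l) : ℝ) * Ew β s (s-l) * (2 + dst β s (s-l)) = _
    rw [e1, e2, dst_odd β s l hls, Nat.choose_symm hls]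
    unfold cc Xu_b
    rw [Real.cosh_eq, Real.sinh_eq]
    ring
  have h2 : ∑ l ∈ Icc u (s-u), G l + ∑ l ∈ Icc u (s-u), G (s-l) =
      2 * (Real.exp (-(β/2)) * ∑ l ∈ Icc u (s-u), cc β s l * Xu_b β s l) := by
    rw [← sum_add_distrib, sum_congr rfl hpair, ← mul_sum, ← mul_sum]
  rw [Xu_sum_refl] at h2
  have h3 : 0 ≤ Real.exp (-(β/2)) * ∑ l ∈ Icc u (s-u), cc β s l * Xu_b β s l :=
    mul_nonneg (Real.exp_pos _).le hwin
  linarith

end H716SP
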