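import Pool.Agent.H716R3.SP.Xu
/-! Task T12: windows with factorials. -/
set_option autoImplicit false
open Finset
namespace H716SP

/-- `J(l) = (k+1+l)! (k+s-l)!` -/
noncomputable def JJ (k s l : ℕ) : ℝ := ((k+1+l).factorial : ℝ) * ((k+(s-l)).factorial : ℝ)

/-- `(k+1)! k! s! A(l) = J(l) C(s,l) E(l)` for `l ≤ s` -/
theorem AA_eq (β : ℝ) (k s l : ℕ) (hl : l ≤ s) :
    AA β k s l * (((k+1).factorial : ℝ) * (k.factorial : ℝ) * (s.factorial : ℝ)) =
      JJ k s l * ((s.choose l : ℝ) * Ew β s l) := by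
  have h1 : ((k+1+l).choose l : ℝ) * (l.factorial : ℝ) * ((k+1).factorial : ℝ) =
      ((k+1+l).factorial : ℝ) := by
    have := Nat.choose_mul_factorial_mul_factorial (show l ≤ k+1+l by omega)
    rw [show k+1+l-l = k+1 by omega] at this
    exact_mod_cast this
  have h2 : ((k+(s-l)).choose (s-l) : ℝ) * ((s-l).factorial : ℝ) * (k.factorial : ℝ) =
      ((k+(s-l)).factorial : ℝ) := by
    have := Nat.choose_mul_factorial_mul_factorial (show s-l ≤ k+(s-l) by omega)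
    rw [show k+(s-l)-(s-l) = k by omega] at this
    exact_mod_cast this
  have h3 : (s.choose l : ℝ) * (l.factorial : ℝ) * ((s-l).factorial : ℝ) =
      (s.factorial : ℝ) := by
    exact_mod_cast Nat.choose_mul_factorial_mul_factorial hl
  unfold AA JJ
  rw [← h1, ← h2, ← h3]
  ring

/-- the pair sums: with `x = l+1`, `y = s-l` (`x + y = s+1`)
`C(s,l)(2+dst(l)) + C(s,l+1)(2+dst(s-1-l)) = (s!/(x! y!)) (2(x-y)² + (2/p)((x-y)(H_x - H_y) - 2))`.
(`C(s,l) = (s!/(x!y!)) x`, `C(s,l+1) = (s!/(x!y!)) y`, `2+2(2l-s) = 2(x-y)`, `2+2(2(s-1-l)-s) = -2(x-y)`,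
`H_l = H_x - 1/x`, `H_{s-1-l} = H_y - 1/y`.) -/
theorem pair_sum (β : ℝ) (hβ : 0 < β) (s l : ℕ) (hl : l + 1 ≤ s) :
    (s.choose l : ℝ) * (2 + dst β s l) + (s.choose (l+1) : ℝ) * (2 + dst β s (s-1-l)) =
      ((s.factorial : ℝ) / (((l+1).factorial : ℝ) * ((s-l).factorial : ℝ))) *
        (2 * (((l:ℝ)+1) - ((s:ℝ)-l))^2 +
          (2 / pp β) * ((((l:ℝ)+1) - ((s:ℝ)-l)) * (Hm (l+1) - Hm (s-l)) - 2)) := by
  have hp := (pp_pos hβ).ne'
  obtain ⟨y, hy⟩ : ∃ y, s = l + 1 + y := ⟨s - (l+1), by omega⟩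
  subst hy
  have e1 : l + 1 + y - l = y + 1 := by omega
  have e2 : l + 1 + y - 1 - l = y := by omega
  have e3 : l + 1 + y - y = l + 1 := by omega
  have h3 : ((l+1+y).choose l : ℝ) * (l.factorial : ℝ) * ((y+1).factorial : ℝ) =
      ((l+1+y).factorial : ℝ) := by
    have := Nat.choose_mul_factorial_mul_factorial (show l ≤ l+1+y by omega)
    rw [e1] at this
    exact_mod_cast this
  have h4 : ((l+1+y).choose (l+1) : ℝ) * ((l+1).factorial : ℝ) * (y.factorial : ℝ) =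
      ((l+1+y).factorial : ℝ) := by
    have := Nat.choose_mul_factorial_mul_factorial (show l+1 ≤ l+1+y by omega)
    rw [show l+1+y-(l+1) = y by omega] at this
    exact_mod_cast this
  have f1 : ((l+1).factorial : ℝ) = ((l:ℝ)+1) * (l.factorial : ℝ) := by
    rw [Nat.factorial_succ]; push_cast; ring
  have f2 : ((y+1).factorial : ℝ) = ((y:ℝ)+1) * (y.factorial : ℝ) := by
    rw [Nat.factorial_succ]; push_cast; ring
  have g1 : Hm (l+1) = Hm l + 1/((l:ℝ)+1) := by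
    unfold Hm; rw [Finset.sum_range_succ]
  have g2 : Hm (y+1) = Hm y + 1/((y:ℝ)+1) := by
    unfold Hm; rw [Finset.sum_range_succ]
  have k1 : (l.factorial : ℝ) ≠ 0 := by positivity
  have k2 : (y.factorial : ℝ) ≠ 0 := by positivity
  have k3 : (l:ℝ)+1 ≠ 0 := by positivity
  have k4 : (y:ℝ)+1 ≠ 0 := by positivity
  have c1 : ((l+1+y).choose l : ℝ) = ((l+1+y).factorial : ℝ) /
      (((l:ℝ)+1) * (l.factorial : ℝ) * (((y:ℝ)+1) * (y.factorial : ℝ))) * ((l:ℝ)+1) := by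
    rw [← h3, f2]
    field_simp
  have c2 : ((l+1+y).choose (l+1) : ℝ) = ((l+1+y).factorial : ℝ) /
      (((l:ℝ)+1) * (l.factorial : ℝ) * (((y:ℝ)+1) * (y.factorial : ℝ))) * ((y:ℝ)+1) := by
    rw [← h4, f1]
    field_simp
  unfold dst del DD
  rw [e2, e3, e1, c1, c2, f1, f2, g1, g2]
  push_cast
  generalize ((l+1+y).factorial : ℝ) /
      (((l:ℝ)+1) * (l.factorial : ℝ) * (((y:ℝ)+1) * (y.factorial : ℝ))) = M
  field_simp
  ring

theorem Yu_JJ_pos (k s l : ℕ) : 0 < JJ k s l := by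
  unfold JJ; positivity

theorem Yu_JJ_refl (k s l : ℕ) (hl : l + 1 ≤ s) : JJ k s (s-1-l) = JJ k s l := by
  unfold JJ
  rw [show k+1+(s-1-l) = k+(s-l) by omega, show k+(s-(s-1-l)) = k+1+l by omega, mul_comm]

theorem Yu_JJ_step (k s l : ℕ) (h1 : s ≤ 2*l+2) (h2 : l + 1 ≤ s) : JJ k s l ≤ JJ k s (l+1) := by
  unfold JJ
  obtain ⟨y, hy⟩ : ∃ y, s = l + 1 + y := ⟨s - (l+1), by omega⟩
  subst hy
  rw [show k+(l+1+y-l) = (k+y)+1 by omega, show k+(l+1+y-(l+1)) = k+y by omega,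
    show k+1+(l+1) = (k+1+l)+1 by omega, Nat.factorial_succ (k+y), Nat.factorial_succ (k+1+l)]
  push_cast
  have h3 : (y:ℝ) ≤ (l:ℝ) + 1 := by exact_mod_cast (by omega : y ≤ l+1)
  have h4 : (0:ℝ) ≤ ((k+1+l).factorial : ℝ) * ((k+y).factorial : ℝ) := by positivity
  nlinarith

theorem Yu_JJ_mono (k s l l' : ℕ) (h1 : s ≤ 2*l+2) (h : l ≤ l') (h2 : l' ≤ s) :
    JJ k s l ≤ JJ k s l' := by
  induction l', h using Nat.le_induction with
  | base => exact le_rfl
  | succ l' hl ih => exact (ih (by omega)).trans (Yu_JJ_step k s l' (by omega) (by omega))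

theorem Yu_Hm_mono {n m : ℕ} (h : n ≤ m) : Hm n ≤ Hm m := by
  unfold Hm
  exact Finset.sum_le_sum_of_subset_of_nonneg (Finset.range_subset_range.2 h)
    (fun i _ _ => by positivity)

theorem Yu_Ew_refl (β : ℝ) (s l : ℕ) (hl : l + 1 ≤ s) : Ew β s (s-1-l) = Ew β s l := by
  unfold Ew DD
  have e : (((s-1-l : ℕ)) : ℝ) = (s:ℝ) - 1 - l := by
    rw [Nat.cast_sub (by omega), Nat.cast_sub (by omega)]
    push_cast
    ring
  rw [e]
  congr 2
  ring

/-- the sign function -/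
noncomputable def Yu_phi (β : ℝ) (s l : ℕ) : ℝ :=
  2 * (((l:ℝ)+1) - ((s:ℝ)-l))^2 +
    (2 / pp β) * ((((l:ℝ)+1) - ((s:ℝ)-l)) * (Hm (l+1) - Hm (s-l)) - 2)

theorem Yu_phi_mono (β : ℝ) (hβ : 0 < β) (s l l' : ℕ) (h1 : s ≤ 2*l+1) (h : l ≤ l') :
    Yu_phi β s l ≤ Yu_phi β s l' := by
  have hp := pp_pos hβ
  unfold Yu_phi
  have a1 : (0:ℝ) ≤ ((l:ℝ)+1) - ((s:ℝ)-l) := by
    have : (s:ℝ) ≤ 2*l+1 := by exact_mod_cast h1
    linarith
  have a2 : ((l:ℝ)+1) - ((s:ℝ)-l) ≤ ((l':ℝ)+1) - ((s:ℝ)-l') := by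
    have : (l:ℝ) ≤ l' := by exact_mod_cast h
    linarith
  have b1 : 0 ≤ Hm (l+1) - Hm (s-l) := sub_nonneg.2 (Yu_Hm_mono (by omega))
  have b2 : Hm (l+1) - Hm (s-l) ≤ Hm (l'+1) - Hm (s-l') := by
    have := Yu_Hm_mono (show l+1 ≤ l'+1 by omega)
    have := Yu_Hm_mono (show s-l' ≤ s-l by omega)
    linarith
  have c1 : (((l:ℝ)+1) - ((s:ℝ)-l))^2 ≤ (((l':ℝ)+1) - ((s:ℝ)-l'))^2 :=
    pow_le_pow_left₀ a1 a2 2
  have c2 : (((l:ℝ)+1) - ((s:ℝ)-l)) * (Hm (l+1) - Hm (s-l)) ≤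
      (((l':ℝ)+1) - ((s:ℝ)-l')) * (Hm (l'+1) - Hm (s-l')) :=
    mul_le_mul a2 b2 b1 (a1.trans a2)
  have c3 : 0 ≤ 2 / pp β := by positivity
  have c4 := mul_le_mul_of_nonneg_left (sub_le_sub_right c2 2) c3
  linarith

/-- the terms -/
noncomputable def Yu_F (β : ℝ) (s l : ℕ) : ℝ := (s.choose l : ℝ) * Ew β s l * (2 + dst β s l)

theorem Yu_G (β : ℝ) (hβ : 0 < β) (s l : ℕ) (hl : l + 1 ≤ s) :
    ∃ c : ℝ, 0 ≤ c ∧ Yu_F β s l + Yu_F β s (s-1-l) = c * Yu_phi β s l := by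
  refine ⟨Ew β s l * ((s.factorial : ℝ) / (((l+1).factorial : ℝ) * ((s-l).factorial : ℝ))),
    mul_nonneg (Real.exp_pos _).le (by positivity), ?_⟩
  unfold Yu_F
  rw [Yu_Ew_refl β s l hl]
  have e : (s.choose (s-1-l) : ℝ) = (s.choose (l+1) : ℝ) := by
    have := Nat.choose_symm (show l+1 ≤ s from hl)
    rw [show s - (l+1) = s-1-l by omega] at this
    exact_mod_cast this
  rw [e]
  have h := pair_sum β hβ s l hl
  unfold Yu_phi
  linear_combination (Ew β s l) * h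

/-- Proof.  By `AA_eq` one may replace `AA` by `J(l) C(s,l) E(l)`.  `J` and `E` are invariant under `l ↦ s-1-l`
(`0 ≤ l ≤ s-1`) and `J(l+1) ≥ J(l)` for `2l+2 ≥ s` (ratio `(k+2+l)/(k+s-l)`).  Window `Icc u (s-u)`: the term `l = s-u` is
`J(s-u) C E (2+dst(s-u)) ≥ 0`; the others form the set `Icc u (s-1-u)`, invariant under `l ↦ s-1-l`; symmetrising, their sum is
`(1/2) ∑_{l ∈ Icc u (s-1-u)} J(l) E(l) G(l)`, `G(l)` = the pair sum in `pair_sum` (also invariant), whose sign is that of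
`2(x-y)² + (2/p)((x-y)(H_x-H_y) - 2)`, nondecreasing in `|x-y|` for fixed `x+y = s+1`.  So for `2l+1 ≥ s` the signs of `G` are
first `-` and then `+`.  If `l0` is the first index `≥ (s-1)/2` with `G(l0) ≥ 0` (or `l0 = s-u` if there is none in the window), then
`J(l) G(l) ≥ J(l0) G(l)` for all `l` of the window and `J(s-u) ≥ J(l0)`; so the whole sum is
`≥ J(l0) · ∑_{Icc u (s-u)} C(s,l) E(l) (2+dst(l)) ≥ 0` by `Xu_nonneg`.  (Case `s = 0`: one term, `≥ 0`.) -/
theorem Yu_nonneg (β : ℝ) (hβ : 0 < β) (k s u : ℕ) (hu : 2*u ≤ s) :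
    0 ≤ ∑ l ∈ Icc u (s-u), AA β k s l * (2 + dst β s l) := by
  have hp := pp_pos hβ
  set c : ℝ := ((k+1).factorial : ℝ) * (k.factorial : ℝ) * (s.factorial : ℝ) with hc
  have hc0 : 0 < c := by positivity
  have key : c * ∑ l ∈ Icc u (s-u), AA β k s l * (2 + dst β s l) =
      ∑ l ∈ Icc u (s-u), JJ k s l * Yu_F β s l := by
    rw [Finset.mul_sum]
    apply Finset.sum_congr rfl
    intro l hl
    have hl' : l ≤ s := by
      have := (Finset.mem_Icc.1 hl).2
      omega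
    have h1 := AA_eq β k s l hl'
    unfold Yu_F
    linear_combination (2 + dst β s l) * h1
  suffices h : 0 ≤ ∑ l ∈ Icc u (s-u), JJ k s l * Yu_F β s l by
    rw [← key] at h
    exact nonneg_of_mul_nonneg_right h hc0
  have hend : 0 ≤ Yu_F β s (s-u) := by
    unfold Yu_F
    have h1 : 0 ≤ dst β s (s-u) := by
      unfold dst del DD
      rw [show s-(s-u) = u by omega]
      have h2 : 0 ≤ Hm (s-u) - Hm u := sub_nonneg.2 (Yu_Hm_mono (by omega))
      have h3 : (((s-u : ℕ)) : ℝ) = (s:ℝ) - u := Nat.cast_sub (by omega)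
      have h4 : (2:ℝ)*u ≤ s := by exact_mod_cast hu
      rw [h3]
      have h5 : 0 ≤ 2 / pp β * (Hm (s-u) - Hm u) := by positivity
      linarith
    have h2 : 0 < Ew β s (s-u) := Real.exp_pos _
    positivity
  rcases Nat.lt_or_ge (2*u) s with hlt | hge
  · -- the main case
    have hins : Icc u (s-u) = insert (s-u) (Icc u (s-1-u)) := by
      ext l
      simp only [Finset.mem_Icc, Finset.mem_insert]
      omega
    have hnot : s-u ∉ Icc u (s-1-u) := by
      simp only [Finset.mem_Icc]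
      omega
    -- the threshold
    obtain ⟨J0, hJ0, hJ1, hJ2⟩ : ∃ J0 : ℝ, 0 ≤ J0 ∧ J0 ≤ JJ k s (s-u) ∧
        ∀ l, s ≤ 2*l+1 → l + 1 + u ≤ s → 0 ≤ (JJ k s l - J0) * Yu_phi β s l := by
      classical
      by_cases hex : ∃ l, s ≤ 2*l+1 ∧ l + 1 + u ≤ s ∧ 0 ≤ Yu_phi β s l
      · have hs := Nat.find_spec hex
        have hmin := fun l hl => Nat.find_min hex (m := l) hl
        set l0 := Nat.find hex with hl0
        refine ⟨JJ k s l0, (Yu_JJ_pos _ _ _).le, Yu_JJ_mono k s l0 (s-u) (by omega) (by omega)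
          (by omega), ?_⟩
        intro l h1 h2
        rcases Nat.lt_or_ge l l0 with h3 | h3
        · have h4 : Yu_phi β s l < 0 := by
            by_contra hcon
            push Not at hcon
            exact hmin l h3 ⟨h1, h2, hcon⟩
          have h5 : JJ k s l ≤ JJ k s l0 := Yu_JJ_mono k s l l0 (by omega) h3.le (by omega)
          exact mul_nonneg_of_nonpos_of_nonpos (by linarith) h4.le
        · have h4 : 0 ≤ Yu_phi β s l := hs.2.2.trans (Yu_phi_mono β hβ s l0 l hs.1 h3)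
          have h5 : JJ k s l0 ≤ JJ k s l := Yu_JJ_mono k s l0 l (by omega) h3 (by omega)
          exact mul_nonneg (by linarith) h4
      · refine ⟨JJ k s (s-u), (Yu_JJ_pos _ _ _).le, le_rfl, ?_⟩
        intro l h1 h2
        have h4 : Yu_phi β s l < 0 := by
          by_contra hcon
          push Not at hcon
          exact hex ⟨l, h1, h2, hcon⟩
        have h5 : JJ k s l ≤ JJ k s (s-u) := Yu_JJ_mono k s l (s-u) (by omega) (by omega) (by omega)
        exact mul_nonneg_of_nonpos_of_nonpos (by linarith) h4.le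
    -- the products
    have hprod : ∀ l ∈ Icc u (s-1-u), 0 ≤ (JJ k s l - J0) * (Yu_F β s l + Yu_F β s (s-1-l)) := by
      intro l hl
      rw [Finset.mem_Icc] at hl
      rcases Nat.lt_or_ge (2*l+1) s with h1 | h1
      · -- reflect
        obtain ⟨c', hc', hG⟩ := Yu_G β hβ s (s-1-l) (by omega)
        have h2 := hJ2 (s-1-l) (by omega) (by omega)
        rw [Yu_JJ_refl k s l (by omega)] at h2
        rw [show s-1-(s-1-l) = l by omega] at hG
        rw [add_comm, hG]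
        have h3 := mul_nonneg hc' h2
        linarith
      · obtain ⟨c', hc', hG⟩ := Yu_G β hβ s l (by omega)
        have h2 := hJ2 l h1 (by omega)
        rw [hG]
        have h3 := mul_nonneg hc' h2
        linarith
    -- symmetrisation
    have hsym : ∑ l ∈ Icc u (s-1-u), (JJ k s l - J0) * Yu_F β s l =
        ∑ l ∈ Icc u (s-1-u), (JJ k s l - J0) * Yu_F β s (s-1-l) := by
      refine Finset.sum_nbij' (fun l => s-1-l) (fun l => s-1-l) ?_ ?_ ?_ ?_ ?_
      · intro l hl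
        rw [Finset.mem_Icc] at hl ⊢
        omega
      · intro l hl
        rw [Finset.mem_Icc] at hl ⊢
        omega
      · intro l hl
        rw [Finset.mem_Icc] at hl
        omega
      · intro l hl
        rw [Finset.mem_Icc] at hl
        omega
      · intro l hl
        rw [Finset.mem_Icc] at hl
        rw [Yu_JJ_refl k s l (by omega), show s-1-(s-1-l) = l by omega]
    have hpos : 0 ≤ ∑ l ∈ Icc u (s-1-u), (JJ k s l - J0) * Yu_F β s l := by
      have h1 := Finset.sum_nonneg hprod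
      simp only [mul_add, Finset.sum_add_distrib] at h1
      rw [← hsym] at h1
      linarith
    have hX : 0 ≤ ∑ l ∈ Icc u (s-u), Yu_F β s l := Xu_nonneg β hβ s u hu
    have htot : ∑ l ∈ Icc u (s-u), JJ k s l * Yu_F β s l =
        J0 * ∑ l ∈ Icc u (s-u), Yu_F β s l + ((JJ k s (s-u) - J0) * Yu_F β s (s-u) +
          ∑ l ∈ Icc u (s-1-u), (JJ k s l - J0) * Yu_F β s l) := by
      rw [← Finset.sum_insert hnot (f := fun l => (JJ k s l - J0) * Yu_F β s l), ← hins,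
        Finset.mul_sum, ← Finset.sum_add_distrib]
      apply Finset.sum_congr rfl
      intro l _
      ring
    rw [htot]
    have h1 := mul_nonneg hJ0 hX
    have h2 := mul_nonneg (sub_nonneg.2 hJ1) hend
    linarith
  · -- one term
    have hus : s - u = u := by omega
    rw [hus] at hend ⊢
    rw [Finset.Icc_self, Finset.sum_singleton]
    exact mul_nonneg (Yu_JJ_pos _ _ _).le hend

end H716SP
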