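import Pool.Agent.H716R3.SP.Yu
/-! Task T13: windows for general functions `v`. -/
set_option autoImplicit false
open Finset
namespace H716SP

theorem Zu_Hm_succ (b : ℕ) : Hm (b+1) = Hm b + 1/((b:ℝ)+1) := by
  unfold Hm
  rw [Finset.sum_range_succ]

theorem Zu_tele (β : ℝ) (hβ : 0 < β) (v : ℕ → ℝ)
    (hv : ∀ l, 0 ≤ v (l+1) - v l ∧ v (l+1) - v l ≤ gg β l) (a b : ℕ) (hab : a ≤ b) :
    0 ≤ v b - v a ∧ v b - v a ≤ 2 * ((b:ℝ) - a) + (2 / pp β) * (Hm b - Hm a) := by
  have hp := pp_pos hβ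
  induction b, hab using Nat.le_induction with
  | base => simp
  | succ b hb ih =>
    obtain ⟨h1, h2⟩ := hv b
    obtain ⟨h3, h4⟩ := ih
    refine ⟨by linarith, ?_⟩
    have h5 : gg β b = 2 + (2 / pp β) * (1/((b:ℝ)+1)) := by
      unfold gg
      have hb1 : (b:ℝ) + 1 ≠ 0 := by positivity
      field_simp
    rw [Zu_Hm_succ, Nat.cast_add, Nat.cast_one]
    rw [h5] at h2
    have h6 : (2 / pp β) * (Hm b + 1/((b:ℝ)+1) - Hm a) =
      (2 / pp β) * (Hm b - Hm a) + (2 / pp β) * (1/((b:ℝ)+1)) := by ring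
    rw [h6]
    linarith

/-- `v(l) - v(s-l)` lies between `0` and `dst(l)` for `2l ≥ s` (sum the slopes: `dst(l) = ∑_{s-l ≤ i < l} g(i)`). -/
theorem v_diff (β : ℝ) (hβ : 0 < β) (v : ℕ → ℝ)
    (hv : ∀ l, 0 ≤ v (l+1) - v l ∧ v (l+1) - v l ≤ gg β l) (s l : ℕ) (hl : l ≤ s) (h2 : s ≤ 2*l) :
    0 ≤ v l - v (s-l) ∧ v l - v (s-l) ≤ dst β s l := by
  have h := Zu_tele β hβ v hv (s-l) l (by omega)
  refine ⟨h.1, h.2.trans (le_of_eq ?_)⟩
  unfold dst DD del
  rw [Nat.cast_sub hl]
  ring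

theorem Zu_AA_pos (β : ℝ) (k s l : ℕ) : 0 < AA β k s l := by
  unfold AA Ew
  have h1 : 0 < (k+1+l).choose l := Nat.choose_pos (Nat.le_add_left _ _)
  have h2 : 0 < (k+(s-l)).choose (s-l) := Nat.choose_pos (Nat.le_add_left _ _)
  positivity

theorem Zu_choose (k l : ℕ) :
    ((k+1+l).choose l : ℝ) * ((k:ℝ)+1) = ((k+l).choose l : ℝ) * ((k:ℝ)+1+l) := by
  have h := Nat.add_one_mul_choose_eq (k+l) k
  -- (k+l+1) * C(k+l,k) = C(k+l+1,k+1) * (k+1)
  have h1 : (k+l).choose k = (k+l).choose l := Nat.choose_symm_add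
  have h2 : (k+l+1).choose (k+1) = (k+1+l).choose l := by
    have : k + l + 1 = k + 1 + l := by ring
    rw [this]; exact Nat.choose_symm_add
  rw [h1, h2] at h
  have h3 : ((k+1+l).choose l : ℝ) * ((k:ℝ)+1) = ((k:ℝ)+l+1) * ((k+l).choose l : ℝ) := by
    exact_mod_cast h.symm
  rw [h3]; ring

/-- the common factor -/
noncomputable def Zu_P (k s l : ℕ) : ℝ :=
  ((k+l).choose l : ℝ) * ((k+(s-l)).choose (s-l) : ℝ) / (2 * ((k:ℝ)+1))

theorem Zu_P_pos (k s l : ℕ) : 0 < Zu_P k s l := by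
  unfold Zu_P
  have h1 : 0 < (k+l).choose l := Nat.choose_pos (Nat.le_add_left _ _)
  have h2 : 0 < (k+(s-l)).choose (s-l) := Nat.choose_pos (Nat.le_add_left _ _)
  positivity

theorem Zu_AA1 (β : ℝ) (k s l : ℕ) :
    AA β k s l = Zu_P k s l * ((2*k+2+s : ℝ) + DD s l) * Real.exp (-(β/2) * (DD s l + 1)^2) := by
  unfold AA Ew Zu_P DD
  have h := Zu_choose k l
  have hk : (k:ℝ) + 1 ≠ 0 := by positivity
  have h1 : ((k+1+l).choose l : ℝ) = ((k+l).choose l : ℝ) * ((k:ℝ)+1+l) / ((k:ℝ)+1) := by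
    rw [eq_div_iff hk]; exact h
  rw [h1]
  field_simp
  ring

theorem Zu_AA2 (β : ℝ) (k s l : ℕ) (hl : l ≤ s) :
    AA β k s (s-l) = Zu_P k s l * ((2*k+2+s : ℝ) - DD s l) * Real.exp (-(β/2) * (1 - DD s l)^2) := by
  rw [Zu_AA1]
  have h1 : DD s (s-l) = - DD s l := by
    unfold DD; rw [Nat.cast_sub hl]; ring
  have h2 : Zu_P k s (s-l) = Zu_P k s l := by
    unfold Zu_P
    rw [Nat.sub_sub_self hl]; ring
  rw [h1, h2]
  congr 1
  congr 1
  ring

theorem Zu_iff (β : ℝ) (k s l : ℕ) (hl : l ≤ s) (h2 : s < 2*l) :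
    AA β k s (s-l) ≤ AA β k s l ↔
      2 * β * DD s l ≤ Real.log (1 + DD s l / (2*k+2+s : ℝ)) -
        Real.log (1 - DD s l / (2*k+2+s : ℝ)) := by
  have hn : (0:ℝ) < 2*k+2+s := by positivity
  have hD : 0 < DD s l := by
    unfold DD
    have : (s:ℝ) < 2 * l := by exact_mod_cast h2
    linarith
  have hDn : DD s l < 2*k+2+s := by
    unfold DD
    have : (l:ℝ) ≤ s := by exact_mod_cast hl
    have hk : (0:ℝ) ≤ k := Nat.cast_nonneg k
    linarith
  have hP := Zu_P_pos k s l
  rw [Zu_AA2 β k s l hl, Zu_AA1 β k s l]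
  set D := DD s l with hDdef
  set n : ℝ := 2*k+2+s with hndef
  set P := Zu_P k s l
  have h1 : 0 < P * (n - D) * Real.exp (-(β/2) * (1 - D)^2) := by
    have : 0 < n - D := by linarith
    positivity
  have h3 : 0 < P * (n + D) * Real.exp (-(β/2) * (D + 1)^2) := by positivity
  rw [← Real.log_le_log_iff h1 h3]
  have hnD : n - D ≠ 0 := by intro h; linarith
  have hnD' : n + D ≠ 0 := by positivity
  rw [Real.log_mul (mul_ne_zero hP.ne' hnD) (Real.exp_pos _).ne', Real.log_mul hP.ne' hnD,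
    Real.log_exp, Real.log_mul (mul_ne_zero hP.ne' hnD') (Real.exp_pos _).ne',
    Real.log_mul hP.ne' hnD', Real.log_exp]
  have h4 : Real.log (1 + D / n) = Real.log (n + D) - Real.log n := by
    rw [← Real.log_div hnD' hn.ne']
    congr 1
    field_simp
  have h5 : Real.log (1 - D / n) = Real.log (n - D) - Real.log n := by
    rw [← Real.log_div hnD hn.ne']
    congr 1
    field_simp
  rw [h4, h5]
  constructor
  · intro h; nlinarith
  · intro h; nlinarith

/-- `log ((1+x)/(1-x)) / x` is nondecreasing -/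
theorem Zu_log (x y : ℝ) (hx : 0 < x) (hxy : x ≤ y) (hy : y < 1) :
    (Real.log (1 + x) - Real.log (1 - x)) * y ≤ (Real.log (1 + y) - Real.log (1 - y)) * x := by
  have h1 := (Real.hasSum_log_sub_log_of_abs_lt_one
    (x := x) (by rw [abs_of_pos hx]; linarith)).mul_right y
  have h2 := (Real.hasSum_log_sub_log_of_abs_lt_one
    (x := y) (by rw [abs_of_pos (hx.trans_le hxy)]; exact hy)).mul_right x
  refine hasSum_le ?_ h1 h2
  intro j
  have h3 : x ^ (2*j) ≤ y ^ (2*j) := pow_le_pow_left₀ hx.le hxy _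
  have hy0 : 0 < y := hx.trans_le hxy
  have h4 : (2:ℝ) * (1 / (2*j+1)) * x ^ (2*j+1) * y = (2 * (1 / (2*j+1)) * x * y) * x ^ (2*j) := by
    ring
  have h5 : (2:ℝ) * (1 / (2*j+1)) * y ^ (2*j+1) * x = (2 * (1 / (2*j+1)) * x * y) * y ^ (2*j) := by
    ring
  rw [h4, h5]
  exact mul_le_mul_of_nonneg_left h3 (by positivity)

/-- initial segment property: `A(l)/A(s-l) = ((k+1+l)/(k+1+s-l)) e^{-2β(2l-s)}`; with `n = 2k+2+s`, `D = 2l-s > 0` the
logarithm is `log((n+D)/(n-D)) - 2βD`, and `log((n+D)/(n-D))/D` is nondecreasing in `D ∈ (0,n)`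
(e.g. `Real.hasSum_log_sub_log_of_abs_lt_one`: it equals `∑_j 2 (D/n)^{2j}/((2j+1) n)`; or convexity).
So if `A(l) ≥ A(s-l)` for some `l` with `s < 2l`, the same holds for all larger `l' ≤ s`. -/
theorem AA_initial (β : ℝ) (hβ : 0 < β) (k s l l' : ℕ) (hl : s < 2*l) (hll : l ≤ l') (hl' : l' ≤ s)
    (h : AA β k s (s-l) ≤ AA β k s l) : AA β k s (s-l') ≤ AA β k s l' := by
  rw [Zu_iff β k s l (hll.trans hl') hl] at h
  rw [Zu_iff β k s l' hl' (by omega)]
  have hn : (0:ℝ) < 2*k+2+s := by positivity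
  have hD : 0 < DD s l := by
    unfold DD
    have : (s:ℝ) < 2 * l := by exact_mod_cast hl
    linarith
  have hDD : DD s l ≤ DD s l' := by
    unfold DD
    have : (l:ℝ) ≤ l' := by exact_mod_cast hll
    linarith
  have hDn : DD s l' < 2*k+2+s := by
    unfold DD
    have : (l':ℝ) ≤ s := by exact_mod_cast hl'
    have hk : (0:ℝ) ≤ k := Nat.cast_nonneg k
    linarith
  have hlog := Zu_log (DD s l / (2*k+2+s : ℝ)) (DD s l' / (2*k+2+s : ℝ)) (by positivity)
    (by gcongr) ((div_lt_one hn).mpr hDn)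
  set D := DD s l
  set D' := DD s l'
  set n : ℝ := 2*k+2+s
  have h1 : (2 * β * D) * (D' / n) ≤ (Real.log (1 + D / n) - Real.log (1 - D / n)) * (D' / n) :=
    mul_le_mul_of_nonneg_right h (div_nonneg (hD.le.trans hDD) hn.le)
  have h2 : (2 * β * D') * (D / n) ≤ (Real.log (1 + D' / n) - Real.log (1 - D' / n)) * (D / n) := by
    calc (2 * β * D') * (D / n) = (2 * β * D) * (D' / n) := by ring
      _ ≤ _ := h1
      _ ≤ _ := hlog
  exact le_of_mul_le_mul_right h2 (div_pos hD hn)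

theorem Zu_reflect (s u : ℕ) (f : ℕ → ℝ) :
    ∑ l ∈ Icc u (s-u), f (s-l) = ∑ l ∈ Icc u (s-u), f l := by
  refine Finset.sum_nbij' (fun l => s - l) (fun l => s - l) ?_ ?_ ?_ ?_ ?_
  · intro l hl; rw [Finset.mem_Icc] at *; omega
  · intro l hl; rw [Finset.mem_Icc] at *; omega
  · intro l hl; rw [Finset.mem_Icc] at *; show s - (s - l) = l; omega
  · intro l hl; rw [Finset.mem_Icc] at *; show s - (s - l) = l; omega
  · intro l hl; rfl

theorem Zu_dst_symm (β : ℝ) (s l : ℕ) (hl : l ≤ s) : dst β s (s-l) = - dst β s l := by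
  unfold dst DD del
  rw [Nat.cast_sub hl, Nat.sub_sub_self hl]; ring

/-- Proof.  Let `z(l) = A(l)(2 + v(l) - v(s-l))`.  For `2l ≥ s` the pair `l, s-l` contributes (`Δ = v(l)-v(s-l) ∈ [0, dst(l)]`)
`2(A(l)+A(s-l)) + (A(l)-A(s-l))Δ`: `≥ 0` if `A(l) ≥ A(s-l)`, and `≥ 2(A(l)+A(s-l)) + (A(l)-A(s-l)) dst(l)` otherwise.
By `AA_initial` the set of `l > s/2` with `A(l) < A(s-l)` is an initial segment; let `u' ≥ u` be the least such that all
`l` with `s < 2l ≤ 2(s-u')` satisfy `A(l) < A(s-l)`.  Then the pairs of `Icc u (s-u)` outside `Icc u' (s-u')` contribute `≥ 0`, and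
the rest is `≥ ∑_{Icc u' (s-u')} A(l)(2+dst(l)) ≥ 0` by `Yu_nonneg`.  (Cleanest in Lean: induction on the window from the
outside: if `A(s-u) ≥ A(u)` peel the pair `u, s-u` and use induction; otherwise all inner pairs have `A(l) < A(s-l)` by
`AA_initial` and one compares the whole window with `Yu_nonneg`.) -/
theorem Zu_nonneg (β : ℝ) (hβ : 0 < β) (v : ℕ → ℝ)
    (hv : ∀ l, 0 ≤ v (l+1) - v l ∧ v (l+1) - v l ≤ gg β l) (k s u : ℕ) (hu : 2*u ≤ s) :
    0 ≤ ∑ l ∈ Icc u (s-u), AA β k s l * (2 + v l - v (s-l)) := by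
  obtain ⟨w, hw⟩ : ∃ w, s = 2*u + w := ⟨s - 2*u, by omega⟩
  induction w using Nat.strong_induction_on generalizing u with
  | _ w ih =>
  by_cases hcase : AA β k s u ≤ AA β k s (s-u)
  · -- peel off the pair
    rcases Nat.eq_zero_or_pos w with hw0 | hwpos
    · have h1 : s - u = u := by omega
      rw [h1, Finset.Icc_self, Finset.sum_singleton, h1]
      have := Zu_AA_pos β k s u
      have h2 : (2:ℝ) + v u - v u = 2 := by ring
      rw [h2]; positivity
    · have hlt : u < s - u := by omega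
      have hsplit : ∑ l ∈ Icc u (s-u), AA β k s l * (2 + v l - v (s-l)) =
          AA β k s u * (2 + v u - v (s-u)) + AA β k s (s-u) * (2 + v (s-u) - v (s-(s-u))) +
          ∑ l ∈ Icc (u+1) (s-(u+1)), AA β k s l * (2 + v l - v (s-l)) := by
        have h1 : Icc u (s-u) = insert u (insert (s-u) (Icc (u+1) (s-(u+1)))) := by
          ext l
          simp only [Finset.mem_insert, Finset.mem_Icc]
          omega
        rw [h1, Finset.sum_insert, Finset.sum_insert]
        · ring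
        · simp only [Finset.mem_Icc]; omega
        · simp only [Finset.mem_insert, Finset.mem_Icc]; omega
      have hinner : 0 ≤ ∑ l ∈ Icc (u+1) (s-(u+1)), AA β k s l * (2 + v l - v (s-l)) := by
        by_cases h2 : 2*(u+1) ≤ s
        · exact ih (w-2) (by omega) (u+1) h2 (by omega)
        · rw [Finset.Icc_eq_empty (by omega), Finset.sum_empty]
      rw [hsplit]
      have hv1 := (v_diff β hβ v hv s (s-u) (by omega) (by omega)).1
      have h3 : s - (s - u) = u := by omega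
      rw [h3] at hv1 ⊢
      have hp1 := Zu_AA_pos β k s u
      have hp2 := Zu_AA_pos β k s (s-u)
      have h4 : 0 ≤ (AA β k s (s-u) - AA β k s u) * (v (s-u) - v u) :=
        mul_nonneg (by linarith) hv1
      nlinarith
  · -- compare with `Yu_nonneg`
    have hinit : ∀ l, s < 2*l → l ≤ s - u → AA β k s l < AA β k s (s-l) := by
      intro l h1 h2
      by_contra hcon
      rw [not_lt] at hcon
      have h3 := AA_initial β hβ k s l (s-u) h1 h2 (by omega) hcon
      have h4 : s - (s - u) = u := by omega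
      rw [h4] at h3
      exact hcase h3
    have hY := Yu_nonneg β hβ k s u hu
    refine hY.trans ?_
    rw [← sub_nonneg, ← Finset.sum_sub_distrib]
    have hdiff : ∀ l, AA β k s l * (2 + v l - v (s-l)) - AA β k s l * (2 + dst β s l) =
        AA β k s l * (v l - v (s-l) - dst β s l) := by intro l; ring
    simp only [hdiff]
    have hrefl := Zu_reflect s u (fun l => AA β k s l * (v l - v (s-l) - dst β s l))
    have h2S : 2 * ∑ l ∈ Icc u (s-u), AA β k s l * (v l - v (s-l) - dst β s l) =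
        ∑ l ∈ Icc u (s-u), (AA β k s l - AA β k s (s-l)) * (v l - v (s-l) - dst β s l) := by
      rw [two_mul]
      nth_rewrite 2 [← hrefl]
      rw [← Finset.sum_add_distrib]
      refine Finset.sum_congr rfl fun l hl => ?_
      rw [Finset.mem_Icc] at hl
      have hls : l ≤ s := by omega
      rw [Zu_dst_symm β s l hls, Nat.sub_sub_self hls]
      ring
    have hnn : 0 ≤ ∑ l ∈ Icc u (s-u),
        (AA β k s l - AA β k s (s-l)) * (v l - v (s-l) - dst β s l) := by
      refine Finset.sum_nonneg fun l hl => ?_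
      rw [Finset.mem_Icc] at hl
      have hls : l ≤ s := by omega
      rcases lt_trichotomy (2*l) s with h | h | h
      · -- reflect
        have h1 := hinit (s-l) (by omega) (by omega)
        rw [Nat.sub_sub_self hls] at h1
        have h2 := (v_diff β hβ v hv s (s-l) (by omega) (by omega)).2
        rw [Nat.sub_sub_self hls, Zu_dst_symm β s l hls] at h2
        exact mul_nonneg (by linarith) (by linarith)
      · have h1 : s - l = l := by omega
        rw [h1, sub_self, zero_mul]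
      · have h1 := hinit l h (by omega)
        have h2 := (v_diff β hβ v hv s l hls (by omega)).2
        exact mul_nonneg_of_nonpos_of_nonpos (by linarith) (by linarith)
    linarith

end H716SP
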